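import Pool.Agent.CptDim.Far

/-!
# Compact operators and far vectors (text 1.2 and (N2))
-/

set_option autoImplicit false

noncomputable section

namespace Pool.Agent.CptDim

universe u v

open Filter Topology

variable {E : Type u} [NormedAddCommGroup E] [NormedSpace ℂ E]

private theorem ca_net (K : E →L[ℂ] E) (hK : IsCompactOperator K) {ε : ℝ} (hε : 0 < ε) :
    ∃ t : Set E, t.Finite ∧ ∀ z : E, ‖z‖ ≤ 1 → ∃ y ∈ t, ‖K z - y‖ < ε := by
  have h1 : IsCompact (closure (K '' Metric.closedBall (0 : E) 1)) :=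
    hK.isCompact_closure_image_closedBall 1
  obtain ⟨t, ht, h2⟩ := Metric.totallyBounded_iff.mp h1.totallyBounded ε hε
  refine ⟨t, ht, fun z hz => ?_⟩
  have h3 : K z ∈ closure (K '' Metric.closedBall (0 : E) 1) :=
    subset_closure ⟨z, by simpa using hz, rfl⟩
  have h4 := h2 h3
  simp only [Set.mem_iUnion, Metric.mem_ball, dist_eq_norm] at h4
  obtain ⟨y, hy, h5⟩ := h4
  exact ⟨y, hy, h5⟩

/-- Module `ca`: compact operators are small at far vectors. (`ε / 2`-net `y i` of the image of the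
unit ball, `f i` norming `y i`, functionals `f i ∘ K`.) -/
theorem cpt_far (K : E →L[ℂ] E) (hK : IsCompactOperator K) {ε : ℝ} (hε : 0 < ε) :
    ∀ᶠ z in far E, ‖K z‖ ≤ ε := by
  classical
  obtain ⟨t, ht, h1⟩ := ca_net K hK (half_pos hε)
  have h2 : ∀ y : E, ∃ g : E →L[ℂ] ℂ, ‖g‖ ≤ 1 ∧ g y = ‖y‖ := fun y => exists_dual_vector'' ℂ y
  choose g hg1 hg2 using h2
  refine ⟨ht.toFinset.image (fun y => (g y).comp K), fun z hz h3 => ?_⟩
  obtain ⟨y, hy, h4⟩ := h1 z hz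
  have h5 : (g y) (K z) = 0 := h3 ((g y).comp K) (Finset.mem_image.mpr ⟨y, by simpa using hy, rfl⟩)
  have h6 : ‖y‖ ≤ ‖K z - y‖ := by
    have h7 : ‖(g y) (K z - y)‖ ≤ 1 * ‖K z - y‖ := (g y).le_of_opNorm_le (hg1 y) _
    rw [map_sub, h5, hg2, zero_sub, norm_neg, Complex.norm_real, norm_norm, one_mul] at h7
    exact h7
  have h8 : ‖K z‖ ≤ ‖K z - y‖ + ‖y‖ := by
    have := norm_add_le (K z - y) y
    rwa [sub_add_cancel] at this
  change ‖K z‖ ≤ ε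
  linarith

/-- Module `cb`: a finite set of functionals which norms a finite-dimensional subspace up to the
factor `2` (compactness of the unit sphere of `G`). -/
theorem finset_norming (G : Submodule ℂ E) (hG : FiniteDimensional ℂ G) :
    ∃ Φ : Finset (E →L[ℂ] ℂ), (∀ f ∈ Φ, ‖f‖ ≤ 1) ∧
      ∀ g ∈ G, g ≠ 0 → ∃ f ∈ Φ, ‖g‖ ≤ 2 * ‖f g‖ := by
  classical
  haveI := hG
  haveI : ProperSpace G := FiniteDimensional.proper ℂ G
  have h1 : IsCompact ((fun g : G => (g : E)) '' Metric.sphere (0 : G) 1) :=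
    (isCompact_sphere (0 : G) 1).image continuous_subtype_val
  obtain ⟨t, ht, h2⟩ := Metric.totallyBounded_iff.mp h1.totallyBounded (1 / 4) (by norm_num)
  have h3 : ∀ y : E, ∃ g : E →L[ℂ] ℂ, ‖g‖ ≤ 1 ∧ g y = ‖y‖ := fun y => exists_dual_vector'' ℂ y
  choose f hf1 hf2 using h3
  refine ⟨ht.toFinset.image f, ?_, ?_⟩
  · intro g hg
    obtain ⟨y, -, rfl⟩ := Finset.mem_image.mp hg
    exact hf1 y
  · intro g hg hg0
    have hn : 0 < ‖g‖ := norm_pos_iff.mpr hg0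
    have h4 : ((‖g‖ : ℝ)⁻¹ : ℂ) • g ∈ (fun g : G => (g : E)) '' Metric.sphere (0 : G) 1 := by
      refine ⟨⟨((‖g‖ : ℝ)⁻¹ : ℂ) • g, G.smul_mem _ hg⟩, ?_, rfl⟩
      rw [mem_sphere_zero_iff_norm]
      change ‖((‖g‖ : ℝ)⁻¹ : ℂ) • g‖ = 1
      rw [norm_smul, norm_inv, Complex.norm_real, norm_norm, inv_mul_cancel₀ hn.ne']
    have h5 := h2 h4
    simp only [Set.mem_iUnion, Metric.mem_ball, dist_eq_norm] at h5
    obtain ⟨y, hy, h6⟩ := h5
    refine ⟨f y, Finset.mem_image.mpr ⟨y, by simpa using hy, rfl⟩, ?_⟩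
    set u : E := ((‖g‖ : ℝ)⁻¹ : ℂ) • g with hu
    have hu1 : ‖u‖ = 1 := by
      rw [hu, norm_smul, norm_inv, Complex.norm_real, norm_norm, inv_mul_cancel₀ hn.ne']
    have h7 : ‖(f y) (u - y)‖ ≤ 1 * ‖u - y‖ := (f y).le_of_opNorm_le (hf1 y) _
    have h8 : ‖y‖ ≤ ‖(f y) u‖ + ‖(f y) (u - y)‖ := by
      have h9 : (f y) y = (f y) u - (f y) (u - y) := by rw [map_sub]; ring
      have h10 : ‖(f y) y‖ = ‖y‖ := by rw [hf2, Complex.norm_real, norm_norm]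
      rw [← h10, h9]
      exact norm_sub_le _ _
    have h11 : ‖u‖ ≤ ‖u - y‖ + ‖y‖ := by
      have := norm_add_le (u - y) y
      rwa [sub_add_cancel] at this
    have h12 : (f y) u = ((‖g‖ : ℝ)⁻¹ : ℂ) • (f y) g := by rw [hu, map_smul]
    have h13 : ‖(f y) u‖ = ‖g‖⁻¹ * ‖(f y) g‖ := by
      rw [h12, norm_smul, norm_inv, Complex.norm_real, norm_norm]
    have h14 : 1 / 2 ≤ ‖g‖⁻¹ * ‖(f y) g‖ := by
      rw [← h13]; linarith
    have h15 : ‖g‖ * (1 / 2) ≤ ‖g‖ * (‖g‖⁻¹ * ‖(f y) g‖) := mul_le_mul_of_nonneg_left h14 hn.le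
    rw [← mul_assoc, mul_inv_cancel₀ hn.ne', one_mul] at h15
    linarith

/-- Module `cb`: vectors killed by the functionals of `finset_norming` are far from `G`. -/
theorem far_from (G : Submodule ℂ E) (hG : FiniteDimensional ℂ G) :
    ∃ Φ : Finset (E →L[ℂ] ℂ), ∀ y : E, (∀ f ∈ Φ, f y = 0) → ∀ g ∈ G, ‖y‖ ≤ 3 * ‖y - g‖ := by
  obtain ⟨Φ, h1, h2⟩ := finset_norming G hG
  refine ⟨Φ, fun y hy g hg => ?_⟩
  by_cases hg0 : g = 0
  · rw [hg0, sub_zero]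
    have := norm_nonneg y
    linarith
  · obtain ⟨f, hf, h3⟩ := h2 g hg hg0
    have h4 : ‖f (y - g)‖ ≤ 1 * ‖y - g‖ := f.le_of_opNorm_le (h1 f hf) _
    rw [map_sub, hy f hf, zero_sub, norm_neg, one_mul] at h4
    have h5 : ‖y‖ ≤ ‖y - g‖ + ‖g‖ := by
      have := norm_add_le (y - g) g
      rwa [sub_add_cancel] at this
    linarith

/-- Module `cc`: Hahn-Banach in the quotient `E ⧸ G`. -/
theorem exists_functional (G : Submodule ℂ E) (hG : FiniteDimensional ℂ G) (y : E)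
    (hy : 1 / 2 ≤ ‖y‖) (h : ∀ g ∈ G, ‖y‖ ≤ 3 * ‖y - g‖) :
    ∃ x : E →L[ℂ] ℂ, ‖x‖ ≤ 12 ∧ x y = 1 ∧ ∀ g ∈ G, x g = 0 := by
  haveI := hG
  haveI : IsClosed (G : Set E) := G.closed_of_finiteDimensional
  have h1 : 1 / 12 < ‖(Submodule.Quotient.mk y : E ⧸ G)‖ := by
    obtain ⟨m, hm, h2⟩ := Submodule.Quotient.norm_mk_lt (S := G) (Submodule.Quotient.mk y) (ε := 1 / 12)
      (by norm_num)
    have h3 : y - m ∈ G := by
      rw [← Submodule.Quotient.eq, hm]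
    have h4 := h (y - m) h3
    rw [sub_sub_cancel] at h4
    linarith
  obtain ⟨f, hf1, hf2⟩ := exists_dual_vector'' ℂ (Submodule.Quotient.mk y : E ⧸ G)
  set r : ℝ := ‖(Submodule.Quotient.mk y : E ⧸ G)‖ with hr
  have hr0 : 0 < r := by linarith
  let L : E →ₗ[ℂ] ℂ := ((r : ℂ)⁻¹) • ((f : (E ⧸ G) →ₗ[ℂ] ℂ).comp G.mkQ)
  have hL : ∀ z, ‖L z‖ ≤ 12 * ‖z‖ := by
    intro z
    have h2 : L z = (r : ℂ)⁻¹ * f (Submodule.Quotient.mk z) := rfl
    have h3 : ‖f (Submodule.Quotient.mk z)‖ ≤ 1 * ‖(Submodule.Quotient.mk z : E ⧸ G)‖ :=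
      f.le_of_opNorm_le hf1 _
    have h4 : ‖(Submodule.Quotient.mk z : E ⧸ G)‖ ≤ ‖z‖ := Submodule.Quotient.norm_mk_le G z
    rw [h2, norm_mul, norm_inv, Complex.norm_real, Real.norm_of_nonneg hr0.le]
    have h5 : r⁻¹ ≤ 12 := by
      rw [inv_le_comm₀ hr0 (by norm_num)]
      linarith
    have h6 : ‖f (Submodule.Quotient.mk z)‖ ≤ ‖z‖ := by linarith
    exact mul_le_mul h5 h6 (norm_nonneg _) (by norm_num)
  refine ⟨L.mkContinuous 12 hL, L.mkContinuous_norm_le (by norm_num) hL, ?_, ?_⟩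
  · change (r : ℂ)⁻¹ * f (Submodule.Quotient.mk y) = 1
    rw [hf2]
    exact inv_mul_cancel₀ (by exact_mod_cast hr0.ne')
  · intro g hg
    change (r : ℂ)⁻¹ * f (Submodule.Quotient.mk g) = 0
    rw [(Submodule.Quotient.mk_eq_zero G).mpr hg, map_zero, mul_zero]

/-- Module `cd`: the image of the unit ball under a compact operator is approximated by a
finite-dimensional subspace (span of a finite `ε`-net). -/
theorem cpt_approx (K : E →L[ℂ] E) (hK : IsCompactOperator K) {ε : ℝ} (hε : 0 < ε) :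
    ∃ G : Submodule ℂ E, FiniteDimensional ℂ G ∧ ∀ z : E, ‖z‖ ≤ 1 → ∃ g ∈ G, ‖K z - g‖ ≤ ε := by
  obtain ⟨t, ht, h1⟩ := ca_net K hK hε
  refine ⟨Submodule.span ℂ t, FiniteDimensional.span_of_finite ℂ ht, fun z hz => ?_⟩
  obtain ⟨y, hy, h2⟩ := h1 z hz
  exact ⟨y, Submodule.subset_span hy, h2.le⟩

/-- Module `ce`, (N2): from `cpt_approx`, `far_from`, `exists_functional` (for the sum of the
subspaces for `ε t / 12`). -/
theorem n_two {ι : Type v} (T : Finset ι) (K : ι → E →L[ℂ] E)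
    (hK : ∀ t ∈ T, IsCompactOperator (K t)) (ε : ι → ℝ) (hε : ∀ t ∈ T, 0 < ε t) :
    ∃ Φ : Finset (E →L[ℂ] ℂ), ∀ y : E, (∀ f ∈ Φ, f y = 0) → 1 / 2 ≤ ‖y‖ → ‖y‖ ≤ 1 →
      ∃ x : E →L[ℂ] ℂ, ‖x‖ ≤ 12 ∧ x y = 1 ∧ ∀ t ∈ T, ‖x.comp (K t)‖ ≤ ε t := by
  classical
  have h1 : ∀ t : ι, ∃ G : Submodule ℂ E, FiniteDimensional ℂ G ∧
      (t ∈ T → ∀ z : E, ‖z‖ ≤ 1 → ∃ g ∈ G, ‖K t z - g‖ ≤ ε t / 12) := by
    intro t
    by_cases ht : t ∈ T
    · obtain ⟨G, h2, h3⟩ := cpt_approx (K t) (hK t ht) (ε := ε t / 12) (by have := hε t ht; linarith)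
      exact ⟨G, h2, fun _ => h3⟩
    · exact ⟨⊥, inferInstance, fun h => absurd h ht⟩
  choose G hG1 hG2 using h1
  haveI : ∀ t, FiniteDimensional ℂ (G t) := hG1
  have hG : FiniteDimensional ℂ (T.sup G : Submodule ℂ E) := Submodule.finiteDimensional_finset_sup T G
  obtain ⟨Φ, hΦ⟩ := far_from (T.sup G) hG
  refine ⟨Φ, fun y hy h2 h3 => ?_⟩
  obtain ⟨x, hx1, hx2, hx3⟩ := exists_functional (T.sup G) hG y h2 (hΦ y hy)
  refine ⟨x, hx1, hx2, fun t ht => ?_⟩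
  have hεt := hε t ht
  have h4 : ∀ z : E, ‖z‖ ≤ 1 → ‖x (K t z)‖ ≤ ε t := by
    intro z hz
    obtain ⟨g, hg, h5⟩ := hG2 t ht z hz
    have h6 : x g = 0 := hx3 g (Finset.le_sup (f := G) ht hg)
    have h7 : ‖x (K t z - g)‖ ≤ 12 * ‖K t z - g‖ := x.le_of_opNorm_le hx1 _
    rw [map_sub, h6, sub_zero] at h7
    linarith
  refine ContinuousLinearMap.opNorm_le_bound _ hεt.le fun z => ?_
  by_cases hz0 : z = 0
  · rw [hz0]; simp
  · have hn : 0 < ‖z‖ := norm_pos_iff.mpr hz0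
    have h8 := h4 (((‖z‖ : ℝ)⁻¹ : ℂ) • z) (by
      rw [norm_smul, norm_inv, Complex.norm_real, norm_norm, inv_mul_cancel₀ hn.ne'])
    rw [map_smul, map_smul, norm_smul, norm_inv, Complex.norm_real, norm_norm] at h8
    change ‖x (K t z)‖ ≤ ε t * ‖z‖
    have h9 : ‖z‖ * (‖z‖⁻¹ * ‖x (K t z)‖) ≤ ‖z‖ * ε t := mul_le_mul_of_nonneg_left h8 hn.le
    rw [← mul_assoc, mul_inv_cancel₀ hn.ne', one_mul] at h9
    linarith

end Pool.Agent.CptDim
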