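import Pool.Agent.CptDim.Sgn
import Pool.Agent.CptDim.Cpt
import Pool.Agent.MP_a77edb_an.CPsi

/-!
# The data, the modules and the 1-cocycles (text 0 and 1)
-/

set_option autoImplicit false
set_option linter.unusedSectionVars false

noncomputable section

namespace Pool.Agent.CptDim

universe u v

open ContinuousLinearMap Filter Topology
open Pool.Agent.MP_a77edb_an
open scoped ENNReal

/-- The data `D` of the text. -/
structure CData (A E : Type u) [NonUnitalNormedRing A] [NormedSpace ℂ A]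
    [NormedAddCommGroup E] [NormedSpace ℂ E] where
  /-- the action on `E` -/
  aE : A →L[ℂ] E →L[ℂ] E
  aE_mul : ∀ a b x, aE (a * b) x = aE a (aE b x)
  /-- the character at infinity -/
  c : A →L[ℂ] ℂ
  c_mul : ∀ a b, c (a * b) = c a * c b
  cpt : ∀ a, IsCompactOperator (aE a - c a • ContinuousLinearMap.id ℂ E)
  /-- the section -/
  s : E →L[ℂ] A
  /-- a functional -/
  g₀ : E →L[ℂ] ℂ
  aE_s : ∀ y z, aE (s y) z = g₀ z • y
  mul_s : ∀ a y, a * s y = s (aE a y)
  c_s : ∀ y, c (s y) = 0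
  /-- a vector -/
  w₀ : E
  g₀_w₀ : g₀ w₀ = 1
  /-- a vector -/
  v₀ : E
  /-- a functional -/
  h₀ : E →L[ℂ] ℂ
  h₀_v₀ : h₀ v₀ = 1
  /-- elements acting as functionals -/
  uf : (E →L[ℂ] ℂ) → A
  aE_uf : ∀ f z, aE (uf f) z = f z • v₀
  c_uf : ∀ f, c (uf f) = 0
  /-- a bound -/
  C : ℝ
  norm_uf : ∀ f, ‖uf f‖ ≤ C * ‖f‖

section Index

variable (A E : Type u) [NonUnitalNormedRing A] [NormedSpace ℂ A]
  [NormedAddCommGroup E] [NormedSpace ℂ E]

/-- The index set: an index of the net together with a functional. -/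
structure Px where
  /-- the index of the net -/
  fst : Gam A
  /-- the functional -/
  snd : E →L[ℂ] ℂ

instance : Preorder (Px A E) := Preorder.lift Px.fst

variable {A E}

theorem Px.le_iff (p q : Px A E) : p ≤ q ↔ p.fst ≤ q.fst := Iff.rfl

instance : IsDirectedOrder (Px A E) :=
  ⟨fun p q => ⟨⟨Idx.node p.fst q.fst, 0⟩, Idx.le_node_left _ _, Idx.le_node_right _ _⟩⟩

instance : Nonempty (Px A E) := ⟨⟨Idx.leaf (0, 0), 0⟩⟩

end Index

section Shortcuts

/-! Shortcut instances (they make the elaboration much faster). -/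

variable (A E : Type u) [NonUnitalNormedRing A] [NormedSpace ℂ A]
  [NormedAddCommGroup E] [NormedSpace ℂ E]

instance instX1 : NormedAddCommGroup (Linf (Px A E) E) := inferInstance
instance instX2 : NormedSpace ℂ (Linf (Px A E) E) := inferInstance
instance instX3 : SeminormedAddCommGroup (Linf (Px A E) E) := inferInstance
instance instX4 : AddCommMonoid (Linf (Px A E) E) := inferInstance
instance instX5 : Module ℂ (Linf (Px A E) E) := inferInstance
instance instX6 : TopologicalSpace (Linf (Px A E) E) := inferInstance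
instance instX7 : AddCommGroup (Linf (Px A E) E) := inferInstance
instance instX8 : AddMonoid (Linf (Px A E) E) := inferInstance

instance instZ1 : NormedAddCommGroup (Z0 (Px A E)) := inferInstance
instance instZ2 : NormedSpace ℂ (Z0 (Px A E)) := inferInstance
instance instZ3 : SeminormedAddCommGroup (Z0 (Px A E)) := inferInstance
instance instZ4 : AddCommMonoid (Z0 (Px A E)) := inferInstance
instance instZ5 : Module ℂ (Z0 (Px A E)) := inferInstance
instance instZ6 : TopologicalSpace (Z0 (Px A E)) := inferInstance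
instance instZ7 : AddCommGroup (Z0 (Px A E)) := inferInstance
instance instZ8 : AddMonoid (Z0 (Px A E)) := inferInstance

instance instT1 : NormedAddCommGroup (PT A (Z0 (Px A E))) := inferInstance
instance instT2 : NormedSpace ℂ (PT A (Z0 (Px A E))) := inferInstance
instance instT3 : SeminormedAddCommGroup (PT A (Z0 (Px A E))) := inferInstance
instance instT4 : AddCommMonoid (PT A (Z0 (Px A E))) := inferInstance
instance instT5 : Module ℂ (PT A (Z0 (Px A E))) := inferInstance
instance instT6 : TopologicalSpace (PT A (Z0 (Px A E))) := inferInstance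
instance instT7 : AddCommGroup (PT A (Z0 (Px A E))) := inferInstance
instance instT8 : AddMonoid (PT A (Z0 (Px A E))) := inferInstance

instance instH1 : NormedAddCommGroup (Linf (Px A E) E →L[ℂ] PT A (Z0 (Px A E))) := inferInstance
instance instH2 : NormedSpace ℂ (Linf (Px A E) E →L[ℂ] PT A (Z0 (Px A E))) := inferInstance
instance instH3 : SeminormedAddCommGroup (Linf (Px A E) E →L[ℂ] PT A (Z0 (Px A E))) :=
  inferInstance
instance instH4 : AddCommMonoid (Linf (Px A E) E →L[ℂ] PT A (Z0 (Px A E))) := inferInstance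
instance instH5 : Module ℂ (Linf (Px A E) E →L[ℂ] PT A (Z0 (Px A E))) := inferInstance
instance instH6 : TopologicalSpace (Linf (Px A E) E →L[ℂ] PT A (Z0 (Px A E))) := inferInstance

instance instJ1 : NormedAddCommGroup (A →L[ℂ] Linf (Px A E) E →L[ℂ] PT A (Z0 (Px A E))) :=
  inferInstance
instance instJ2 : SeminormedAddCommGroup (A →L[ℂ] Linf (Px A E) E →L[ℂ] PT A (Z0 (Px A E))) :=
  inferInstance
instance instJ3 : Norm (A →L[ℂ] Linf (Px A E) E →L[ℂ] PT A (Z0 (Px A E))) := inferInstance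

instance instE1 : NormedAddCommGroup (E →L[ℂ] A) := inferInstance
instance instE2 : NormedSpace ℂ (E →L[ℂ] A) := inferInstance
instance instE3 : SeminormedAddCommGroup (E →L[ℂ] A) := inferInstance
instance instE4 : AddCommMonoid (E →L[ℂ] A) := inferInstance
instance instE5 : Module ℂ (E →L[ℂ] A) := inferInstance
instance instE6 : TopologicalSpace (E →L[ℂ] A) := inferInstance

end Shortcuts

section Data

variable {A E : Type u} [NonUnitalNormedRing A] [NormedSpace ℂ A]
  [NormedAddCommGroup E] [NormedSpace ℂ E]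

namespace CData

variable (D : CData A E)

/-- `aE a - c a`. -/
def kk (a : A) : E →L[ℂ] E := D.aE a - D.c a • ContinuousLinearMap.id ℂ E

theorem kk_apply (a : A) (z : E) : D.kk a z = D.aE a z - D.c a • z := rfl

/-- Admissible indices. -/
def Adm (p : Px A E) : Prop :=
  ‖p.snd‖ ≤ 12 ∧ ∀ a n, ((a, n) : A × ℕ) ∈ p.fst.lab → ‖p.snd.comp (D.kk a)‖ ≤ 1 / ((n : ℝ) + 1)

open Classical in
/-- The functional `x_p`. -/
def xx (p : Px A E) : E →L[ℂ] ℂ := if D.Adm p then p.snd else 0

/-- Module `aa`. -/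
theorem norm_xx_le (p : Px A E) : ‖D.xx p‖ ≤ 12 := by
  unfold xx
  split_ifs with h
  · exact h.1
  · rw [norm_zero]
    norm_num

/-- Module `aa`. -/
theorem xx_of_adm {p : Px A E} (h : D.Adm p) : D.xx p = p.snd := by
  unfold xx
  exact if_pos h

/-- Module `aa`. -/
theorem xx_kk_le (p : Px A E) (a : A) (n : ℕ) (h : ((a, n) : A × ℕ) ∈ p.fst.lab) :
    ‖(D.xx p).comp (D.kk a)‖ ≤ 1 / ((n : ℝ) + 1) := by
  by_cases hp : D.Adm p
  · rw [xx_of_adm D hp]
    exact hp.2 a n h
  · have h0 : D.xx p = 0 := by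
      unfold xx
      exact if_neg hp
    rw [h0, ContinuousLinearMap.zero_comp, norm_zero]
    positivity

/-- Module `aa`. -/
theorem norm_kk_le (a : A) : ‖D.kk a‖ ≤ (‖D.aE‖ + ‖D.c‖) * ‖a‖ := by
  have h1 : ‖D.aE a‖ ≤ ‖D.aE‖ * ‖a‖ := D.aE.le_opNorm a
  have h2 : ‖D.c a • ContinuousLinearMap.id ℂ E‖ ≤ ‖D.c‖ * ‖a‖ := by
    rw [norm_smul]
    calc ‖D.c a‖ * ‖ContinuousLinearMap.id ℂ E‖ ≤ (‖D.c‖ * ‖a‖) * 1 :=
          mul_le_mul (D.c.le_opNorm a) ContinuousLinearMap.norm_id_le (norm_nonneg _)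
            (by positivity)
      _ = _ := mul_one _
  unfold kk
  refine (norm_sub_le _ _).trans ?_
  linarith

/-- Module `ab`. -/
theorem coc_bound (a : A) (m : Linf (Px A E) E) (p : Px A E) :
    ‖D.xx p (D.kk a (m p))‖ ≤ (12 * (‖D.aE‖ + ‖D.c‖)) * ‖a‖ * ‖m‖ := by
  have h1 : ‖D.kk a (m p)‖ ≤ ((‖D.aE‖ + ‖D.c‖) * ‖a‖) * ‖m‖ := by
    refine ((D.kk a).le_opNorm _).trans ?_
    exact mul_le_mul (D.norm_kk_le a) (linf_apply_le m p) (norm_nonneg _) (by positivity)
  refine ((D.xx p).le_opNorm _).trans ?_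
  calc ‖D.xx p‖ * ‖D.kk a (m p)‖ ≤ 12 * (((‖D.aE‖ + ‖D.c‖) * ‖a‖) * ‖m‖) :=
        mul_le_mul (D.norm_xx_le p) h1 (norm_nonneg _) (by norm_num)
    _ = _ := by ring

/-- Module `ab`: `xx_kk_le` and the definition of the preorder. -/
theorem coc_tendsto (a : A) (m : Linf (Px A E) E) :
    Tendsto (fun p => D.xx p (D.kk a (m p))) atTop (𝓝 0) := by
  rw [NormedAddGroup.tendsto_nhds_zero]
  intro ε hε
  obtain ⟨n, hn⟩ := exists_nat_gt (‖m‖ / ε)
  have hn0 : ‖m‖ < ((n : ℝ) + 1) * ε := by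
    rw [div_lt_iff₀ hε] at hn
    nlinarith
  filter_upwards [eventually_ge_atTop (⟨Idx.leaf (a, n), 0⟩ : Px A E)] with p hp
  have hmem : ((a, n) : A × ℕ) ∈ p.fst.lab := by
    have h1 : Idx.leaf ((a, n) : A × ℕ) ≤ p.fst := hp
    exact h1 rfl
  have h2 := D.xx_kk_le p a n hmem
  have h3 : ‖D.xx p (D.kk a (m p))‖ ≤ 1 / ((n : ℝ) + 1) * ‖m‖ := by
    have h4 : D.xx p (D.kk a (m p)) = ((D.xx p).comp (D.kk a)) (m p) := rfl
    rw [h4]
    refine (ContinuousLinearMap.le_opNorm _ _).trans ?_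
    exact mul_le_mul h2 (linf_apply_le m p) (norm_nonneg _) (by positivity)
  refine h3.trans_lt ?_
  rw [one_div, inv_mul_lt_iff₀ (by positivity)]
  exact hn0

theorem kk_add (a b : A) : D.kk (a + b) = D.kk a + D.kk b := by
  refine ContinuousLinearMap.ext fun z => ?_
  rw [add_apply, kk_apply, kk_apply, kk_apply, map_add, map_add, add_apply, add_smul]
  abel

theorem kk_smul (t : ℂ) (a : A) : D.kk (t • a) = t • D.kk a := by
  refine ContinuousLinearMap.ext fun z => ?_
  rw [smul_apply, kk_apply, kk_apply, map_smul, map_smul, smul_apply, smul_eq_mul, smul_sub,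
    mul_smul]

/-- The 1-cocycle, as a function: `m ↦ (x_p (a m_p) - c(a) x_p (m_p))_p = (x_p (kk a m_p))_p`. -/
def cocf (a : A) (m : Linf (Px A E) E) : Z0 (Px A E) :=
  mkZ0 (fun p => D.xx p (D.kk a (m p))) (linf_mem (D.coc_bound a m)) (D.coc_tendsto a m)

theorem ev_cocf (a : A) (m : Linf (Px A E) E) (p : Px A E) :
    ev p (D.cocf a m) = D.xx p (D.kk a (m p)) := rfl

/-- The 1-cocycle. -/
def coc : A →L[ℂ] Linf (Px A E) E →L[ℂ] Z0 (Px A E) :=
  LinearMap.mkContinuous₂
    (LinearMap.mk₂ ℂ D.cocf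
      (fun a b m => Z0_ext fun p => by
        rw [map_add, ev_cocf, ev_cocf, ev_cocf, kk_add, add_apply, map_add])
      (fun t a m => Z0_ext fun p => by
        rw [map_smul, ev_cocf, ev_cocf, kk_smul, smul_apply, map_smul])
      (fun a x y => Z0_ext fun p => by
        rw [map_add, ev_cocf, ev_cocf, ev_cocf, linf_add_apply, map_add, map_add])
      (fun t a x => Z0_ext fun p => by
        rw [map_smul, ev_cocf, ev_cocf, linf_smul_apply, map_smul, map_smul]))
    (12 * (‖D.aE‖ + ‖D.c‖))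
    (fun a x => by
      rw [LinearMap.mk₂_apply]
      exact norm_Z0_le (by positivity) (D.coc_bound a x))

theorem ev_coc (a : A) (m : Linf (Px A E) E) (p : Px A E) :
    ev p (D.coc a m) = D.xx p (D.kk a (m p)) := rfl

variable [CompleteSpace A] [IsScalarTower ℂ A A] [SMulCommClass ℂ A A]
  [CompleteSpace E]

/-- The scalar action on families of scalars. -/
def cact : A →L[ℂ] Z0 (Px A E) →L[ℂ] Z0 (Px A E) :=
  D.c.smulRight (ContinuousLinearMap.id ℂ (Z0 (Px A E)))

theorem cact_apply (a : A) (w : Z0 (Px A E)) : D.cact a w = D.c a • w := rfl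

theorem cact_mul (a b : A) (w : Z0 (Px A E)) : D.cact (a * b) w = D.cact a (D.cact b w) := by
  rw [cact_apply, cact_apply, cact_apply, D.c_mul, smul_smul]

/-- The module of families of scalars tending to zero. -/
def cMod : LeftMod A where
  carrier := Z0 (Px A E)
  act := D.cact
  act_mul := D.cact_mul

/-- What the vanishing condition gives. -/
def IsPsi (ψ : A →L[ℂ] Linf (Px A E) E →L[ℂ] PT A (Z0 (Px A E))) : Prop :=
  ∀ a b m, (PT.tmul a (D.coc b m) : PT A (Z0 (Px A E))) =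
    (CS.lact a (ψ b m) - PT.tmul a (CS.sig D.cact (ψ b m))) - ψ (a * b) m +
      ψ a (CS.lam (Px A E) D.aE b m)

private theorem ac_aux (x : E →L[ℂ] ℂ) (a b : A) (v : E) :
    x (D.kk (a * b) v) = D.c a • x (D.kk b v) + x (D.kk a (D.aE b v)) := by
  rw [← map_smul, ← map_add]
  congr 1
  rw [kk_apply, kk_apply, kk_apply, D.aE_mul, D.c_mul, smul_sub, smul_smul]
  abel

/-- Module `ac` (see `CMod.lean`, `NData.exists_psi`). -/
theorem exists_psi (hV : Vanish A) : ∃ ψ, D.IsPsi ψ := by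
  let D₂ : A →L[ℂ] Z0 (Px A E) →L[ℂ] PT A (Z0 (Px A E)) := PT.tmul
  have hD₁ : ∀ a b m, D.coc (a * b) m = D.cact a (D.coc b m) +
      D.coc a (CS.lam (Px A E) D.aE b m) := fun a b m => by
    refine Z0_ext fun p => ?_
    rw [map_add, cact_apply, map_smul, ev_coc, ev_coc, ev_coc, CS.lam_apply]
    exact ac_aux D (D.xx p) a b (m p)
  have hD₂ : ∀ a b n, D₂ (a * b) n =
      (CS.lact a (D₂ b n) - PT.tmul a (CS.sig D.cact (D₂ b n))) +
      D₂ a (D.cact b n) := fun a b n => by
    show PT.tmul (a * b) n = (CS.lact a (PT.tmul b n) - PT.tmul a (CS.sig D.cact (PT.tmul b n))) +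
      PT.tmul a (D.cact b n)
    rw [CS.lact_tmul, CS.sig_tmul, sub_add_cancel]
  obtain ⟨ψ', hψ⟩ := hV (CS.lMod (Px A E) D.aE D.aE_mul) D.cMod
    (CS.twMod D.cact D.cact_mul) D.coc D₂ hD₁ hD₂
  exact ⟨ψ', hψ⟩

end CData

end Data

/-! ### Fibres -/

section Fibre

open Classical

variable {A E : Type u} [NonUnitalNormedRing A] [NormedSpace ℂ A]
  [NormedAddCommGroup E] [NormedSpace ℂ E] [CompleteSpace A] [IsScalarTower ℂ A A]
  [SMulCommClass ℂ A A]

/-- Families concentrated at one point. -/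
def sgp (p : Px A E) : E →L[ℂ] Linf (Px A E) E :=
  lp.singleContinuousLinearMap ℂ (fun _ => E) ⊤ p

theorem sgp_apply_self (p : Px A E) (v : E) : sgp p v p = v :=
  lp.single_apply_self (E := fun _ : Px A E => E) ⊤ p v

theorem sgp_apply_ne {p p' : Px A E} (h : p' ≠ p) (v : E) : sgp p v p' = 0 :=
  lp.single_apply_ne (E := fun _ : Px A E => E) ⊤ p v h

variable (ψ : A →L[ℂ] Linf (Px A E) E →L[ℂ] PT A (Z0 (Px A E)))

/-- The fibre `Ψ_p (a) (y)` of `ψ`. -/
def Ps (p : Px A E) : A →L[ℂ] E →L[ℂ] A :=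
  (compL ℂ E (PT A (Z0 (Px A E))) A (PT.slice (ev p))).comp
    (((compL ℂ E (Linf (Px A E) E) (PT A (Z0 (Px A E)))).flip (sgp p)).comp ψ)

theorem Ps_apply (p : Px A E) (a : A) (y : E) :
    Ps ψ p a y = PT.slice (ev p) (ψ a (sgp p y)) := rfl

end Fibre

end Pool.Agent.CptDim
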