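import Pool.Agent.CptDim.Ros

/-!
# The game obtained from the vanishing condition (text 1)
-/

set_option autoImplicit false
set_option linter.unusedSectionVars false

noncomputable section

namespace Pool.Agent.CptDim

universe u v

open ContinuousLinearMap Filter Topology
open Pool.Agent.MP_a77edb_an
open scoped ENNReal

variable {A E : Type u} [NonUnitalNormedRing A] [NormedSpace ℂ A]
  [NormedAddCommGroup E] [NormedSpace ℂ E] [CompleteSpace A] [IsScalarTower ℂ A A]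
  [SMulCommClass ℂ A A] [CompleteSpace E]

namespace CData

variable (D : CData A E) {ψ : A →L[ℂ] Linf (Px A E) E →L[ℂ] PT A (Z0 (Px A E))}

/-- Admissible pairs. -/
def Good (D : CData A E) (p : Px A E) (y : E) : Prop := D.Adm p ∧ D.xx p y = 1

/-- Module `na`: (S) for `a = uf f`, `y_γ` and `a = s v₀`, `w₀`, and (5'). -/
theorem node_net (hψ : D.IsPsi ψ) (x : Gam A → (E →L[ℂ] ℂ)) (y : Gam A → E)
    (hy : ∀ γ, ‖y γ‖ ≤ 1) (hg : ∀ γ, D.Good ⟨γ, x γ⟩ (y γ)) (R : Finset ((E →L[ℂ] ℂ) × E))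
    {ε : ℝ} (hε : 0 < ε) (γ₀ : Gam A) :
    ∃ γ, γ₀ ≤ γ ∧ ∀ fz ∈ R, ‖fz.1 (fz.2 - D.qq ψ ⟨γ, x γ⟩ (y γ) fz.2)‖ < ε := by
  classical
  let a : Option ((E →L[ℂ] ℂ) × E) → A := fun o =>
    match o with
    | none => D.s D.v₀
    | some fz => D.uf fz.1
  let y' : Option ((E →L[ℂ] ℂ) × E) → Gam A → E := fun o γ =>
    match o with
    | none => D.w₀
    | some _ => y γ
  let k : (E →L[ℂ] ℂ) × E → ℝ := fun fz => ‖D.h₀‖ * ‖D.aE‖ * ‖fz.2‖ * (1 + ‖fz.1‖)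
  have hk : ∀ fz, 0 ≤ k fz := fun fz => by positivity
  have hK : 0 ≤ ∑ fz ∈ R, k fz := Finset.sum_nonneg fun fz _ => hk fz
  have hδ : 0 < ε / (∑ fz ∈ R, k fz + 1) := by positivity
  obtain ⟨γ, h0, h1⟩ := small x ψ (insert none (R.image some)) a y' (M := 1 + ‖D.w₀‖)
    (by positivity) (fun t γ => by
      match t with
      | none =>
        show ‖D.w₀‖ ≤ _
        linarith
      | some fz =>
        show ‖y γ‖ ≤ _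
        linarith [hy γ, norm_nonneg D.w₀]) hδ γ₀
  refine ⟨γ, h0, fun fz hfz => ?_⟩
  have h2 : ‖Ps ψ ⟨γ, x γ⟩ (D.s D.v₀) D.w₀‖ < ε / (∑ fz ∈ R, k fz + 1) :=
    h1 none (Finset.mem_insert_self _ _)
  have h3 : ‖Ps ψ ⟨γ, x γ⟩ (D.uf fz.1) (y γ)‖ < ε / (∑ fz ∈ R, k fz + 1) :=
    h1 (some fz) (Finset.mem_insert_of_mem (Finset.mem_image_of_mem _ hfz))
  have h4 := D.five hψ ⟨γ, x γ⟩ (y γ) fz.2 fz.1
  rw [(hg γ).2, one_mul, ← map_sub] at h4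
  rw [h4]
  have hb : ∀ b : A, ‖D.h₀ (D.aE b fz.2)‖ ≤ ‖D.h₀‖ * ‖D.aE‖ * ‖fz.2‖ * ‖b‖ := fun b => by
    refine (D.h₀.le_opNorm _).trans ?_
    calc ‖D.h₀‖ * ‖D.aE b fz.2‖ ≤ ‖D.h₀‖ * (‖D.aE‖ * ‖b‖ * ‖fz.2‖) :=
          mul_le_mul_of_nonneg_left (D.aE.le_opNorm₂ _ _) (norm_nonneg _)
      _ = _ := by ring
  have hf : ‖fz.1 (y γ)‖ ≤ ‖fz.1‖ :=
    (fz.1.le_opNorm _).trans (mul_le_of_le_one_right (norm_nonneg _) (hy γ))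
  have h5 : ‖D.h₀ (D.aE (Ps ψ ⟨γ, x γ⟩ (D.uf fz.1) (y γ)) fz.2) -
      fz.1 (y γ) * D.h₀ (D.aE (Ps ψ ⟨γ, x γ⟩ (D.s D.v₀) D.w₀) fz.2)‖ ≤
      k fz * (ε / (∑ fz ∈ R, k fz + 1)) := by
    refine (norm_sub_le _ _).trans ?_
    rw [norm_mul]
    have h6 : ‖D.h₀ (D.aE (Ps ψ ⟨γ, x γ⟩ (D.uf fz.1) (y γ)) fz.2)‖ ≤
        ‖D.h₀‖ * ‖D.aE‖ * ‖fz.2‖ * (ε / (∑ fz ∈ R, k fz + 1)) :=
      (hb _).trans (mul_le_mul_of_nonneg_left h3.le (by positivity))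
    have h7 : ‖D.h₀ (D.aE (Ps ψ ⟨γ, x γ⟩ (D.s D.v₀) D.w₀) fz.2)‖ ≤
        ‖D.h₀‖ * ‖D.aE‖ * ‖fz.2‖ * (ε / (∑ fz ∈ R, k fz + 1)) :=
      (hb _).trans (mul_le_mul_of_nonneg_left h2.le (by positivity))
    have h8 : ‖fz.1 (y γ)‖ * ‖D.h₀ (D.aE (Ps ψ ⟨γ, x γ⟩ (D.s D.v₀) D.w₀) fz.2)‖ ≤
        ‖fz.1‖ * (‖D.h₀‖ * ‖D.aE‖ * ‖fz.2‖ * (ε / (∑ fz ∈ R, k fz + 1))) :=
      mul_le_mul hf h7 (norm_nonneg _) (norm_nonneg _)
    have h9 : k fz * (ε / (∑ fz ∈ R, k fz + 1)) =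
        ‖D.h₀‖ * ‖D.aE‖ * ‖fz.2‖ * (ε / (∑ fz ∈ R, k fz + 1)) +
        ‖fz.1‖ * (‖D.h₀‖ * ‖D.aE‖ * ‖fz.2‖ * (ε / (∑ fz ∈ R, k fz + 1))) := by
      show ‖D.h₀‖ * ‖D.aE‖ * ‖fz.2‖ * (1 + ‖fz.1‖) * (ε / (∑ fz ∈ R, k fz + 1)) = _
      ring
    rw [h9]
    exact add_le_add h6 h8
  refine h5.trans_lt ?_
  have h10 : k fz ≤ ∑ fz ∈ R, k fz := Finset.single_le_sum (fun i _ => hk i) hfz
  calc k fz * (ε / (∑ fz ∈ R, k fz + 1)) ≤ (∑ fz ∈ R, k fz) * (ε / (∑ fz ∈ R, k fz + 1)) :=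
        mul_le_mul_of_nonneg_right h10 hδ.le
    _ < (∑ fz ∈ R, k fz + 1) * (ε / (∑ fz ∈ R, k fz + 1)) := by
        refine mul_lt_mul_of_pos_right ?_ hδ
        linarith
    _ = ε := by
        rw [mul_div_assoc', mul_div_cancel_left₀]
        positivity

/-- Module `nb`: (N2) along the net. -/
theorem exists_xy (Y : Set E) (hY : ∀ y ∈ Y, 1 / 2 ≤ ‖y‖ ∧ ‖y‖ ≤ 1)
    (hY' : ∀ Φ : Finset (E →L[ℂ] ℂ), ∃ y ∈ Y, ∀ f ∈ Φ, f y = 0) (γ : Gam A) :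
    ∃ (x : E →L[ℂ] ℂ) (y : E), y ∈ Y ∧ D.Good ⟨γ, x⟩ y := by
  obtain ⟨Φ, hΦ⟩ := n_two γ.lab_finite.toFinset (fun t : A × ℕ => D.kk t.1)
    (fun t _ => D.cpt t.1) (fun t => 1 / ((t.2 : ℝ) + 1)) (fun t _ => by positivity)
  obtain ⟨y, hy, hyΦ⟩ := hY' Φ
  obtain ⟨x, hx1, hx2, hx3⟩ := hΦ y hyΦ (hY y hy).1 (hY y hy).2
  have hadm : D.Adm ⟨γ, x⟩ := ⟨hx1, fun a n h => hx3 (a, n) (by
    rw [Set.Finite.mem_toFinset]
    exact h)⟩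
  refine ⟨x, y, hy, hadm, ?_⟩
  rw [D.xx_of_adm hadm]
  exact hx2

/-- Module `nc`, (NODE). -/
theorem node (hψ : D.IsPsi ψ) (Y : Set E) (hY : ∀ y ∈ Y, 1 / 2 ≤ ‖y‖ ∧ ‖y‖ ≤ 1)
    (hY' : ∀ Φ : Finset (E →L[ℂ] ℂ), ∃ y ∈ Y, ∀ f ∈ Φ, f y = 0) (F : Finset (Px A E))
    (R : Finset ((E →L[ℂ] ℂ) × E)) {ε : ℝ} (hε : 0 < ε) :
    ∃ p, p ∉ F ∧ ∃ y ∈ Y, D.Good p y ∧ ∀ fz ∈ R, ‖fz.1 (fz.2 - D.qq ψ p y fz.2)‖ < ε := by
  choose x y hy hg using D.exists_xy Y hY hY'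
  have h1 : ∀ᶠ γ : Gam A in atTop, ∀ p ∈ F, γ ≠ p.fst := by
    rw [Filter.eventually_all_finset]
    intro p _
    exact Idx.eventually_ne p.fst
  obtain ⟨γ₀, hγ₀⟩ := eventually_atTop.1 h1
  obtain ⟨γ, h2, h3⟩ := D.node_net hψ x y (fun γ => (hY _ (hy γ)).2) hg R hε γ₀
  exact ⟨⟨γ, x γ⟩, fun h => hγ₀ γ h2 _ h rfl, y γ, hy γ, hg γ, h3⟩

/-- Module `nd`, (IF). -/
theorem bdd (hψ : D.IsPsi ψ) : ∃ C₁ : ℝ, 0 ≤ C₁ ∧
    ∀ (J : Finset ℕ) (p : ℕ → Px A E) (y u : ℕ → E) (B : ℝ), Set.InjOn p J →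
    (∀ j ∈ J, D.Good (p j) (y j)) → (∀ j ∈ J, ‖y j‖ ≤ 1) →
    (∀ t : ℕ → ℤ, Sgn t → ‖∑ j ∈ J, t j • u j‖ ≤ B) →
    ‖∑ j ∈ J, (u j - D.qq ψ (p j) (y j) (u j))‖ ≤ C₁ * B := by
  refine ⟨(‖ψ‖ * |D.C| + ‖ψ‖ * ‖D.s D.v₀‖ * ‖D.w₀‖) * (2 * (‖D.h₀‖ * ‖D.aE‖)), by
    have : 0 ≤ ‖ψ‖ := ContinuousLinearMap.opNorm_nonneg ψ
    positivity, ?_⟩
  intro J p y u B hp hg hy hu
  have hψ0 : 0 ≤ ‖ψ‖ := ContinuousLinearMap.opNorm_nonneg ψ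
  have hB : 0 ≤ B := (norm_nonneg _).trans (hu (fun _ => 1) fun _ => Or.inl rfl)
  set w : ℝ := 2 * (‖D.h₀‖ * ‖D.aE‖ * B) with hw
  have hw0 : 0 ≤ w := by positivity
  let G : ℕ → (A →L[ℂ] ℂ) := fun j => D.h₀.comp (D.aE.flip (u j))
  have hG : ∀ j b, G j b = D.h₀ (D.aE b (u j)) := fun j b => rfl
  have hGs : ∀ b : A, ∑ j ∈ J, ‖G j b‖ ≤ w * ‖b‖ := fun b => by
    have h1 : ∑ j ∈ J, ‖G j b‖ ≤ 2 * (‖D.h₀‖ * ‖D.aE‖ * B * ‖b‖) :=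
      sum_norm_le_signs J (fun j => G j b) _ fun t ht => by
        have h2 : ∑ j ∈ J, t j • G j b = D.h₀ (D.aE b (∑ j ∈ J, t j • u j)) := by
          rw [map_sum, map_sum]
          refine Finset.sum_congr rfl fun j _ => ?_
          rw [map_zsmul, map_zsmul, hG]
        rw [h2]
        refine (D.h₀.le_opNorm _).trans ?_
        calc ‖D.h₀‖ * ‖D.aE b (∑ j ∈ J, t j • u j)‖ ≤ ‖D.h₀‖ * (‖D.aE‖ * ‖b‖ * B) := by
              refine mul_le_mul_of_nonneg_left ?_ (norm_nonneg _)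
              exact (D.aE.le_opNorm₂ _ _).trans
                (mul_le_mul_of_nonneg_left (hu t ht) (by positivity))
          _ = _ := by ring
    refine h1.trans (le_of_eq ?_)
    rw [hw]
    ring
  obtain ⟨f, hf1, hf2⟩ := exists_dual_vector'' ℂ (∑ j ∈ J, (u j - D.qq ψ (p j) (y j) (u j)))
  have hfin : f (∑ j ∈ J, (u j - D.qq ψ (p j) (y j) (u j))) =
      ∑ j ∈ J, G j (Ps ψ (p j) (D.uf f) (y j)) -
      ∑ j ∈ J, (f (y j) • G j) (Ps ψ (p j) (D.s D.v₀) D.w₀) := by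
    rw [map_sum, ← Finset.sum_sub_distrib]
    refine Finset.sum_congr rfl fun j hj => ?_
    have h4 := D.five hψ (p j) (y j) (u j) f
    rw [(hg j hj).2, one_mul, ← map_sub] at h4
    rw [h4]
    rfl
  have h1 : ‖∑ j ∈ J, G j (Ps ψ (p j) (D.uf f) (y j))‖ ≤ ‖ψ‖ * |D.C| * w := by
    refine (b_one ψ J p hp y zero_le_one hy G hw0 hGs (D.uf f)).trans ?_
    rw [mul_one]
    refine mul_le_mul_of_nonneg_right ?_ hw0
    refine mul_le_mul_of_nonneg_left ?_ hψ0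
    refine (D.norm_uf f).trans ?_
    calc D.C * ‖f‖ ≤ |D.C| * 1 :=
          mul_le_mul (le_abs_self _) hf1 (norm_nonneg _) (abs_nonneg _)
      _ = |D.C| := mul_one _
  have h2 : ‖∑ j ∈ J, (f (y j) • G j) (Ps ψ (p j) (D.s D.v₀) D.w₀)‖ ≤
      ‖ψ‖ * ‖D.s D.v₀‖ * ‖D.w₀‖ * w := by
    refine b_one ψ J p hp (fun _ => D.w₀) (norm_nonneg _) (fun _ _ => le_rfl)
      (fun j => f (y j) • G j) hw0 (fun b => ?_) (D.s D.v₀)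
    refine (Finset.sum_le_sum fun j hj => ?_).trans (hGs b)
    show ‖f (y j) • G j b‖ ≤ _
    rw [norm_smul]
    refine mul_le_of_le_one_left (norm_nonneg _) ?_
    refine (f.le_opNorm _).trans ?_
    calc ‖f‖ * ‖y j‖ ≤ 1 * 1 := mul_le_mul hf1 (hy j hj) (norm_nonneg _) zero_le_one
      _ = 1 := one_mul _
  have h3 : ‖f (∑ j ∈ J, (u j - D.qq ψ (p j) (y j) (u j)))‖ ≤
      ‖ψ‖ * |D.C| * w + ‖ψ‖ * ‖D.s D.v₀‖ * ‖D.w₀‖ * w := by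
    rw [hfin]
    exact (norm_sub_le _ _).trans (add_le_add h1 h2)
  have h4 : ‖f (∑ j ∈ J, (u j - D.qq ψ (p j) (y j) (u j)))‖ =
      ‖∑ j ∈ J, (u j - D.qq ψ (p j) (y j) (u j))‖ := by
    rw [hf2]
    simp
  rw [h4] at h3
  refine h3.trans (le_of_eq ?_)
  rw [hw]
  ring

/-- Module `ne`, (BETA). -/
theorem beta (ψ : A →L[ℂ] Linf (Px A E) E →L[ℂ] PT A (Z0 (Px A E))) : ∃ C₂ : ℝ, 0 ≤ C₂ ∧
    ∀ (J I : Finset ℕ) (p : ℕ → Px A E) (y z : ℕ → E) (g : ℕ → (E →L[ℂ] ℂ)) (α : ℕ → ℕ → ℝ)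
    (B S : ℝ), Set.InjOn p J →
    (∀ t : ℕ → ℤ, Sgn t → ‖∑ j ∈ J, t j • y j‖ ≤ B) →
    (∀ i ∈ I, ‖z i‖ ≤ 1) → (∀ i ∈ I, ‖g i‖ ≤ 1) →
    (∀ t : ℕ → ℤ, Sgn t → ∑ i ∈ I, |∑ j ∈ J, (t j : ℝ) * α i j| ≤ S) →
    ‖∑ j ∈ J, ∑ i ∈ I, (α i j : ℂ) * g i (D.qq ψ (p j) (y j) (z i))‖ ≤ C₂ * B * S := by
  refine ⟨‖ψ‖ * ‖D.s‖ * ‖D.w₀‖ * (2 * (‖D.aE‖ + ‖D.c‖)), by
    have : 0 ≤ ‖ψ‖ := ContinuousLinearMap.opNorm_nonneg ψ
    positivity, ?_⟩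
  intro J I p y z g α B S hp hy hz hg hα
  have hS : 0 ≤ S := (Finset.sum_nonneg fun _ _ => abs_nonneg _).trans
    (hα (fun _ => 1) fun _ => Or.inl rfl)
  let kkL : A →L[ℂ] E →L[ℂ] E := D.aE - D.c.smulRight (ContinuousLinearMap.id ℂ E)
  have hkk : ∀ b, kkL b = D.kk b := fun b => rfl
  let G : ℕ → (A →L[ℂ] ℂ) := fun j => ∑ i ∈ I, (α i j : ℂ) • ((g i).comp (kkL.flip (z i)))
  have hG : ∀ j b, G j b = ∑ i ∈ I, (α i j : ℂ) * g i (D.kk b (z i)) := fun j b => by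
    show (∑ i ∈ I, (α i j : ℂ) • ((g i).comp (kkL.flip (z i))) : A →L[ℂ] ℂ) b = _
    rw [sum_apply]
    rfl
  have hGs : ∀ b : A, ∑ j ∈ J, ‖G j b‖ ≤ (2 * ((‖D.aE‖ + ‖D.c‖) * S)) * ‖b‖ := fun b => by
    have h1 : ∑ j ∈ J, ‖G j b‖ ≤ 2 * ((‖D.aE‖ + ‖D.c‖) * ‖b‖ * S) :=
      sum_norm_le_signs J (fun j => G j b) _ fun t ht => by
        have h2 : ∑ j ∈ J, t j • G j b =
            ∑ i ∈ I, ((∑ j ∈ J, (t j : ℝ) * α i j : ℝ) : ℂ) * g i (D.kk b (z i)) := by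
          have e1 : ∀ j ∈ J, t j • G j b =
              ∑ i ∈ I, ((t j : ℂ) * (α i j : ℂ)) * g i (D.kk b (z i)) := fun j _ => by
            rw [hG, Finset.smul_sum]
            refine Finset.sum_congr rfl fun i _ => ?_
            rw [zsmul_eq_mul, mul_assoc]
          rw [Finset.sum_congr rfl e1, Finset.sum_comm]
          refine Finset.sum_congr rfl fun i _ => ?_
          rw [← Finset.sum_mul]
          congr 1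
          push_cast
          rfl
        rw [h2]
        refine (norm_sum_le _ _).trans ?_
        have e2 : ∀ i ∈ I, ‖((∑ j ∈ J, (t j : ℝ) * α i j : ℝ) : ℂ) * g i (D.kk b (z i))‖ ≤
            ((‖D.aE‖ + ‖D.c‖) * ‖b‖) * |∑ j ∈ J, (t j : ℝ) * α i j| := fun i hi => by
          rw [norm_mul, Complex.norm_real, Real.norm_eq_abs, mul_comm]
          refine mul_le_mul_of_nonneg_right ?_ (abs_nonneg _)
          refine ((g i).le_opNorm _).trans ?_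
          refine (mul_le_of_le_one_left (norm_nonneg _) (hg i hi)).trans ?_
          refine ((D.kk b).le_opNorm _).trans ?_
          exact (mul_le_of_le_one_right (norm_nonneg _) (hz i hi)).trans (D.norm_kk_le b)
        refine (Finset.sum_le_sum e2).trans ?_
        rw [← Finset.mul_sum]
        exact mul_le_mul_of_nonneg_left (hα t ht) (by positivity)
    refine h1.trans (le_of_eq ?_)
    ring
  have h3 := b_two ψ D.s D.w₀ J p hp y hy G (by positivity) hGs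
  have h4 : ∑ j ∈ J, ∑ i ∈ I, (α i j : ℂ) * g i (D.qq ψ (p j) (y j) (z i)) =
      ∑ j ∈ J, G j (Ps ψ (p j) (D.s (y j)) D.w₀) := by
    refine Finset.sum_congr rfl fun j _ => ?_
    rw [hG]
    rfl
  rw [h4]
  refine h3.trans (le_of_eq ?_)
  ring

/-- The vanishing condition gives a game. -/
theorem exists_game (D : CData A E) (hV : Vanish A) : Nonempty (Game E (Px A E)) := by
  obtain ⟨ψ, hψ⟩ := D.exists_psi hV
  obtain ⟨C₁, h1, h1'⟩ := D.bdd hψ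
  obtain ⟨C₂, h2, h2'⟩ := D.beta ψ
  exact ⟨{ q := fun p y => D.qq ψ p y
           good := D.Good
           cpt := fun p y => D.cpt _
           node := fun Y hY hY' F R ε hε => D.node hψ Y hY hY' F R hε
           C₁ := C₁
           C₁_nonneg := h1
           bdd := h1'
           C₂ := C₂
           C₂_nonneg := h2
           beta := fun J I p y z g α B S hp _ hy hz hg hα =>
             h2' J I p y z g α B S hp hy hz hg hα }⟩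

end CData

end Pool.Agent.CptDim
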