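import Pool.Agent.CptDim.Case2

/-!
# Case 1 (text 5)
-/

set_option autoImplicit false

noncomputable section

namespace Pool.Agent.CptDim

universe u v

open Filter Topology Finset

variable {E : Type u} [NormedAddCommGroup E] [NormedSpace ℂ E] {P : Type v}

/-- Module `qa`. -/
theorem c1_node (hE : ¬ FiniteDimensional ℂ E) (G : Game E P) (F : Finset P) (n : ℕ)
    (z : ℕ → E) (g : ℕ → (E →L[ℂ] ℂ)) (S : Finset E) (N m : ℕ) (hm : 1 ≤ m) {δ : ℝ}
    (hδ : 0 < δ) (hδ1 : δ ≤ 1 / 3) :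
    ∃ (p : P) (Z : E), p ∉ F ∧ G.good p (((Lam E m + δ : ℝ) : ℂ)⁻¹ • Z) ∧
      ‖((Lam E m + δ : ℝ) : ℂ)⁻¹ • Z‖ ≤ 1 ∧
      (∀ x ∈ S, ∀ k ≤ N, W k (x + Z) ≤ W (k + m) x + δ ∧ W k (x - Z) ≤ W (k + m) x + δ) ∧
      ∀ i < n, ‖g i (z i - G.q p (((Lam E m + δ : ℝ) : ℂ)⁻¹ • Z) (z i))‖ ≤ δ := by
  classical
  have hL1 : 1 ≤ Lam E m := one_le_Lam hE hm
  have hpos : 0 < Lam E m + δ := by linarith
  set μ : ℂ := ((Lam E m + δ : ℝ) : ℂ)⁻¹ with hμ
  have hμn : ‖μ‖ = (Lam E m + δ)⁻¹ := by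
    rw [hμ, norm_inv, Complex.norm_real, Real.norm_of_nonneg hpos.le]
  let T : E → Prop := fun Z => Lam E m - δ ≤ ‖Z‖ ∧ ‖Z‖ ≤ Lam E m + δ ∧
    ∀ x ∈ S, ∀ k ≤ N, W k (x + Z) ≤ W (k + m) x + δ ∧ W k (x - Z) ≤ W (k + m) x + δ
  obtain ⟨p, hp, y, hy, hgood, hR⟩ := G.node {y : E | ∃ Z, T Z ∧ y = μ • Z}
    (fun y hy => by
      obtain ⟨Z, hZ, rfl⟩ := hy
      rw [norm_smul, hμn, inv_mul_eq_div]
      constructor
      · rw [div_le_div_iff₀ (by norm_num) hpos]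
        have := hZ.1
        linarith
      · rw [div_le_one hpos]
        exact hZ.2.1)
    (fun Φ => by
      obtain ⟨Z, h1, h2, h3⟩ := block hE m (0 : E)
        ((S ×ˢ range (N + 1)) ∪ {((0 : E), 0)}) Φ hδ
      rw [zero_add] at h2
      refine ⟨μ • Z, ⟨Z, ⟨h2, ?_, fun x hx k hk => ?_⟩, rfl⟩, fun f hf => ?_⟩
      · have h4 := (h3 ((0 : E), 0) (Finset.mem_union_right _ (Finset.mem_singleton_self _))).1
        simp only [zero_add] at h4
        exact h4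
      · exact h3 (x, k) (Finset.mem_union_left _ (Finset.mem_product.2
          ⟨hx, Finset.mem_range.2 (by omega)⟩))
      · rw [map_smul, h1 f hf, smul_zero])
    F ((range n).image fun i => (g i, z i)) δ hδ
  obtain ⟨Z, hZ, rfl⟩ := hy
  refine ⟨p, Z, hp, hgood, ?_, hZ.2.2, fun i hi => ?_⟩
  · rw [norm_smul, hμn, inv_mul_eq_div, div_le_one hpos]
    exact hZ.2.1
  · exact (hR (g i, z i) (Finset.mem_image.2 ⟨i, Finset.mem_range.2 hi, rfl⟩)).le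

/-- The condition on the `n`-th choice: `F n = (p, Z, z, g)`. -/
private def qb_Cond (G : Game E P) (N m : ℕ) (δ : ℝ) (n : ℕ)
    (F : ℕ → P × E × E × (E →L[ℂ] ℂ)) : Prop :=
  (∀ j < n, (F n).1 ≠ (F j).1) ∧
    G.good (F n).1 (((Lam E m + δ : ℝ) : ℂ)⁻¹ • (F n).2.1) ∧
    ‖(F n).2.2.1‖ ≤ 1 ∧ ‖(F n).2.2.2‖ ≤ 1 ∧ (F n).2.2.2 (F n).2.2.1 = 1 ∧
    (∀ j ≤ n, ‖G.q (F j).1 (((Lam E m + δ : ℝ) : ℂ)⁻¹ • (F j).2.1) (F n).2.2.1‖ ≤ δ) ∧
    (∀ i < n, ‖(F i).2.2.2 ((F i).2.2.1 -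
      G.q (F n).1 (((Lam E m + δ : ℝ) : ℂ)⁻¹ • (F n).2.1) (F i).2.2.1)‖ ≤ δ) ∧
    (∀ x ∈ Sg (fun i => (F i).2.1) n, ∀ k ≤ N * m,
      W k (x + (F n).2.1) ≤ W (k + m) x + δ ∧ W k (x - (F n).2.1) ≤ W (k + m) x + δ)

private theorem qb_Cond_congr (G : Game E P) (N m : ℕ) (δ : ℝ) (n : ℕ)
    (F F' : ℕ → P × E × E × (E →L[ℂ] ℂ)) (h : ∀ i ≤ n, F i = F' i) (hF : qb_Cond G N m δ n F) :
    qb_Cond G N m δ n F' := by
  have hn := h n le_rfl
  obtain ⟨h1, h2, h3, h4, h5, h6, h7, h8⟩ := hF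
  have hS : Sg (fun i => (F i).2.1) n = Sg (fun i => (F' i).2.1) n :=
    Sg_congr _ _ _ fun j hj => by rw [h j hj.le]
  refine ⟨fun j hj => ?_, ?_, ?_, ?_, ?_, fun j hj => ?_, fun j hj => ?_, fun x hx k hk => ?_⟩
  · rw [← hn, ← h j hj.le]
    exact h1 j hj
  · rw [← hn]; exact h2
  · rw [← hn]; exact h3
  · rw [← hn]; exact h4
  · rw [← hn]; exact h5
  · rw [← hn, ← h j hj]
    exact h6 j hj
  · rw [← hn, ← h j hj.le]
    exact h7 j hj
  · rw [← hn]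
    exact h8 x (hS ▸ hx) k hk

theorem c1_build (hE : ¬ FiniteDimensional ℂ E) (G : Game E P) (N m : ℕ) (hm : 1 ≤ m) {δ : ℝ}
    (hδ : 0 < δ) (hδ1 : δ ≤ 1 / 3) :
    ∃ (p : ℕ → P) (y z : ℕ → E) (g : ℕ → (E →L[ℂ] ℂ)), Function.Injective p ∧
      (∀ n, G.good (p n) (y n)) ∧ (∀ n, ‖z n‖ ≤ 1) ∧ (∀ n, ‖g n‖ ≤ 1) ∧ (∀ n, g n (z n) = 1) ∧
      (∀ n j, j ≤ n → ‖G.q (p j) (y j) (z n)‖ ≤ δ) ∧
      (∀ n i, i < n → ‖g i (z i - G.q (p n) (y n) (z i))‖ ≤ δ) ∧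
      ∀ c : ℕ → ℤ, Tri c →
        ‖∑ j ∈ range N, c j • y j‖ ≤ (Lam E (N * m) + N * δ) / Lam E m := by
  classical
  set μ : ℂ := ((Lam E m + δ : ℝ) : ℂ)⁻¹ with hμ
  have hne : Nonempty (P × E × E × (E →L[ℂ] ℂ)) := by
    obtain ⟨p, Z, -⟩ := c1_node hE G ∅ 0 (fun _ => 0) (fun _ => 0) ∅ 0 m hm hδ hδ1
    exact ⟨(p, Z, 0, 0)⟩
  obtain ⟨F, hF⟩ := seq_build (α := P × E × E × (E →L[ℂ] ℂ))
    (fun n f a => qb_Cond G N m δ n (Function.update f n a))
    (fun n f f' a hff' hR => by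
      refine qb_Cond_congr G N m δ n _ _ (fun i hi => ?_) hR
      rcases Nat.lt_or_eq_of_le hi with h1 | h1
      · rw [Function.update_of_ne h1.ne, Function.update_of_ne h1.ne]
        exact hff' i h1
      · rw [h1, Function.update_self, Function.update_self])
    (fun n f _ => by
      obtain ⟨p, Z, hpF, hgood, hy, hW, hg⟩ := c1_node hE G ((range n).image fun j => (f j).1) n
        (fun j => (f j).2.2.1) (fun j => (f j).2.2.2) (Sg (fun i => (f i).2.1) n) (N * m) m hm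
        hδ hδ1
      let f1 : ℕ → P × E × E × (E →L[ℂ] ℂ) := Function.update f n (p, Z, 0, 0)
      obtain ⟨z, g, hz1, hz2, hz3, hz4⟩ := leaf_unit hE n
        (fun j => G.q (f1 j).1 (((Lam E m + δ : ℝ) : ℂ)⁻¹ • (f1 j).2.1))
        (fun j _ => G.cpt _ _) hδ
      refine ⟨(p, Z, z, g), ?_⟩
      have e1 : ∀ j, j ≠ n → Function.update f n (p, Z, z, g) j = f j := fun j hj =>
        Function.update_of_ne hj _ _
      have e2 : Function.update f n (p, Z, z, g) n = (p, Z, z, g) := Function.update_self _ _ _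
      have e3 : Sg (fun i => (Function.update f n (p, Z, z, g) i).2.1) n =
          Sg (fun i => (f i).2.1) n := Sg_congr _ _ _ fun j hj => by rw [e1 j hj.ne]
      refine ⟨fun j hj => ?_, ?_, ?_, ?_, ?_, fun j hj => ?_, fun i hi => ?_, ?_⟩
      · rw [e2, e1 j hj.ne]
        intro h
        exact hpF (Finset.mem_image.2 ⟨j, Finset.mem_range.2 hj, h.symm⟩)
      · rw [e2]; exact hgood
      · rw [e2]; exact hz1
      · rw [e2]; exact hz2
      · rw [e2]; exact hz3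
      · rw [e2]
        have h1 := hz4 j hj
        rcases Nat.lt_or_eq_of_le hj with h2 | h2
        · rw [e1 j h2.ne]
          have h3 : f1 j = f j := Function.update_of_ne h2.ne _ _
          simp only [h3] at h1
          exact h1
        · subst h2
          rw [e2]
          have h3 : f1 j = (p, Z, 0, 0) := Function.update_self _ _ _
          simp only [h3] at h1
          exact h1
      · rw [e2, e1 i hi.ne]
        exact hg i hi
      · rw [e2, e3]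
        exact hW)
  have hF' : ∀ n, qb_Cond G N m δ n F := fun n => by
    have h := hF n
    rwa [Function.update_eq_self] at h
  have hLm : 1 ≤ Lam E m := one_le_Lam hE hm
  refine ⟨fun n => (F n).1, fun n => μ • (F n).2.1, fun n => (F n).2.2.1, fun n => (F n).2.2.2,
    ?_, fun n => (hF' n).2.1, fun n => (hF' n).2.2.1, fun n => (hF' n).2.2.2.1,
    fun n => (hF' n).2.2.2.2.1, fun n j hj => (hF' n).2.2.2.2.2.1 j hj,
    fun n i hi => (hF' n).2.2.2.2.2.2.1 i hi, fun c hc => ?_⟩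
  · intro i j hij
    rcases Nat.lt_trichotomy i j with h | h | h
    · exact absurd hij.symm ((hF' j).1 i h)
    · exact h
    · exact absurd hij ((hF' i).1 j h)
  · have htr : Tracks m N δ (fun i => (F i).2.1) := fun i _ x hx k hk =>
      (hF' i).2.2.2.2.2.2.2 x hx k hk
    have h1 := tracks_bound hδ.le htr c hc
    have h2 : ∑ j ∈ range N, c j • (μ • (F j).2.1) = μ • ∑ j ∈ range N, c j • (F j).2.1 := by
      rw [Finset.smul_sum]
      exact Finset.sum_congr rfl fun j _ => smul_comm _ _ _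
    have h3 : ‖μ‖ = (Lam E m + δ)⁻¹ := by
      rw [hμ, norm_inv, Complex.norm_real, Real.norm_of_nonneg (by linarith)]
    have h4 : #{i ∈ range N | c i ≠ 0} ≤ N := (Finset.card_filter_le _ _).trans_eq
      (Finset.card_range N)
    have h5 : Lam E (m * #{i ∈ range N | c i ≠ 0}) ≤ Lam E (N * m) :=
      Lam_mono hE (by rw [mul_comm N m]; exact Nat.mul_le_mul_left m h4)
    have h6 : 0 ≤ Lam E (N * m) + N * δ := by
      have : 0 ≤ Lam E (N * m) := W_nonneg _ _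
      positivity
    show ‖∑ j ∈ range N, c j • (μ • (F j).2.1)‖ ≤ _
    rw [h2, norm_smul, h3]
    have h7 : (Lam E m + δ)⁻¹ ≤ (Lam E m)⁻¹ := inv_anti₀ (by linarith) (by linarith)
    calc (Lam E m + δ)⁻¹ * ‖∑ j ∈ range N, c j • (F j).2.1‖
        ≤ (Lam E m)⁻¹ * (Lam E (N * m) + N * δ) := by
          refine mul_le_mul h7 (h1.trans (by linarith)) (norm_nonneg _) ?_
          positivity
      _ = _ := by rw [div_eq_inv_mul]

/-- pointwise estimate -/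
private theorem qc_pt (q : E →L[ℂ] E) (z : E) (g : E →L[ℂ] ℂ) {δ : ℝ} (hg : ‖g‖ ≤ 1)
    (hgz : g z = 1) (e : ℤ) (he : e = 0 ∨ e = 1 ∨ e = -1) (h1 : e = 1 → ‖q z‖ ≤ δ)
    (h2 : e = -1 → ‖g (z - q z)‖ ≤ δ) :
    ‖(e : ℂ) * g (q z) - ((e : ℂ) - (|e| : ℤ)) / 2‖ ≤ (|e| : ℤ) * δ := by
  rcases he with rfl | rfl | rfl
  · simp
  · have h3 : ‖g (q z)‖ ≤ δ := by
      refine (g.le_opNorm _).trans ?_
      have := h1 rfl
      calc ‖g‖ * ‖q z‖ ≤ 1 * ‖q z‖ := by gcongr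
        _ ≤ δ := by rw [one_mul]; exact this
    simpa using h3
  · have h3 := h2 rfl
    rw [map_sub, hgz] at h3
    have e1 : (((-1 : ℤ) : ℂ)) * g (q z) - ((((-1 : ℤ) : ℂ)) - ((|(-1 : ℤ)| : ℤ) : ℂ)) / 2 =
        1 - g (q z) := by
      simp
      ring
    rw [e1]
    simpa using h3

/-- Module `qc`: the sum in text 5 is close to `- r / 2`. -/
theorem c1_sum (r : ℕ) (q : ℕ → (E →L[ℂ] E)) (z : ℕ → E) (g : ℕ → (E →L[ℂ] ℂ)) {δ : ℝ}
    (hδ : 0 ≤ δ) (hg : ∀ n, ‖g n‖ ≤ 1) (hgz : ∀ n, g n (z n) = 1)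
    (h1 : ∀ n j, j ≤ n → ‖q j (z n)‖ ≤ δ) (h2 : ∀ n i, i < n → ‖g i (z i - q n (z i))‖ ≤ δ) :
    (r : ℝ) / 2 - r * δ ≤
      ‖∑ j ∈ Ico 1 (2 ^ r), ∑ i ∈ range (2 ^ r),
        (((ee i j : ℝ) / 2 ^ r : ℝ) : ℂ) * g i (q j (z i))‖ := by
  set N : ℕ := 2 ^ r with hN
  have hNR : (N : ℝ) = 2 ^ r := by rw [hN]; push_cast; rfl
  have hNpos : (0 : ℝ) < N := by rw [hNR]; positivity
  have hNC : (N : ℂ) ≠ 0 := by
    have : N ≠ 0 := by rw [hN]; positivity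
    exact_mod_cast this
  set T : ℂ := ∑ j ∈ Ico 1 N, ∑ i ∈ range N, (ee i j : ℂ) * g i (q j (z i)) with hT
  have e1 : ∑ j ∈ Ico 1 N, ∑ i ∈ range N,
        (((ee i j : ℝ) / 2 ^ r : ℝ) : ℂ) * g i (q j (z i)) = T / N := by
    rw [hT, Finset.sum_div]
    refine Finset.sum_congr rfl fun j _ => ?_
    rw [Finset.sum_div]
    refine Finset.sum_congr rfl fun i _ => ?_
    have : ((N : ℕ) : ℂ) = 2 ^ r := by rw [hN]; push_cast; rfl
    rw [this]
    push_cast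
    ring
  have habs : ∑ j ∈ Ico 1 N, ∑ i ∈ range N, |ee i j| = (N : ℤ) * r := by
    rw [Finset.sum_comm]
    rw [Finset.sum_congr rfl fun i hi => sum_abs_ee r i (Finset.mem_range.1 hi)]
    rw [Finset.sum_const, Finset.card_range, nsmul_eq_mul]
  have hzero : ∑ j ∈ Ico 1 N, ∑ i ∈ range N, ee i j = 0 :=
    Finset.sum_eq_zero fun j hj => sum_ee r j (Finset.mem_Ico.1 hj).1 (Finset.mem_Ico.1 hj).2
  have e2 : ∑ j ∈ Ico 1 N, ∑ i ∈ range N, ((ee i j : ℂ) - (|ee i j| : ℤ)) / 2 =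
      -((N : ℂ) * r / 2) := by
    have h3 : ∑ j ∈ Ico 1 N, ∑ i ∈ range N, ((ee i j : ℂ) - (|ee i j| : ℤ)) / 2 =
        (((∑ j ∈ Ico 1 N, ∑ i ∈ range N, ee i j : ℤ) : ℂ) -
          ((∑ j ∈ Ico 1 N, ∑ i ∈ range N, |ee i j| : ℤ) : ℂ)) / 2 := by
      push_cast
      simp only [← Finset.sum_div, ← Finset.sum_sub_distrib]
    rw [h3, habs, hzero]
    push_cast
    ring
  have e3 : ‖T - -((N : ℂ) * r / 2)‖ ≤ N * r * δ := by
    rw [← e2, hT]
    simp only [← Finset.sum_sub_distrib]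
    refine (norm_sum_le _ _).trans ?_
    have h3 : ∀ j ∈ Ico 1 N, ‖∑ i ∈ range N, ((ee i j : ℂ) * g i (q j (z i)) -
        ((ee i j : ℂ) - (|ee i j| : ℤ)) / 2)‖ ≤ ∑ i ∈ range N, ((|ee i j| : ℤ) : ℝ) * δ := by
      intro j _
      refine (norm_sum_le _ _).trans (Finset.sum_le_sum fun i _ => ?_)
      exact qc_pt (q j) (z i) (g i) (hg i) (hgz i) (ee i j) (ee_cases i j)
        (fun h => h1 i j (ee_eq_one h)) (fun h => h2 j i (ee_eq_neg_one h))
    refine (Finset.sum_le_sum h3).trans (le_of_eq ?_)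
    simp only [← Finset.sum_mul]
    have h4 : (∑ j ∈ Ico 1 N, ∑ i ∈ range N, ((|ee i j| : ℤ) : ℝ)) =
        ((∑ j ∈ Ico 1 N, ∑ i ∈ range N, |ee i j| : ℤ) : ℝ) := by push_cast; rfl
    rw [h4, habs]
    push_cast
    ring
  rw [e1, norm_div, Complex.norm_natCast, le_div_iff₀ hNpos]
  have e4 : ‖(-((N : ℂ) * r / 2) : ℂ)‖ = N * r / 2 := by
    rw [norm_neg, norm_div, norm_mul, Complex.norm_natCast, Complex.norm_natCast]
    norm_num
  have e5 : ‖(-((N : ℂ) * r / 2) : ℂ)‖ ≤ ‖T‖ + ‖T - -((N : ℂ) * r / 2)‖ := by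
    have := norm_sub_norm_le (-((N : ℂ) * r / 2) : ℂ) T
    rw [norm_sub_rev] at this
    linarith
  rw [e4] at e5
  nlinarith

/-- Module `qd`. -/
theorem case_one (hE : ¬ FiniteDimensional ℂ E) (G : Game E P) (B : ℝ)
    (h : ∀ n : ℕ, ∃ m, 1 ≤ m ∧ Lam E (n * m) < B * Lam E m) : False := by
  -- choice of `r`
  obtain ⟨r, hr⟩ : ∃ r : ℕ, 1 ≤ r ∧ G.C₂ * (B + 1) * Real.sqrt r < (r : ℝ) / 4 := by
    set K : ℝ := |G.C₂ * (B + 1)| + 1 with hK
    obtain ⟨n, hn⟩ := exists_nat_gt (16 * K ^ 2)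
    have hn0 : (0 : ℝ) < n := lt_of_le_of_lt (by positivity) hn
    refine ⟨n, by exact_mod_cast hn0, ?_⟩
    have h1 : G.C₂ * (B + 1) ≤ K := by
      have := le_abs_self (G.C₂ * (B + 1))
      linarith
    have hs : 0 < Real.sqrt n := Real.sqrt_pos.2 hn0
    have hss : Real.sqrt n * Real.sqrt n = n := Real.mul_self_sqrt hn0.le
    have hKpos : 0 < K := by positivity
    have h2 : 4 * K < Real.sqrt n := by
      refine Real.lt_sqrt_of_sq_lt ?_
      calc (4 * K) ^ 2 = 16 * K ^ 2 := by ring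
        _ < (n : ℝ) := hn
    calc G.C₂ * (B + 1) * Real.sqrt n ≤ K * Real.sqrt n := by gcongr
      _ < (Real.sqrt n / 4) * Real.sqrt n := by
          have : K < Real.sqrt n / 4 := by linarith
          exact mul_lt_mul_of_pos_right this hs
      _ = (n : ℝ) / 4 := by rw [div_mul_eq_mul_div, hss]
  obtain ⟨hr1, hr2⟩ := hr
  obtain ⟨m, hm, hLm⟩ := h (2 ^ r)
  have hL1 : 1 ≤ Lam E m := one_le_Lam hE hm
  -- choice of `δ`
  set δ : ℝ := 1 / (8 * 2 ^ r) with hδdef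
  have hδ : 0 < δ := by positivity
  have h2r : (1 : ℝ) ≤ 2 ^ r := one_le_pow₀ (by norm_num)
  have hδ8 : δ ≤ 1 / 8 := by
    rw [hδdef]
    exact one_div_le_one_div_of_le (by norm_num) (by linarith)
  obtain ⟨p, y, z, g, hp, hgood, hz, hg, hgz, h1, h2, h3⟩ :=
    c1_build hE G (2 ^ r) m hm hδ (by linarith)
  have hsum := c1_sum r (fun j => G.q (p j) (y j)) z g hδ.le hg hgz h1 h2
  have hB : ∀ t : ℕ → ℤ, Sgn t → ‖∑ j ∈ Ico 1 (2 ^ r), t j • y j‖ ≤ B + 1 := by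
    intro t ht
    let c : ℕ → ℤ := fun j => if j = 0 then 0 else t j
    have hc : Tri c := fun j => by
      by_cases hj : j = 0
      · left; simp [c, hj]
      · right
        have : c j = t j := if_neg hj
        rw [this]
        exact ht j
    have e1 : ∑ j ∈ range (2 ^ r), c j • y j = ∑ j ∈ Ico 1 (2 ^ r), t j • y j := by
      have hpos : 0 < 2 ^ r := Nat.pos_of_ne_zero (by positivity)
      rw [Finset.range_eq_Ico, Finset.sum_eq_sum_Ico_succ_bot hpos]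
      have : c 0 • y 0 = 0 := by simp [c]
      rw [this, zero_add]
      refine Finset.sum_congr rfl fun j hj => ?_
      have hj0 : j ≠ 0 := by
        have := (Finset.mem_Ico.1 hj).1
        omega
      show c j • y j = t j • y j
      rw [show c j = t j from if_neg hj0]
    rw [← e1]
    refine (h3 c hc).trans ?_
    rw [div_le_iff₀ (by linarith)]
    have e2 : ((2 ^ r : ℕ) : ℝ) * δ ≤ 1 := by
      rw [hδdef]
      push_cast
      rw [mul_one_div, div_le_one (by positivity)]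
      linarith
    have e3 : Lam E (2 ^ r * m) + ((2 ^ r : ℕ) : ℝ) * δ ≤ B * Lam E m + 1 := by linarith
    nlinarith
  have hS : ∀ t : ℕ → ℤ, Sgn t → ∑ i ∈ range (2 ^ r),
      |∑ j ∈ Ico 1 (2 ^ r), (t j : ℝ) * ((ee i j : ℝ) / 2 ^ r)| ≤ Real.sqrt r := by
    intro t ht
    have e1 : ∀ i, |∑ j ∈ Ico 1 (2 ^ r), (t j : ℝ) * ((ee i j : ℝ) / 2 ^ r)| =
        |(hh (2 ^ r) t i : ℝ)| / 2 ^ r := by
      intro i
      have : ∑ j ∈ Ico 1 (2 ^ r), (t j : ℝ) * ((ee i j : ℝ) / 2 ^ r) =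
          (hh (2 ^ r) t i : ℝ) / 2 ^ r := by
        unfold hh
        push_cast
        rw [Finset.sum_div]
        exact Finset.sum_congr rfl fun j _ => by ring
      rw [this, abs_div, abs_of_pos (show (0 : ℝ) < 2 ^ r by positivity)]
    rw [Finset.sum_congr rfl fun i _ => e1 i, ← Finset.sum_div, div_le_iff₀ (by positivity)]
    have := sum_abs_hh_le r t ht
    linarith [mul_comm ((2 : ℝ) ^ r) (Real.sqrt r)]
  have hbeta := G.beta (Ico 1 (2 ^ r)) (range (2 ^ r)) p y z g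
    (fun i j => (ee i j : ℝ) / 2 ^ r) (B + 1) (Real.sqrt r) (hp.injOn) (fun j _ => hgood j) hB
    (fun i _ => hz i) (fun i _ => hg i) hS
  have h4 : (r : ℝ) / 2 - r * δ ≤ G.C₂ * (B + 1) * Real.sqrt r := hsum.trans hbeta
  have hr0 : (1 : ℝ) ≤ r := by exact_mod_cast hr1
  nlinarith

theorem no_game (hE : ¬ FiniteDimensional ℂ E) (G : Game E P) : False := by
  by_cases h : ∀ B : ℝ, ∃ n₀ : ℕ, ∀ m, 1 ≤ m → B * Lam E m ≤ Lam E (n₀ * m)
  · exact case_two hE G h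
  · push Not at h
    obtain ⟨B, hB⟩ := h
    exact case_one hE G B hB


end Pool.Agent.CptDim
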