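import Pool.Agent.CptDim.Seq

/-!
# Case 2 (text 4)
-/

set_option autoImplicit false

noncomputable section

namespace Pool.Agent.CptDim

universe u v

open Filter Topology Finset

variable {E : Type u} [NormedAddCommGroup E] [NormedSpace ℂ E]

/-- The vector removed at the node `n`. -/
def rem (q : ℕ → (E →L[ℂ] E)) (z : ℕ → E) (n : ℕ) : E :=
  ∑ i ∈ range n, if ee i n = -1 then z i - q n (z i) else 0

/-- The position after `n` stages. -/
def pos (β : ℂ) (q : ℕ → (E →L[ℂ] E)) (z : ℕ → E) (n : ℕ) : E :=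
  ∑ i ∈ range n, z i - β • ∑ j ∈ range n, rem q z j

/-- Module `pa`. -/
theorem pos_zero (β : ℂ) (q : ℕ → (E →L[ℂ] E)) (z : ℕ → E) : pos β q z 0 = 0 := by
  simp [pos]

/-- Module `pa`. -/
theorem pos_succ (β : ℂ) (q : ℕ → (E →L[ℂ] E)) (z : ℕ → E) (n : ℕ) :
    pos β q z (n + 1) = (pos β q z n - β • rem q z n) + z n := by
  rw [pos, pos, sum_range_succ, sum_range_succ, smul_add]
  abel

/-- Module `pa`. -/
theorem pos_congr (β : ℂ) (q q' : ℕ → (E →L[ℂ] E)) (z z' : ℕ → E) (n : ℕ)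
    (h : ∀ i < n, q i = q' i ∧ z i = z' i) : pos β q z n = pos β q' z' n := by
  have hrem : ∀ j < n, rem q z j = rem q' z' j := by
    intro j hj
    refine sum_congr rfl fun i hi => ?_
    rw [(h j hj).1, (h i ((mem_range.mp hi).trans hj)).2]
  rw [pos, pos]
  rw [sum_congr rfl fun i hi => (h i (mem_range.mp hi)).2,
    sum_congr rfl fun j hj => hrem j (mem_range.mp hj)]

variable {P : Type v}

/-- Module `pb`: the choice of a node (`W_lsc`, `G.node` with `Y = {y | 1 / 2 ≤ ‖y‖ ≤ 1}`). -/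
theorem c2_node (hE : ¬ FiniteDimensional ℂ E) (G : Game E P) (F : Finset P) (n : ℕ)
    (z : ℕ → E) (β : ℂ) (X : E) (k : ℕ) {δ : ℝ} (hδ : 0 < δ) :
    ∃ (p : P) (y : E), p ∉ F ∧ G.good p y ∧ ‖y‖ ≤ 1 ∧
      W k X - δ ≤ W k (X - β • ∑ i ∈ range n,
        if ee i n = -1 then z i - G.q p y (z i) else 0) := by
  obtain ⟨f, η, hη, hf⟩ := W_lsc hE k X hδ
  set Zs : E := β • ∑ i ∈ range n, (if ee i n = -1 then z i else 0) with hZs
  obtain ⟨p, hp, y, hy, hgood, hR⟩ := G.node {y : E | 1 / 2 ≤ ‖y‖ ∧ ‖y‖ ≤ 1} (fun y hy => hy)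
    (fun Φ => by
      obtain ⟨z, hz, hz'⟩ := exists_unit_ker hE Φ
      exact ⟨z, ⟨by rw [hz]; norm_num, hz.le⟩, hz'⟩) F {(f, Zs)} η hη
  refine ⟨p, y, hp, hgood, hy.2, ?_⟩
  have h1 := hR (f, Zs) (Finset.mem_singleton_self _)
  have h2 : β • ∑ i ∈ range n, (if ee i n = -1 then z i - G.q p y (z i) else 0) =
      Zs - G.q p y Zs := by
    rw [hZs, map_smul, ← smul_sub, map_sum, ← Finset.sum_sub_distrib]
    congr 1
    refine Finset.sum_congr rfl fun i _ => ?_
    split_ifs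
    · rfl
    · rw [map_zero, sub_zero]
  rw [h2]
  exact hf _ h1


/-- The condition on the `n`-th choice. -/
private def pc_Cond (G : Game E P) (N : ℕ) (β : ℂ) (δ : ℝ) (n : ℕ) (F : ℕ → P × E × E) : Prop :=
  (∀ j < n, (F n).1 ≠ (F j).1) ∧ G.good (F n).1 (F n).2.1 ∧ ‖(F n).2.1‖ ≤ 1 ∧
    ‖(F n).2.2‖ ≤ 1 ∧ (∀ j ≤ n, ‖G.q (F j).1 (F j).2.1 (F n).2.2‖ ≤ δ) ∧
    (∀ x ∈ Sg (fun i => (F i).2.2) n, ∀ k ≤ N * 1,
      W k (x + (F n).2.2) ≤ W (k + 1) x + δ ∧ W k (x - (F n).2.2) ≤ W (k + 1) x + δ) ∧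
    (n < N → W (N - n) (pos β (fun j => G.q (F j).1 (F j).2.1) (fun j => (F j).2.2) n) - 2 * δ ≤
      W (N - (n + 1)) (pos β (fun j => G.q (F j).1 (F j).2.1) (fun j => (F j).2.2) (n + 1)))

private theorem pc_Cond_congr (G : Game E P) (N : ℕ) (β : ℂ) (δ : ℝ) (n : ℕ)
    (F F' : ℕ → P × E × E) (h : ∀ i ≤ n, F i = F' i) (hF : pc_Cond G N β δ n F) :
    pc_Cond G N β δ n F' := by
  have hn := h n le_rfl
  obtain ⟨h1, h2, h3, h4, h5, h6, h7⟩ := hF
  have hS : Sg (fun i => (F i).2.2) n = Sg (fun i => (F' i).2.2) n :=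
    Sg_congr _ _ _ fun j hj => by rw [h j hj.le]
  have hp : ∀ m ≤ n + 1, pos β (fun j => G.q (F j).1 (F j).2.1) (fun j => (F j).2.2) m =
      pos β (fun j => G.q (F' j).1 (F' j).2.1) (fun j => (F' j).2.2) m := fun m hm =>
    pos_congr _ _ _ _ _ _ fun i hi => by
      rw [h i (by omega)]
      exact ⟨rfl, rfl⟩
  refine ⟨fun j hj => ?_, ?_, ?_, ?_, fun j hj => ?_, fun x hx k hk => ?_, fun hN => ?_⟩
  · rw [← hn, ← h j hj.le]
    exact h1 j hj
  · rw [← hn]; exact h2
  · rw [← hn]; exact h3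
  · rw [← hn]; exact h4
  · rw [← hn, ← h j hj]
    exact h5 j hj
  · rw [← hn]
    exact h6 x (hS ▸ hx) k hk
  · rw [← hp n (Nat.le_succ n), ← hp (n + 1) le_rfl]
    exact h7 hN

theorem c2_build (hE : ¬ FiniteDimensional ℂ E) (G : Game E P) (N : ℕ) (β : ℂ) {δ : ℝ}
    (hδ : 0 < δ) :
    ∃ (p : ℕ → P) (y z : ℕ → E), Function.Injective p ∧ (∀ n, G.good (p n) (y n)) ∧
      (∀ n, ‖y n‖ ≤ 1) ∧ (∀ n, ‖z n‖ ≤ 1) ∧
      (∀ n j, j ≤ n → ‖G.q (p j) (y j) (z n)‖ ≤ δ) ∧ Tracks 1 N δ z ∧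
      ∀ n ≤ N, Lam E N - 2 * n * δ ≤ W (N - n) (pos β (fun j => G.q (p j) (y j)) z n) := by
  classical
  have hne : Nonempty (P × E × E) := by
    obtain ⟨p, y, -⟩ := c2_node hE G ∅ 0 (fun _ => 0) 0 0 0 hδ
    exact ⟨(p, y, 0)⟩
  obtain ⟨F, hF⟩ := seq_build (α := P × E × E)
    (fun n f a => pc_Cond G N β δ n (Function.update f n a))
    (fun n f f' a hff' hR => by
      refine pc_Cond_congr G N β δ n _ _ (fun i hi => ?_) hR
      rcases Nat.lt_or_eq_of_le hi with h1 | h1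
      · rw [Function.update_of_ne h1.ne, Function.update_of_ne h1.ne]
        exact hff' i h1
      · rw [h1, Function.update_self, Function.update_self])
    (fun n f _ => by
      -- the node
      obtain ⟨p, y, hpF, hgood, hy, hW⟩ := c2_node hE G ((range n).image fun j => (f j).1) n
        (fun j => (f j).2.2) β
        (pos β (fun j => G.q (f j).1 (f j).2.1) (fun j => (f j).2.2) n) (N - n) hδ
      -- the position after the node
      set X : E := pos β (fun j => G.q (f j).1 (f j).2.1) (fun j => (f j).2.2) n -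
        β • ∑ i ∈ range n, (if ee i n = -1 then (f i).2.2 - G.q p y (f i).2.2 else 0) with hX
      let f1 : ℕ → P × E × E := Function.update f n (p, y, 0)
      obtain ⟨z, hz1, hz2, hz3, hz4⟩ := leaf hE n (fun j => G.q (f1 j).1 (f1 j).2.1)
        (fun j _ => G.cpt _ _) (Sg (fun i => (f i).2.2) n) (N * 1) (N - (n + 1)) X hδ
      refine ⟨(p, y, z), ?_⟩
      have e1 : ∀ j, j ≠ n → Function.update f n (p, y, z) j = f j := fun j hj =>
        Function.update_of_ne hj _ _
      have e2 : Function.update f n (p, y, z) n = (p, y, z) := Function.update_self _ _ _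
      have e3 : Sg (fun i => (Function.update f n (p, y, z) i).2.2) n =
          Sg (fun i => (f i).2.2) n := Sg_congr _ _ _ fun j hj => by rw [e1 j hj.ne]
      have e4 : pos β (fun j => G.q (Function.update f n (p, y, z) j).1
          (Function.update f n (p, y, z) j).2.1)
          (fun j => (Function.update f n (p, y, z) j).2.2) n =
          pos β (fun j => G.q (f j).1 (f j).2.1) (fun j => (f j).2.2) n :=
        pos_congr _ _ _ _ _ _ fun i hi => by
          rw [e1 i hi.ne]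
          exact ⟨rfl, rfl⟩
      have e5 : rem (fun j => G.q (Function.update f n (p, y, z) j).1
          (Function.update f n (p, y, z) j).2.1)
          (fun j => (Function.update f n (p, y, z) j).2.2) n =
          ∑ i ∈ range n, (if ee i n = -1 then (f i).2.2 - G.q p y (f i).2.2 else 0) := by
        unfold rem
        refine Finset.sum_congr rfl fun i hi => ?_
        dsimp only
        rw [e1 i (Finset.mem_range.1 hi).ne, e2]
      refine ⟨fun j hj => ?_, ?_, ?_, ?_, fun j hj => ?_, ?_, fun hN => ?_⟩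
      · rw [e2, e1 j hj.ne]
        intro h
        exact hpF (Finset.mem_image.2 ⟨j, Finset.mem_range.2 hj, h.symm⟩)
      · rw [e2]; exact hgood
      · rw [e2]; exact hy
      · rw [e2]; exact hz1
      · rw [e2]
        have h1 := hz2 j hj
        rcases Nat.lt_or_eq_of_le hj with h2 | h2
        · rw [e1 j h2.ne]
          have h3 : f1 j = f j := Function.update_of_ne h2.ne _ _
          simp only [h3] at h1
          exact h1
        · subst h2
          rw [e2]
          have h3 : f1 j = (p, y, 0) := Function.update_self _ _ _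
          simp only [h3] at h1
          exact h1
      · rw [e2, e3]
        exact hz3
      · rw [pos_succ, e4, e5, e2, ← hX]
        have h1 : N - n = N - (n + 1) + 1 := by omega
        have h2 := hz4
        rw [← h1] at h2
        have h3 := hW
        linarith)
  have hF' : ∀ n, pc_Cond G N β δ n F := fun n => by
    have h := hF n
    rwa [Function.update_eq_self] at h
  refine ⟨fun n => (F n).1, fun n => (F n).2.1, fun n => (F n).2.2, ?_, fun n => (hF' n).2.1,
    fun n => (hF' n).2.2.1, fun n => (hF' n).2.2.2.1, fun n j hj => (hF' n).2.2.2.2.1 j hj,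
    fun n _ x hx k hk => (hF' n).2.2.2.2.2.1 x hx k hk, ?_⟩
  · intro i j hij
    rcases Nat.lt_trichotomy i j with h | h | h
    · exact absurd hij.symm ((hF' j).1 i h)
    · exact h
    · exact absurd hij ((hF' i).1 j h)
  · intro n
    induction n with
    | zero =>
      intro _
      rw [pos_zero]
      show Lam E N - 2 * ((0 : ℕ) : ℝ) * δ ≤ W (N - 0) 0
      rw [Nat.sub_zero, Nat.cast_zero, mul_zero, zero_mul, sub_zero]
      exact le_rfl
    | succ n ih =>
      intro hn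
      have h1 := ih (by omega)
      have h2 := (hF' n).2.2.2.2.2.2 (by omega)
      push_cast
      linarith

/-- the sum over the right intervals, pointwise -/
private theorem pd_pt (x y : E) (e : ℤ) (he : e = 0 ∨ e = 1 ∨ e = -1) :
    (2 : ℤ) • (e • (x - y)) = (|e| + e) • x - (2 : ℤ) • (if e = 1 then y else 0) -
      (2 : ℤ) • (if e = -1 then x - y else 0) := by
  rcases he with rfl | rfl | rfl
  · simp
  · simp
    rw [smul_sub]
  · simp
    rw [← smul_neg, neg_sub]

private theorem pd_rem (q : ℕ → (E →L[ℂ] E)) (z : ℕ → E) (N j : ℕ) (hj : j < N) :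
    rem q z j = ∑ i ∈ range N, (if ee i j = -1 then z i - q j (z i) else 0) := by
  unfold rem
  refine Finset.sum_subset (Finset.range_mono hj.le) fun i _ hi => ?_
  rw [if_neg]
  intro h
  exact hi (Finset.mem_range.2 (ee_eq_neg_one h))

/-- Module `pd`: the algebraic identity, text 4 (uses `sum_abs_ee`). -/
theorem c2_alg (r : ℕ) (hr : 1 ≤ r) (q : ℕ → (E →L[ℂ] E)) (z : ℕ → E) {δ : ℝ} (hδ : 0 ≤ δ)
    (hq : ∀ i j, j ≤ i → ‖q j (z i)‖ ≤ δ) :
    r * ‖pos (2 / r) q z (2 ^ r)‖ ≤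
      2 * ‖∑ j ∈ Ico 1 (2 ^ r), (uu (2 ^ r) z j - q j (uu (2 ^ r) z j))‖ +
      ‖∑ i ∈ range (2 ^ r), hh (2 ^ r) (fun _ => 1) i • z i‖ + 2 * (2 ^ r * 2 ^ r * δ) := by
  set N : ℕ := 2 ^ r with hN
  have hNpos : 0 < N := Nat.two_pow_pos r
  set U : E := ∑ j ∈ Ico 1 N, (uu N z j - q j (uu N z j)) with hU
  set H : E := ∑ i ∈ range N, hh N (fun _ => 1) i • z i with hH
  set R : E := ∑ j ∈ Ico 1 N, ∑ i ∈ range N, (if ee i j = 1 then q j (z i) else 0) with hR
  have h1 : ∀ j, uu N z j - q j (uu N z j) = ∑ i ∈ range N, ee i j • (z i - q j (z i)) := by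
    intro j
    unfold uu
    rw [map_sum, ← Finset.sum_sub_distrib]
    refine Finset.sum_congr rfl fun i _ => ?_
    rw [map_zsmul, smul_sub]
  -- the main identity
  have h2 : (2 : ℤ) • U = (r : ℤ) • ∑ i ∈ range N, z i + H - (2 : ℤ) • R -
      (2 : ℤ) • ∑ j ∈ range N, rem q z j := by
    have e1 : (2 : ℤ) • U = ∑ j ∈ Ico 1 N, ∑ i ∈ range N, ((|ee i j| + ee i j) • z i -
        (2 : ℤ) • (if ee i j = 1 then q j (z i) else 0) -
        (2 : ℤ) • (if ee i j = -1 then z i - q j (z i) else 0)) := by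
      rw [hU, Finset.smul_sum]
      refine Finset.sum_congr rfl fun j _ => ?_
      rw [h1, Finset.smul_sum]
      exact Finset.sum_congr rfl fun i _ => pd_pt _ _ _ (ee_cases i j)
    have e2 : ∑ j ∈ Ico 1 N, ∑ i ∈ range N, (|ee i j| + ee i j) • z i =
        (r : ℤ) • ∑ i ∈ range N, z i + H := by
      rw [Finset.sum_comm, hH, Finset.smul_sum, ← Finset.sum_add_distrib]
      refine Finset.sum_congr rfl fun i hi => ?_
      rw [← Finset.sum_smul, Finset.sum_add_distrib, sum_abs_ee r i (Finset.mem_range.1 hi),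
        add_smul]
      congr 2
      unfold hh
      exact Finset.sum_congr rfl fun j _ => (one_mul _).symm
    have e3 : ∑ j ∈ Ico 1 N, ∑ i ∈ range N, (if ee i j = -1 then z i - q j (z i) else 0) =
        ∑ j ∈ range N, rem q z j := by
      rw [Finset.range_eq_Ico N, Finset.sum_eq_sum_Ico_succ_bot hNpos (fun j => rem q z j)]
      have : rem q z 0 = 0 := by simp [rem]
      rw [this, zero_add, ← Finset.range_eq_Ico]
      exact Finset.sum_congr rfl fun j hj => (pd_rem q z N j (Finset.mem_Ico.1 hj).2).symm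
    rw [e1, ← e2, ← e3, hR]
    simp only [Finset.sum_sub_distrib, Finset.smul_sum]
  have hr0 : (r : ℂ) ≠ 0 := by
    have : r ≠ 0 := by omega
    exact_mod_cast this
  have h3 : (r : ℂ) • pos (2 / r) q z N = (2 : ℤ) • U - H + (2 : ℤ) • R := by
    have e1 : (r : ℂ) • pos (2 / r) q z N = (r : ℤ) • ∑ i ∈ range N, z i -
        (2 : ℤ) • ∑ j ∈ range N, rem q z j := by
      unfold pos
      rw [smul_sub, smul_smul, mul_div_cancel₀ _ hr0]
      congr 1
      · rw [← Int.cast_smul_eq_zsmul ℂ]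
        simp
      · rw [← Int.cast_smul_eq_zsmul ℂ]
        simp
    rw [e1, h2]
    abel
  have h4 : ‖R‖ ≤ (2 : ℝ) ^ r * 2 ^ r * δ := by
    rw [hR]
    have e1 : ∀ j ∈ Ico 1 N, ‖∑ i ∈ range N, (if ee i j = 1 then q j (z i) else 0)‖ ≤ N * δ := by
      intro j _
      refine (norm_sum_le _ _).trans ?_
      have : ∀ i ∈ range N, ‖(if ee i j = 1 then q j (z i) else 0 : E)‖ ≤ δ := by
        intro i _
        split_ifs with h
        · exact hq i j (ee_eq_one h)
        · rw [norm_zero]; exact hδ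
      refine (Finset.sum_le_sum this).trans ?_
      rw [Finset.sum_const, Finset.card_range, nsmul_eq_mul]
    refine (norm_sum_le _ _).trans ((Finset.sum_le_sum e1).trans ?_)
    rw [Finset.sum_const, Nat.card_Ico, nsmul_eq_mul]
    have e2 : ((N - 1 : ℕ) : ℝ) ≤ N := by exact_mod_cast Nat.sub_le N 1
    have e3 : (0 : ℝ) ≤ N * δ := by positivity
    have e4 : (N : ℝ) = 2 ^ r := by rw [hN]; push_cast; rfl
    calc ((N - 1 : ℕ) : ℝ) * (N * δ) ≤ N * (N * δ) := mul_le_mul_of_nonneg_right e2 e3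
      _ = 2 ^ r * 2 ^ r * δ := by rw [e4]; ring
  have h5 : (r : ℝ) * ‖pos (2 / r) q z N‖ = ‖(r : ℂ) • pos (2 / r) q z N‖ := by
    rw [norm_smul, Complex.norm_natCast]
  rw [h5, h3]
  have h6 : ‖(2 : ℤ) • U‖ ≤ 2 * ‖U‖ := by
    rw [two_zsmul]
    refine (norm_add_le _ _).trans ?_
    linarith
  have h7 : ‖(2 : ℤ) • R‖ ≤ 2 * ‖R‖ := by
    rw [two_zsmul]
    refine (norm_add_le _ _).trans ?_
    linarith
  calc ‖(2 : ℤ) • U - H + (2 : ℤ) • R‖ ≤ ‖(2 : ℤ) • U - H‖ + ‖(2 : ℤ) • R‖ := norm_add_le _ _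
    _ ≤ (‖(2 : ℤ) • U‖ + ‖H‖) + ‖(2 : ℤ) • R‖ := by gcongr; exact norm_sub_le _ _
    _ ≤ _ := by linarith

/-- Module `pe`: the conclusion of Case 2. -/
theorem case_two (hE : ¬ FiniteDimensional ℂ E) (G : Game E P)
    (h : ∀ B : ℝ, ∃ n₀ : ℕ, ∀ m, 1 ≤ m → B * Lam E m ≤ Lam E (n₀ * m)) : False := by
  have hC := G.C₁_nonneg
  set K : ℝ := 1 / (2 * (2 * G.C₁ + 1)) with hK
  have hKpos : 0 < K := by positivity
  obtain ⟨r₀, hr₀⟩ := growth (Lam E) Lam_zero (Lam_mono hE) h hKpos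
  set r : ℕ := r₀ + 1 with hr
  have hr1 : 1 ≤ r := by omega
  have hrR : (1 : ℝ) ≤ r := by exact_mod_cast hr1
  set N : ℕ := 2 ^ r with hN
  have hN1 : 1 ≤ N := Nat.one_le_two_pow
  have hNR : (1 : ℝ) ≤ N := by exact_mod_cast hN1
  have hL1 : 1 ≤ Lam E N := one_le_Lam hE hN1
  set D : ℝ := (2 * G.C₁ + 1) * (r * N) + 2 * (N * N) + 2 * (r * N) with hD
  have hDpos : 0 < D := by positivity
  set δ : ℝ := 1 / (4 * D) with hδdef
  have hδ : 0 < δ := by positivity
  obtain ⟨p, y, z, hp, hgood, hy, hz, h1, htr, hpos⟩ := c2_build hE G N (2 / r : ℂ) hδ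
  -- the bound for the sums with coefficients `hh`
  have hM : ∀ t : ℕ → ℤ, Sgn t → ‖∑ i ∈ range N, hh N t i • z i‖ ≤
      K * r * Lam E N + r * (N * δ) := by
    intro t ht
    have h2 := sum_hh_le (E := E) z r t ht (K := K) hδ.le htr (fun c hc hc' =>
      hr₀ r (by omega) N c hc (fun s hs => hc' s hs))
    rw [hN]
    push_cast
    exact h2
  have hbdd := G.bdd (Ico 1 N) p y (uu N z) (K * r * Lam E N + r * (N * δ)) hp.injOn
    (fun j _ => hgood j) (fun j _ => hy j) (fun t ht => by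
      rw [sum_uu]
      exact hM t ht)
  have halg := c2_alg r hr1 (fun j => G.q (p j) (y j)) z hδ.le (fun i j hij => h1 i j hij)
  have hN' : Lam E N - 2 * N * δ ≤ ‖pos (2 / r : ℂ) (fun j => G.q (p j) (y j)) z N‖ := by
    have h2 := hpos N le_rfl
    rw [Nat.sub_self] at h2
    exact h2
  have hone := hM (fun _ => 1) (fun _ => Or.inl rfl)
  have hrN : (2 : ℝ) ^ r = N := by rw [hN]; push_cast; rfl
  rw [← hN, hrN] at halg
  have h5 : (r : ℝ) * (Lam E N - 2 * N * δ) ≤
      2 * (G.C₁ * (K * r * Lam E N + r * (N * δ))) + (K * r * Lam E N + r * (N * δ)) +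
        2 * (N * N * δ) := by
    have h6 : (r : ℝ) * (Lam E N - 2 * N * δ) ≤
        r * ‖pos (2 / r : ℂ) (fun j => G.q (p j) (y j)) z N‖ :=
      mul_le_mul_of_nonneg_left hN' (by positivity)
    linarith
  have h7 : (2 * G.C₁ + 1) * K = 1 / 2 := by
    rw [hK]
    field_simp
  have h8 : (2 * G.C₁ + 1) * (K * r * Lam E N) = r * Lam E N / 2 := by
    calc (2 * G.C₁ + 1) * (K * r * Lam E N) = ((2 * G.C₁ + 1) * K) * (r * Lam E N) := by ring
      _ = r * Lam E N / 2 := by rw [h7]; ring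
  have h9 : D * δ = 1 / 4 := by
    rw [hδdef]
    field_simp
  have h10 : r * Lam E N / 2 ≤ D * δ := by
    rw [hD]
    nlinarith
  rw [h9] at h10
  nlinarith

end Pool.Agent.CptDim
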