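import Pool.Agent.CptDim.Defs

/-!
# Dyadic combinatorics (text 3)
-/

set_option autoImplicit false

noncomputable section

namespace Pool.Agent.CptDim

open Finset

/-- Module `ka`. -/
theorem ee_eq_one {i j : ℕ} (h : ee i j = 1) : j ≤ i := by
  unfold ee at h
  split_ifs at h with h1 h2
  · exact h1.1
  · exact absurd h (by norm_num)

/-- Module `ka`. -/
theorem ee_eq_neg_one {i j : ℕ} (h : ee i j = -1) : i < j := by
  unfold ee at h
  split_ifs at h with h1 h2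
  · exact h2.1

/-- Module `ka`. -/
theorem ee_cases (i j : ℕ) : ee i j = 0 ∨ ee i j = 1 ∨ ee i j = -1 := by
  unfold ee
  split_ifs
  · exact Or.inr (Or.inl rfl)
  · exact Or.inr (Or.inr rfl)
  · exact Or.inl rfl

private theorem ka_val (r j : ℕ) (h1 : 1 ≤ j) (h2 : j < 2 ^ r) : padicValNat 2 j < r := by
  have h3 : 2 ^ padicValNat 2 j ∣ j := pow_padicValNat_dvd
  have h4 : 2 ^ padicValNat 2 j ≤ j := Nat.le_of_dvd h1 h3
  exact (Nat.pow_lt_pow_iff_right (by norm_num : 1 < 2)).1 (h4.trans_lt h2)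

/-- Module `ka`. -/
theorem lv_add (r j : ℕ) (h1 : 1 ≤ j) (h2 : j < 2 ^ r) : lv (2 ^ r + j) = lv j := by
  unfold lv
  have hv := ka_val r j h1 h2
  congr 1
  have h3 : 2 ^ padicValNat 2 j ∣ 2 ^ r + j :=
    dvd_add (pow_dvd_pow 2 hv.le) pow_padicValNat_dvd
  have h4 : ¬ 2 ^ (padicValNat 2 j + 1) ∣ 2 ^ r + j := by
    intro h
    have h5 : 2 ^ (padicValNat 2 j + 1) ∣ j := (Nat.dvd_add_right (pow_dvd_pow 2 hv)).1 h
    exact pow_succ_padicValNat_not_dvd (by omega) h5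
  have h6 : padicValNat 2 j ≤ padicValNat 2 (2 ^ r + j) :=
    (padicValNat_dvd_iff_le (by omega)).1 h3
  have h7 : ¬ padicValNat 2 j + 1 ≤ padicValNat 2 (2 ^ r + j) := fun h =>
    h4 ((padicValNat_dvd_iff_le (by omega)).2 h)
  omega

/-- Module `ka`. -/
theorem lv_two_pow (r : ℕ) : lv (2 ^ r) = 2 ^ r := by
  unfold lv
  rw [padicValNat.prime_pow]

/-- Module `ka`: both intervals of `j` lie in `[0, 2 ^ r)`. -/
theorem lv_le (r j : ℕ) (h1 : 1 ≤ j) (h2 : j < 2 ^ r) : lv j ≤ j ∧ j + lv j ≤ 2 ^ r := by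
  have h3 : lv j ∣ j := pow_padicValNat_dvd
  refine ⟨Nat.le_of_dvd h1 h3, ?_⟩
  have hv := ka_val r j h1 h2
  have h4 : lv j ∣ 2 ^ r := pow_dvd_pow 2 hv.le
  have h5 : lv j ∣ 2 ^ r - j := Nat.dvd_sub h4 h3
  have h6 : lv j ≤ 2 ^ r - j := Nat.le_of_dvd (by omega) h5
  omega

/-! Recursion. -/

private theorem kb_left (r i j : ℕ) (hi : i < 2 ^ r) (hj : 1 ≤ j) (hj2 : j < 2 ^ r) :
    ee i (2 ^ r + j) = 0 := by
  unfold ee
  have h1 := lv_add r j hj hj2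
  have h2 := lv_le r j hj hj2
  rw [h1, if_neg (by omega), if_neg (by omega)]

private theorem kb_right (r i j : ℕ) (hj : 1 ≤ j) (hj2 : j < 2 ^ r) :
    ee (2 ^ r + i) j = 0 := by
  unfold ee
  have h2 := lv_le r j hj hj2
  rw [if_neg (by omega), if_neg (by omega)]

private theorem kb_shift (r i j : ℕ) (hj : 1 ≤ j) (hj2 : j < 2 ^ r) :
    ee (2 ^ r + i) (2 ^ r + j) = ee i j := by
  unfold ee
  have h1 := lv_add r j hj hj2
  rw [h1]
  have e1 : (2 ^ r + j ≤ 2 ^ r + i ∧ 2 ^ r + i < 2 ^ r + j + lv j) ↔ (j ≤ i ∧ i < j + lv j) := by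
    constructor <;> rintro ⟨_, _⟩ <;> constructor <;> omega
  have e2 : (2 ^ r + i < 2 ^ r + j ∧ 2 ^ r + j ≤ 2 ^ r + i + lv j) ↔ (i < j ∧ j ≤ i + lv j) := by
    constructor <;> rintro ⟨_, _⟩ <;> constructor <;> omega
  simp only [e1, e2]

private theorem kb_midl (r i : ℕ) (hi : i < 2 ^ r) : ee i (2 ^ r) = -1 := by
  unfold ee
  rw [lv_two_pow, if_neg (by omega), if_pos (by omega)]

private theorem kb_midr (r i : ℕ) (hi : i < 2 ^ r) : ee (2 ^ r + i) (2 ^ r) = 1 := by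
  unfold ee
  rw [lv_two_pow, if_pos (by omega)]

/-- splitting the sum over the nodes -/
private theorem kb_split (r : ℕ) (f : ℕ → ℤ) : ∑ j ∈ Ico 1 (2 ^ (r + 1)), f j =
    ∑ j ∈ Ico 1 (2 ^ r), f j + f (2 ^ r) + ∑ j ∈ Ico 1 (2 ^ r), f (2 ^ r + j) := by
  have h1 : 1 ≤ 2 ^ r := Nat.one_le_two_pow
  have h2 : 2 ^ (r + 1) = 2 ^ r + 2 ^ r := by rw [pow_succ]; ring
  have h3 : ∑ j ∈ Ico 1 (2 ^ (r + 1)), f j = ∑ j ∈ Ico 1 (2 ^ r), f j +
      ∑ j ∈ Ico (2 ^ r) (2 ^ (r + 1)), f j :=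
    (Finset.sum_Ico_consecutive f h1 (by omega)).symm
  have h4 : ∑ j ∈ Ico (2 ^ r) (2 ^ (r + 1)), f j =
      f (2 ^ r) + ∑ j ∈ Ico (2 ^ r + 1) (2 ^ (r + 1)), f j :=
    Finset.sum_eq_sum_Ico_succ_bot (by omega) f
  have h5 : ∑ j ∈ Ico (2 ^ r + 1) (2 ^ (r + 1)), f j = ∑ j ∈ Ico 1 (2 ^ r), f (2 ^ r + j) := by
    have := Finset.sum_Ico_add (fun j => f j) 1 (2 ^ r) (2 ^ r)
    rw [h2, this, add_comm 1 (2 ^ r)]
  rw [h3, h4, h5]
  ring

private theorem kb_low (r i : ℕ) (hi : i < 2 ^ r) (t : ℕ → ℤ) (φ : ℤ → ℤ) (h0 : φ 0 = 0) :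
    ∑ j ∈ Ico 1 (2 ^ (r + 1)), t j * φ (ee i j) =
      ∑ j ∈ Ico 1 (2 ^ r), t j * φ (ee i j) + t (2 ^ r) * φ (-1) := by
  rw [kb_split, kb_midl r i hi]
  have : ∑ j ∈ Ico 1 (2 ^ r), t (2 ^ r + j) * φ (ee i (2 ^ r + j)) = 0 :=
    Finset.sum_eq_zero fun j hj => by
      rw [kb_left r i j hi (Finset.mem_Ico.1 hj).1 (Finset.mem_Ico.1 hj).2, h0, mul_zero]
  rw [this, add_zero]

private theorem kb_high (r i : ℕ) (hi : i < 2 ^ r) (t : ℕ → ℤ) (φ : ℤ → ℤ) (h0 : φ 0 = 0) :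
    ∑ j ∈ Ico 1 (2 ^ (r + 1)), t j * φ (ee (2 ^ r + i) j) =
      t (2 ^ r) * φ 1 + ∑ j ∈ Ico 1 (2 ^ r), t (2 ^ r + j) * φ (ee i j) := by
  rw [kb_split, kb_midr r i hi]
  have : ∑ j ∈ Ico 1 (2 ^ r), t j * φ (ee (2 ^ r + i) j) = 0 :=
    Finset.sum_eq_zero fun j hj => by
      rw [kb_right r i j (Finset.mem_Ico.1 hj).1 (Finset.mem_Ico.1 hj).2, h0, mul_zero]
  rw [this, zero_add]
  congr 1
  refine Finset.sum_congr rfl fun j hj => ?_
  rw [kb_shift r i j (Finset.mem_Ico.1 hj).1 (Finset.mem_Ico.1 hj).2]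

/-- Module `kb`, (C2): induction on `r`. -/
theorem sum_abs_ee (r i : ℕ) (hi : i < 2 ^ r) : ∑ j ∈ Ico 1 (2 ^ r), |ee i j| = r := by
  induction r generalizing i with
  | zero => simp
  | succ r ih =>
    by_cases h : i < 2 ^ r
    · have := kb_low r i h (fun _ => 1) (fun x => |x|) (by simp)
      simp only [one_mul] at this
      rw [this, ih i h]
      simp
    · obtain ⟨k, rfl⟩ := Nat.exists_eq_add_of_le (not_lt.1 h)
      have hk : k < 2 ^ r := by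
        rw [pow_succ] at hi
        omega
      have := kb_high r k hk (fun _ => 1) (fun x => |x|) (by simp)
      simp only [one_mul] at this
      rw [this, ih k hk]
      push_cast
      simp
      ring

/-- splitting the sum over the leaves -/
private theorem kd_split (r : ℕ) (f : ℕ → ℤ) : ∑ i ∈ range (2 ^ (r + 1)), f i =
    ∑ i ∈ range (2 ^ r), f i + ∑ i ∈ range (2 ^ r), f (2 ^ r + i) := by
  have h2 : 2 ^ (r + 1) = 2 ^ r + 2 ^ r := by rw [pow_succ]; ring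
  rw [h2, Finset.sum_range_add]

private theorem kd_both (r : ℕ) (t : ℕ → ℤ) :
    ∑ i ∈ range (2 ^ r), (∑ j ∈ Ico 1 (2 ^ r), t j * ee i j) = 0 ∧
    ((∀ j, t j = 1 ∨ t j = -1) →
      ∑ i ∈ range (2 ^ r), (∑ j ∈ Ico 1 (2 ^ r), t j * ee i j) ^ 2 = 2 ^ r * r) := by
  induction r generalizing t with
  | zero => simp
  | succ r ih =>
    have hlow : ∀ i ∈ range (2 ^ r), ∑ j ∈ Ico 1 (2 ^ (r + 1)), t j * ee i j =
        ∑ j ∈ Ico 1 (2 ^ r), t j * ee i j + t (2 ^ r) * (-1) := fun i hi =>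
      kb_low r i (Finset.mem_range.1 hi) t (fun x => x) rfl
    have hhigh : ∀ i ∈ range (2 ^ r), ∑ j ∈ Ico 1 (2 ^ (r + 1)), t j * ee (2 ^ r + i) j =
        t (2 ^ r) * 1 + ∑ j ∈ Ico 1 (2 ^ r), t (2 ^ r + j) * ee i j := fun i hi =>
      kb_high r i (Finset.mem_range.1 hi) t (fun x => x) rfl
    obtain ⟨a1, a2⟩ := ih t
    obtain ⟨b1, b2⟩ := ih (fun j => t (2 ^ r + j))
    constructor
    · rw [kd_split, Finset.sum_congr rfl hlow, Finset.sum_congr rfl hhigh, Finset.sum_add_distrib,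
        Finset.sum_add_distrib, a1, b1]
      simp
    · intro ht
      have a3 := a2 ht
      have b3 := b2 (fun j => ht _)
      have hsq : t (2 ^ r) ^ 2 = 1 := by
        rcases ht (2 ^ r) with h | h <;> rw [h] <;> norm_num
      have hlow2 : ∀ i ∈ range (2 ^ r), (∑ j ∈ Ico 1 (2 ^ (r + 1)), t j * ee i j) ^ 2 =
          (∑ j ∈ Ico 1 (2 ^ r), t j * ee i j) ^ 2 + 1 -
            2 * t (2 ^ r) * (∑ j ∈ Ico 1 (2 ^ r), t j * ee i j) := fun i hi => by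
        rw [hlow i hi]
        linear_combination hsq
      have hhigh2 : ∀ i ∈ range (2 ^ r),
          (∑ j ∈ Ico 1 (2 ^ (r + 1)), t j * ee (2 ^ r + i) j) ^ 2 =
          (∑ j ∈ Ico 1 (2 ^ r), t (2 ^ r + j) * ee i j) ^ 2 + 1 +
            2 * t (2 ^ r) * (∑ j ∈ Ico 1 (2 ^ r), t (2 ^ r + j) * ee i j) := fun i hi => by
        rw [hhigh i hi]
        linear_combination hsq
      rw [kd_split, Finset.sum_congr rfl hlow2, Finset.sum_congr rfl hhigh2]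
      simp only [Finset.sum_add_distrib, Finset.sum_sub_distrib, ← Finset.mul_sum]
      rw [a1, b1, a3, b3]
      simp only [Finset.sum_const, Finset.card_range, nsmul_eq_mul]
      push_cast
      ring

/-- Module `kd`, (C1): induction on `r` for all `t`. -/
theorem sum_sq_ee (r : ℕ) (t : ℕ → ℤ) (ht : Sgn t) :
    ∑ i ∈ range (2 ^ r), (∑ j ∈ Ico 1 (2 ^ r), t j * ee i j) ^ 2 = 2 ^ r * r :=
  (kd_both r t).2 ht

/-- Module `kc`: both intervals of `j` have the same length. -/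
theorem sum_ee (r j : ℕ) (h1 : 1 ≤ j) (h2 : j < 2 ^ r) : ∑ i ∈ range (2 ^ r), ee i j = 0 := by
  have h := (kd_both r (fun k => if k = j then 1 else 0)).1
  have e1 : ∀ i, ∑ k ∈ Ico 1 (2 ^ r), (if k = j then (1 : ℤ) else 0) * ee i k = ee i j := by
    intro i
    rw [Finset.sum_eq_single j]
    · simp
    · intro k _ hk
      rw [if_neg hk, zero_mul]
    · intro hj
      exact absurd (Finset.mem_Ico.2 ⟨h1, h2⟩) hj
  rw [Finset.sum_congr rfl fun i _ => e1 i] at h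
  exact h

end Pool.Agent.CptDim
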