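import Mathlib

/-!
# Far vectors, game values, games (MP_a77edb_an, helper75)

* `far E`: the filter of far vectors of the unit ball.
* `W n x`: the value of the game with `n` moves started at `x`; `Lam E n = W n 0`.
* `Sg Z i`: the signed partial sums of `Z 0, ..., Z (i - 1)` with coefficients in `{-1, 0, 1}`.
* `Tracks E m N δ Z`: all moves `± Z i` are controlled from above at all signed partial sums.
* `lv`, `ee`: dyadic combinatorics.
* `Game E P`: what is extracted from the vanishing condition.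
-/

set_option autoImplicit false

noncomputable section

namespace Pool.Agent.CptDim

universe u v

open Filter Topology

/-- Functions with values in `{1, -1}`. -/
def Sgn (t : ℕ → ℤ) : Prop := ∀ j, t j = 1 ∨ t j = -1

/-- Functions with values in `{0, 1, -1}`. -/
def Tri (c : ℕ → ℤ) : Prop := ∀ j, c j = 0 ∨ c j = 1 ∨ c j = -1

section Far

variable (E : Type u) [NormedAddCommGroup E] [NormedSpace ℂ E]

/-- The filter of far vectors: a set belongs to it if it contains all vectors of the unit ball which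
are killed by a suitable finite set of functionals. -/
def far : Filter E where
  sets := {s | ∃ Φ : Finset (E →L[ℂ] ℂ), ∀ z : E, ‖z‖ ≤ 1 → (∀ f ∈ Φ, f z = 0) → z ∈ s}
  univ_sets := ⟨∅, fun _ _ _ => trivial⟩
  sets_of_superset := fun ⟨Φ, h⟩ hst => ⟨Φ, fun z h1 h2 => hst (h z h1 h2)⟩
  inter_sets := by
    classical
    rintro s t ⟨Φ, h⟩ ⟨Ψ, h'⟩
    exact ⟨Φ ∪ Ψ, fun z h1 h2 => ⟨h z h1 fun f hf => h2 f (Finset.mem_union_left _ hf),
      h' z h1 fun f hf => h2 f (Finset.mem_union_right _ hf)⟩⟩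

variable {E}

/-- The value of the game with `n` moves: `W 0 x = ‖x‖` and `W (n + 1) x` is the upper limit of
`W n (x + z)` for `z` far. -/
def W : ℕ → E → ℝ
  | 0, x => ‖x‖
  | n + 1, x => sInf {r : ℝ | ∀ᶠ z in far E, W n (x + z) ≤ r}

variable (E) in
/-- The value of the game with `n` moves started at `0`. -/
def Lam (n : ℕ) : ℝ := W n (0 : E)

open Classical in
/-- The signed partial sums of `Z 0, ..., Z (i - 1)` (coefficients `0, 1, -1`). -/
def Sg (Z : ℕ → E) : ℕ → Finset E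
  | 0 => {0}
  | i + 1 => Sg Z i ∪ ((Sg Z i).image (fun x => x + Z i) ∪ (Sg Z i).image (fun x => x - Z i))

/-- Control from above of the moves `± Z i`, `i < N`, each of them counted as `m` moves. -/
def Tracks (m N : ℕ) (δ : ℝ) (Z : ℕ → E) : Prop :=
  ∀ i < N, ∀ x ∈ Sg Z i, ∀ k ≤ N * m, W k (x + Z i) ≤ W (k + m) x + δ ∧
    W k (x - Z i) ≤ W (k + m) x + δ

end Far

section Comb

/-- The largest power of two dividing `j`. -/
def lv (j : ℕ) : ℕ := 2 ^ (padicValNat 2 j)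

/-- `1` on `[j, j + lv j)`, `-1` on `[j - lv j, j)`, `0` elsewhere. -/
def ee (i j : ℕ) : ℤ :=
  if j ≤ i ∧ i < j + lv j then 1 else if i < j ∧ j ≤ i + lv j then -1 else 0

end Comb

/-- A game on `E`: indices `p : P` with vectors `y` (`good p y`) and compact operators `q p y`. -/
structure Game (E : Type u) [NormedAddCommGroup E] [NormedSpace ℂ E] (P : Type v) where
  /-- the compact operators -/
  q : P → E → (E →L[ℂ] E)
  /-- the admissible pairs -/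
  good : P → E → Prop
  cpt : ∀ p y, IsCompactOperator (q p y)
  node : ∀ Y : Set E, (∀ y ∈ Y, 1 / 2 ≤ ‖y‖ ∧ ‖y‖ ≤ 1) →
    (∀ Φ : Finset (E →L[ℂ] ℂ), ∃ y ∈ Y, ∀ f ∈ Φ, f y = 0) →
    ∀ (F : Finset P) (R : Finset ((E →L[ℂ] ℂ) × E)) (ε : ℝ), 0 < ε →
      ∃ p, p ∉ F ∧ ∃ y ∈ Y, good p y ∧ ∀ fz ∈ R, ‖fz.1 (fz.2 - q p y fz.2)‖ < ε
  /-- first constant -/
  C₁ : ℝ
  C₁_nonneg : 0 ≤ C₁
  bdd : ∀ (J : Finset ℕ) (p : ℕ → P) (y u : ℕ → E) (B : ℝ), Set.InjOn p J →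
    (∀ j ∈ J, good (p j) (y j)) → (∀ j ∈ J, ‖y j‖ ≤ 1) →
    (∀ t : ℕ → ℤ, Sgn t → ‖∑ j ∈ J, t j • u j‖ ≤ B) →
    ‖∑ j ∈ J, (u j - q (p j) (y j) (u j))‖ ≤ C₁ * B
  /-- second constant -/
  C₂ : ℝ
  C₂_nonneg : 0 ≤ C₂
  beta : ∀ (J I : Finset ℕ) (p : ℕ → P) (y z : ℕ → E) (g : ℕ → (E →L[ℂ] ℂ)) (α : ℕ → ℕ → ℝ)
    (B S : ℝ), Set.InjOn p J → (∀ j ∈ J, good (p j) (y j)) →
    (∀ t : ℕ → ℤ, Sgn t → ‖∑ j ∈ J, t j • y j‖ ≤ B) →
    (∀ i ∈ I, ‖z i‖ ≤ 1) → (∀ i ∈ I, ‖g i‖ ≤ 1) →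
    (∀ t : ℕ → ℤ, Sgn t → ∑ i ∈ I, |∑ j ∈ J, (t j : ℝ) * α i j| ≤ S) →
    ‖∑ j ∈ J, ∑ i ∈ I, (α i j : ℂ) * g i (q (p j) (y j) (z i))‖ ≤ C₂ * B * S

end Pool.Agent.CptDim
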