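import Pool.Agent.CptDim.Defs

/-!
# Far vectors (text 1.2)
-/

set_option autoImplicit false

noncomputable section

namespace Pool.Agent.CptDim

universe u v

open Filter Topology

variable {E : Type u} [NormedAddCommGroup E] [NormedSpace ℂ E]

theorem mem_far {s : Set E} : s ∈ far E ↔
    ∃ Φ : Finset (E →L[ℂ] ℂ), ∀ z : E, ‖z‖ ≤ 1 → (∀ f ∈ Φ, f z = 0) → z ∈ s := Iff.rfl

theorem eventually_far {p : E → Prop} : (∀ᶠ z in far E, p z) ↔
    ∃ Φ : Finset (E →L[ℂ] ℂ), ∀ z : E, ‖z‖ ≤ 1 → (∀ f ∈ Φ, f z = 0) → p z := Iff.rfl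

/-- Module `fa`. -/
theorem frequently_far {p : E → Prop} : (∃ᶠ z in far E, p z) ↔
    ∀ Φ : Finset (E →L[ℂ] ℂ), ∃ z : E, ‖z‖ ≤ 1 ∧ (∀ f ∈ Φ, f z = 0) ∧ p z := by
  constructor
  · intro h Φ
    by_contra hc
    refine h ⟨Φ, fun z h1 h2 h3 => hc ⟨z, h1, h2, h3⟩⟩
  · rintro h ⟨Φ, hΦ⟩
    obtain ⟨z, h1, h2, h3⟩ := h Φ
    exact hΦ z h1 h2 h3

/-- Module `fa`. -/
theorem eventually_far_ball : ∀ᶠ z in far E, ‖z‖ ≤ 1 := by
  exact ⟨∅, fun z h _ => h⟩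

/-- Module `fa`. -/
theorem eventually_far_ker (Φ : Finset (E →L[ℂ] ℂ)) : ∀ᶠ z in far E, ∀ f ∈ Φ, f z = 0 := by
  exact ⟨Φ, fun z _ h => h⟩

/-- Module `fa`. -/
theorem eventually_far_neg {p : E → Prop} (h : ∀ᶠ z in far E, p z) : ∀ᶠ z in far E, p (-z) := by
  obtain ⟨Φ, h⟩ := h
  exact ⟨Φ, fun z h1 h2 => h (-z) (by simpa using h1) (fun f hf => by rw [map_neg, h2 f hf, neg_zero])⟩

/-- Module `fb`: finitely many functionals have a common unit vector in their kernels. -/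
theorem exists_unit_ker (hE : ¬ FiniteDimensional ℂ E) (Φ : Finset (E →L[ℂ] ℂ)) :
    ∃ z : E, ‖z‖ = 1 ∧ ∀ f ∈ Φ, f z = 0 := by
  classical
  let L : E →ₗ[ℂ] (Φ → ℂ) := LinearMap.pi fun f => (f.1 : E →ₗ[ℂ] ℂ)
  have hL : ¬ Function.Injective L := by
    intro h
    exact hE (FiniteDimensional.of_injective L h)
  have h2 : ∃ z : E, L z = 0 ∧ z ≠ 0 := by
    by_contra hc
    push Not at hc
    exact hL ((injective_iff_map_eq_zero L).mpr hc)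
  obtain ⟨z, hz, hz0⟩ := h2
  refine ⟨((‖z‖ : ℝ)⁻¹ : ℂ) • z, ?_, ?_⟩
  · rw [norm_smul, norm_inv, Complex.norm_real, norm_norm, inv_mul_cancel₀ (norm_ne_zero_iff.mpr hz0)]
  · intro f hf
    have h3 := congrFun hz ⟨f, hf⟩
    have h4 : f z = 0 := h3
    rw [map_smul, h4, smul_zero]

/-- Module `fb`. -/
theorem frequently_unit (hE : ¬ FiniteDimensional ℂ E) : ∃ᶠ z in far E, ‖z‖ = 1 := by
  rw [frequently_far]
  intro Φ
  obtain ⟨z, h1, h2⟩ := exists_unit_ker hE Φ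
  exact ⟨z, h1.le, h2, h1⟩

/-- Module `fb`. -/
theorem far_neBot (hE : ¬ FiniteDimensional ℂ E) : (far E).NeBot := by
  refine ⟨fun h => ?_⟩
  have h1 := frequently_unit hE
  rw [h] at h1
  exact h1 Filter.eventually_bot

end Pool.Agent.CptDim
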