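import Pool.Agent.CptDim.ADef

/-!
# The identities (2'), (5'), the bounds (B'), (B'') (text 1)
-/

set_option autoImplicit false
set_option linter.unusedSectionVars false

noncomputable section

namespace Pool.Agent.CptDim

universe u v

open ContinuousLinearMap Filter Topology
open Pool.Agent.MP_a77edb_an
open scoped ENNReal

variable {A E : Type u} [NonUnitalNormedRing A] [NormedSpace ℂ A]
  [NormedAddCommGroup E] [NormedSpace ℂ E] [CompleteSpace A] [IsScalarTower ℂ A A]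
  [SMulCommClass ℂ A A] [CompleteSpace E]

/-- Module `ba`: slices of the action (the noncommutative version of `PT.slice_lact`). -/
theorem slice_lact' {Z : Type u} [NormedAddCommGroup Z] [NormedSpace ℂ Z] (φ : Z →L[ℂ] ℂ) (a : A)
    (t : PT A Z) : PT.slice φ (CS.lact a t) = a * PT.slice φ t := by
  have h : (PT.slice φ).comp (CS.lact a : PT A Z →L[ℂ] PT A Z) =
      (ContinuousLinearMap.mul ℂ A a).comp (PT.slice φ) := by
    refine PT.ext' fun u z => ?_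
    rw [comp_apply, CS.lact_tmul, PT.slice_tmul, comp_apply, PT.slice_tmul,
      ContinuousLinearMap.mul_apply', mul_smul_comm]
  exact congrArg (fun (T : PT A Z →L[ℂ] A) => T t) h

open Classical in
private theorem ba_sgp_apply (p p' : Px A E) (v : E) : sgp p v p' = if p' = p then v else 0 := by
  by_cases h : p' = p
  · rw [if_pos h, h, sgp_apply_self]
  · rw [if_neg h, sgp_apply_ne h]

/-- Module `ba`. -/
theorem lam_sgp (aE : A →L[ℂ] E →L[ℂ] E) (p : Px A E) (a : A) (y : E) :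
    CS.lam (Px A E) aE a (sgp p y) = sgp p (aE a y) := by
  refine linf_ext fun p' => ?_
  rw [CS.lam_apply, ba_sgp_apply, ba_sgp_apply]
  split_ifs
  · rfl
  · rw [map_zero]

/-- Module `ba`. -/
theorem norm_sum_sgp_le (J : Finset ℕ) (p : ℕ → Px A E) (hp : Set.InjOn p J) (y : ℕ → E) {R : ℝ}
    (hR : 0 ≤ R) (hy : ∀ j ∈ J, ‖y j‖ ≤ R) : ‖∑ j ∈ J, sgp (p j) (y j)‖ ≤ R := by
  classical
  refine lp.norm_le_of_forall_le hR fun p' => ?_
  have h1 : (∑ j ∈ J, sgp (p j) (y j) : Linf (Px A E) E) p' =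
      ∑ j ∈ J, (if p' = p j then y j else 0) := by
    rw [lp.coeFn_sum, Finset.sum_apply]
    refine Finset.sum_congr rfl fun j _ => ?_
    rw [ba_sgp_apply]
  rw [h1]
  by_cases h : ∃ i ∈ J, p' = p i
  · obtain ⟨i, hi, rfl⟩ := h
    rw [Finset.sum_eq_single i]
    · rw [if_pos rfl]
      exact hy i hi
    · intro j hj hji
      rw [if_neg fun h => hji (hp hj hi h.symm)]
    · intro h
      exact absurd hi h
  · push Not at h
    rw [Finset.sum_eq_zero]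
    · rw [norm_zero]
      exact hR
    · intro j hj
      rw [if_neg (h j hj)]

namespace CData

variable (D : CData A E) {ψ : A →L[ℂ] Linf (Px A E) E →L[ℂ] PT A (Z0 (Px A E))}

/-- Module `bb`: `ev_p (σ t) = c (slice_p t)`. -/
theorem ev_sig (p : Px A E) (t : PT A (Z0 (Px A E))) :
    ev p (CS.sig D.cact t) = D.c (PT.slice (ev p) t) := by
  have h : (ev p).comp (CS.sig D.cact : PT A (Z0 (Px A E)) →L[ℂ] Z0 (Px A E)) =
      D.c.comp (PT.slice (ev p)) := by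
    refine PT.ext' fun u z => ?_
    rw [comp_apply, CS.sig_tmul, comp_apply, PT.slice_tmul, cact_apply, map_smul, map_smul,
      smul_eq_mul, smul_eq_mul, mul_comm]
  exact congrArg (fun (T : PT A (Z0 (Px A E)) →L[ℂ] ℂ) => T t) h

/-- Module `bb`, (2'). -/
theorem two (hψ : D.IsPsi ψ) (p : Px A E) (a b : A) (y : E) :
    (D.xx p (D.kk b y) + D.c (Ps ψ p b y)) • a =
      a * Ps ψ p b y - Ps ψ p (a * b) y + Ps ψ p a (D.aE b y) := by
  have h := congrArg (PT.slice (ev p)) (hψ a b (sgp p y))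
  have h3 : ∀ (R : PT A (Z0 (Px A E)) →L[ℂ] A) (u v w z : PT A (Z0 (Px A E))),
      R (u - v - w + z) = R u - R v - R w + R z := fun R u v w z => by
    rw [map_add, map_sub, map_sub]
  rw [PT.slice_tmul, ev_coc, sgp_apply_self, h3, slice_lact', PT.slice_tmul, ev_sig,
    lam_sgp, ← Ps_apply, ← Ps_apply, ← Ps_apply] at h
  rw [add_smul, h]
  abel

/-- The compact operator `q_{p,y}`. -/
def qq (D : CData A E) (ψ : A →L[ℂ] Linf (Px A E) E →L[ℂ] PT A (Z0 (Px A E))) (p : Px A E)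
    (y : E) : E →L[ℂ] E := D.kk (Ps ψ p (D.s y) D.w₀)

/-- Module `bc`, (5'). -/
theorem five (hψ : D.IsPsi ψ) (p : Px A E) (y z : E) (f : E →L[ℂ] ℂ) :
    D.xx p y * f z - f (D.qq ψ p y z) =
      D.h₀ (D.aE (Ps ψ p (D.uf f) y) z) - f y * D.h₀ (D.aE (Ps ψ p (D.s D.v₀) D.w₀) z) := by
  have h := D.two hψ p (D.uf f) (D.s y) D.w₀
  have e1 : D.aE (D.s y) D.w₀ = y := by rw [D.aE_s, D.g₀_w₀, one_smul]
  have e2 : D.kk (D.s y) D.w₀ = y := by rw [kk_apply, e1, D.c_s, zero_smul, sub_zero]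
  have e3 : D.uf f * D.s y = f y • D.s D.v₀ := by rw [D.mul_s, D.aE_uf, map_smul]
  rw [e1, e2, e3, map_smul, smul_apply] at h
  have h2 := congrArg (fun x : A => D.h₀ (D.aE x z)) h
  have e4 : ∀ x y' w : A, D.h₀ (D.aE (x - y' + w) z) =
      D.h₀ (D.aE x z) - D.h₀ (D.aE y' z) + D.h₀ (D.aE w z) := fun x y' w => by
    rw [map_add, map_sub, add_apply, sub_apply, map_add, map_sub]
  have e5 : ∀ (t : ℂ) (x : A), D.h₀ (D.aE (t • x) z) = t * D.h₀ (D.aE x z) := fun t x => by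
    rw [map_smul, smul_apply, map_smul, smul_eq_mul]
  simp only [e4, e5] at h2
  rw [D.aE_uf, map_smul, D.h₀_v₀, D.aE_mul, D.aE_uf, map_smul, D.h₀_v₀, smul_eq_mul, smul_eq_mul,
    mul_one, mul_one] at h2
  have e6 : f (D.qq ψ p y z) = f (D.aE (Ps ψ p (D.s y) D.w₀) z) -
      D.c (Ps ψ p (D.s y) D.w₀) * f z := by
    unfold qq
    rw [kk_apply, map_sub, map_smul, smul_eq_mul]
  rw [e6]
  linear_combination h2

end CData

variable (ψ : A →L[ℂ] Linf (Px A E) E →L[ℂ] PT A (Z0 (Px A E)))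

/-- Module `bd`: the functional `∑ t_i G_i ⊗ ev_{p_i}`. -/
theorem exists_form (J : Finset ℕ) (p : ℕ → Px A E) (G : ℕ → (A →L[ℂ] ℂ)) {w : ℝ} (hw : 0 ≤ w)
    (hG : ∀ a : A, ∑ j ∈ J, ‖G j a‖ ≤ w * ‖a‖) (t : ℕ → ℤ) (ht : Sgn t) :
    ∃ Φ : PT A (Z0 (Px A E)) →L[ℂ] ℂ, (∀ T, ‖Φ T‖ ≤ w * ‖T‖) ∧
      ∀ T, Φ T = ∑ i ∈ J, t i • G i (PT.slice (ev (p i)) T) := by
  let β : A →L[ℂ] Z0 (Px A E) →L[ℂ] ℂ := ∑ i ∈ J, t i • (G i).smulRight (ev (p i))
  have hβ : ∀ a m, β a m = ∑ i ∈ J, t i • (G i a * ev (p i) m) := fun a m => by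
    show (∑ i ∈ J, t i • (G i).smulRight (ev (p i)) : A →L[ℂ] Z0 (Px A E) →L[ℂ] ℂ) a m = _
    rw [sum_apply, sum_apply]
    rfl
  have hβn : ∀ a m, ‖β a m‖ ≤ w * ‖a‖ * ‖m‖ := fun a m => by
    rw [hβ]
    refine (norm_sum_le _ _).trans ?_
    have h1 : ∀ i ∈ J, ‖t i • (G i a * ev (p i) m)‖ ≤ ‖G i a‖ * ‖m‖ := fun i _ => by
      have h2 : ‖t i • (G i a * ev (p i) m)‖ = ‖G i a * ev (p i) m‖ := by
        rcases ht i with h | h
        · rw [h, one_smul]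
        · rw [h, neg_one_smul, norm_neg]
      rw [h2, norm_mul]
      exact mul_le_mul_of_nonneg_left (norm_ev_apply_le _ _) (norm_nonneg _)
    refine (Finset.sum_le_sum h1).trans ?_
    rw [← Finset.sum_mul]
    exact mul_le_mul_of_nonneg_right (hG a) (norm_nonneg _)
  refine ⟨PT.lift β, fun T => ?_, fun T => ?_⟩
  · refine (PT.norm_lift_apply_le _ T).trans ?_
    refine mul_le_mul_of_nonneg_right ?_ (norm_nonneg _)
    exact ContinuousLinearMap.opNorm_le_bound₂ _ hw hβn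
  · have h : (PT.lift β : PT A (Z0 (Px A E)) →L[ℂ] ℂ) =
        ∑ i ∈ J, t i • (G i).comp (PT.slice (ev (p i))) := by
      refine PT.ext' fun u z => ?_
      rw [PT.lift_tmul, hβ, sum_apply]
      refine Finset.sum_congr rfl fun i _ => ?_
      show _ = t i • G i (PT.slice (ev (p i)) (PT.tmul u z))
      rw [PT.slice_tmul, map_smul, smul_eq_mul, mul_comm]
    rw [h, sum_apply]
    rfl

/-- Module `be`, (B'). -/
theorem b_one (J : Finset ℕ) (p : ℕ → Px A E) (hp : Set.InjOn p J) (y : ℕ → E) {R : ℝ}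
    (hR : 0 ≤ R) (hy : ∀ j ∈ J, ‖y j‖ ≤ R) (G : ℕ → (A →L[ℂ] ℂ)) {w : ℝ} (hw : 0 ≤ w)
    (hG : ∀ a : A, ∑ j ∈ J, ‖G j a‖ ≤ w * ‖a‖) (a : A) :
    ‖∑ j ∈ J, G j (Ps ψ (p j) a (y j))‖ ≤ ‖ψ‖ * ‖a‖ * R * w := by
  obtain ⟨t, ht, h1⟩ := sign_two J (0 : ℂ)
    (fun i j => G i (PT.slice (ev (p i)) (ψ a (sgp (p j) (y j)))))
  obtain ⟨Φ, hΦ1, hΦ2⟩ := exists_form J p G hw hG t ht
  simp only [zero_add] at h1
  have h2 : ∑ i ∈ J, ∑ j ∈ J, (t i * t j) • G i (PT.slice (ev (p i)) (ψ a (sgp (p j) (y j)))) =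
      Φ (ψ a (∑ j ∈ J, sgp (p j) (t j • y j))) := by
    rw [hΦ2]
    refine Finset.sum_congr rfl fun i _ => ?_
    rw [map_sum, map_sum, map_sum, Finset.smul_sum]
    refine Finset.sum_congr rfl fun j _ => ?_
    rw [map_zsmul, map_zsmul, map_zsmul, map_zsmul, smul_smul]
  rw [h2] at h1
  refine h1.trans ((hΦ1 _).trans ?_)
  have h3 : ‖∑ j ∈ J, sgp (p j) (t j • y j)‖ ≤ R :=
    norm_sum_sgp_le J p hp (fun j => t j • y j) hR fun j hj => by
      rcases ht j with h | h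
      · rw [h, one_smul]
        exact hy j hj
      · rw [h, neg_one_smul, norm_neg]
        exact hy j hj
  have h4 : ‖ψ a (∑ j ∈ J, sgp (p j) (t j • y j))‖ ≤ ‖ψ‖ * ‖a‖ * R :=
    (ψ.le_opNorm₂ _ _).trans (mul_le_mul_of_nonneg_left h3 (by
      have : 0 ≤ ‖ψ‖ := ContinuousLinearMap.opNorm_nonneg ψ
      positivity))
  rw [mul_comm w]
  exact mul_le_mul_of_nonneg_right h4 hw

/-- Module `be`, (B''). -/
theorem b_two (s : E →L[ℂ] A) (w₀ : E) (J : Finset ℕ) (p : ℕ → Px A E) (hp : Set.InjOn p J)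
    (y : ℕ → E) {B : ℝ} (hy : ∀ t : ℕ → ℤ, Sgn t → ‖∑ j ∈ J, t j • y j‖ ≤ B)
    (G : ℕ → (A →L[ℂ] ℂ)) {w : ℝ} (hw : 0 ≤ w) (hG : ∀ a : A, ∑ j ∈ J, ‖G j a‖ ≤ w * ‖a‖) :
    ‖∑ j ∈ J, G j (Ps ψ (p j) (s (y j)) w₀)‖ ≤ ‖ψ‖ * ‖s‖ * ‖w₀‖ * B * w := by
  obtain ⟨t, t', ht, ht', h1⟩ := sign_three J
    (fun i j k => G i (PT.slice (ev (p i)) (ψ (s (y j)) (sgp (p k) w₀))))
  have htt : Sgn (fun i => t i * t' i) := fun i => by
    rcases ht i with h | h <;> rcases ht' i with h' | h' <;> simp [h, h']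
  obtain ⟨Φ, hΦ1, hΦ2⟩ := exists_form J p G hw hG _ htt
  have h2 : ∑ i ∈ J, ∑ j ∈ J, ∑ k ∈ J,
      (t i * t' i * t j * t' k) • G i (PT.slice (ev (p i)) (ψ (s (y j)) (sgp (p k) w₀))) =
      Φ (ψ (s (∑ j ∈ J, t j • y j)) (∑ k ∈ J, sgp (p k) (t' k • w₀))) := by
    rw [hΦ2]
    refine Finset.sum_congr rfl fun i _ => ?_
    rw [map_sum s, map_sum ψ, sum_apply, map_sum, map_sum, Finset.smul_sum]
    refine Finset.sum_congr rfl fun j _ => ?_
    rw [map_sum, map_sum, map_sum, Finset.smul_sum]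
    refine Finset.sum_congr rfl fun k _ => ?_
    rw [map_zsmul s, map_zsmul ψ, map_zsmul (sgp (p k))]
    have h3 : (t j • ψ (s (y j))) (t' k • sgp (p k) w₀) =
        (t j * t' k) • ψ (s (y j)) (sgp (p k) w₀) := by
      rw [map_zsmul, mul_comm, mul_smul]
      rfl
    rw [h3, map_zsmul, map_zsmul, smul_smul]
    congr 1
    ring
  rw [h2] at h1
  refine h1.trans ((hΦ1 _).trans ?_)
  have h3 : ‖∑ k ∈ J, sgp (p k) (t' k • w₀)‖ ≤ ‖w₀‖ :=
    norm_sum_sgp_le J p hp (fun k => t' k • w₀) (norm_nonneg _) fun j hj => by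
      rcases ht' j with h | h
      · rw [h, one_smul]
      · rw [h, neg_one_smul, norm_neg]
  have hψ0 : 0 ≤ ‖ψ‖ := ContinuousLinearMap.opNorm_nonneg ψ
  have h5 : ‖s (∑ j ∈ J, t j • y j)‖ ≤ ‖s‖ * B :=
    (s.le_opNorm _).trans (mul_le_mul_of_nonneg_left (hy t ht) (norm_nonneg _))
  have h4 : ‖ψ (s (∑ j ∈ J, t j • y j)) (∑ k ∈ J, sgp (p k) (t' k • w₀))‖ ≤
      ‖ψ‖ * (‖s‖ * B) * ‖w₀‖ :=
    (ψ.le_opNorm₂ _ _).trans (mul_le_mul (mul_le_mul_of_nonneg_left h5 hψ0) h3 (norm_nonneg _)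
      (mul_nonneg hψ0 ((norm_nonneg _).trans h5)))
  calc w * ‖ψ (s (∑ j ∈ J, t j • y j)) (∑ k ∈ J, sgp (p k) (t' k • w₀))‖ ≤
        w * (‖ψ‖ * (‖s‖ * B) * ‖w₀‖) := mul_le_mul_of_nonneg_left h4 hw
    _ = _ := by ring

end Pool.Agent.CptDim
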