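import Mathlib

/-!
# The left ideal `A e`
-/

set_option autoImplicit false

namespace Pool.Agent.CptDim

universe u

variable {A : Type u} [NonUnitalNormedRing A] [NormedSpace ℂ A] [IsScalarTower ℂ A A]

/-- The left ideal `A e = {a e : a ∈ A}`, as a subspace of `A`. -/
def lid (e : A) : Submodule ℂ A := LinearMap.range (LinearMap.mulRight ℂ e)

end Pool.Agent.CptDim
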