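import Pool.Agent.CptDim.AGame
import Pool.Agent.CptDim.Lid
import Pool.Agent.CptDim.Case1
import Pool.Agent.MP_a77edb_an.Bridge

/-!
# The theorem for algebras of operators and for minimal left ideals (text 0)
-/

set_option autoImplicit false
set_option linter.unusedSectionVars false

noncomputable section

namespace Pool.Agent.CptDim

universe u v

open ContinuousLinearMap Filter Topology
open Pool.Agent.MP_a77edb_an

variable {A E : Type u} [NonUnitalNormedRing A] [NormedSpace ℂ A] [IsScalarTower ℂ A A]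
  [SMulCommClass ℂ A A] [CompleteSpace A] [NormedAddCommGroup E] [NormedSpace ℂ E]
  [CompleteSpace E]

/-- The core theorem. -/
theorem core (D : CData A E) (hE : ¬ FiniteDimensional ℂ E) :
    1 < HomDim.dg A ∧ 1 < HomDim.db A := by
  have h : ¬ Vanish A := fun hV => by
    obtain ⟨G⟩ := D.exists_game hV
    exact no_game hE G
  rw [dg_eq, db_eq]
  exact ⟨not_le.1 fun h' => h (vanish_of_dg h'), not_le.1 fun h' => h (vanish_of_db h')⟩

private theorem ia_le (hE : ¬ FiniteDimensional ℂ E) (T : E →L[ℂ] E) (t : ℂ)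
    (h : IsCompactOperator (T - t • ContinuousLinearMap.id ℂ E)) : ‖t‖ ≤ ‖T‖ := by
  refine le_of_forall_pos_le_add fun ε hε => ?_
  have h1 := cpt_far (T - t • ContinuousLinearMap.id ℂ E) h hε
  obtain ⟨z, hz1, hz2⟩ := ((frequently_unit hE).and_eventually h1).exists
  have h2 : t • z = T z - (T - t • ContinuousLinearMap.id ℂ E) z := by
    rw [sub_apply, smul_apply, id_apply, sub_sub_cancel]
  have h3 : ‖t • z‖ ≤ ‖T‖ + ε := by
    rw [h2]
    refine (norm_sub_le _ _).trans (add_le_add ?_ hz2)
    refine (T.le_opNorm z).trans ?_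
    rw [hz1, mul_one]
  rwa [norm_smul, hz1, mul_one] at h3

private theorem ia_uniq (hE : ¬ FiniteDimensional ℂ E) (T : E →L[ℂ] E) (t t' : ℂ)
    (h : IsCompactOperator (T - t • ContinuousLinearMap.id ℂ E))
    (h' : IsCompactOperator (T - t' • ContinuousLinearMap.id ℂ E)) : t = t' := by
  have h1 : IsCompactOperator ((0 : E →L[ℂ] E) - (t - t') • ContinuousLinearMap.id ℂ E) := by
    have h2 := h.sub h'
    have h3 : ((T - t • ContinuousLinearMap.id ℂ E : E →L[ℂ] E) : E → E) -
        ((T - t' • ContinuousLinearMap.id ℂ E : E →L[ℂ] E) : E → E) =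
        (((0 : E →L[ℂ] E) - (t - t') • ContinuousLinearMap.id ℂ E : E →L[ℂ] E) : E → E) := by
      funext z
      simp only [Pi.sub_apply, sub_apply, smul_apply, id_apply, zero_apply, sub_smul]
      abel
    rwa [h3] at h2
  have h4 := ia_le hE _ _ h1
  rw [norm_zero] at h4
  exact sub_eq_zero.1 (norm_le_zero_iff.1 h4)

/-- Module `ia`: the character `c`. It is unique (the identity is not compact), hence linear and
multiplicative; `|c a| ≤ ‖π a‖` from `cpt_far` and `frequently_unit`. -/
theorem exists_char (hE : ¬ FiniteDimensional ℂ E) (π : A →L[ℂ] E →L[ℂ] E)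
    (hmul : ∀ a b x, π (a * b) x = π a (π b x))
    (hcpt : ∀ a, ∃ t : ℂ, IsCompactOperator (π a - t • ContinuousLinearMap.id ℂ E)) :
    ∃ c : A →L[ℂ] ℂ, (∀ a b, c (a * b) = c a * c b) ∧
      (∀ a, IsCompactOperator (π a - c a • ContinuousLinearMap.id ℂ E)) ∧
      ∀ a, IsCompactOperator (π a) → c a = 0 := by
  choose c hc using hcpt
  have hadd : ∀ a b, c (a + b) = c a + c b := fun a b => by
    refine ia_uniq hE (π (a + b)) _ _ (hc _) ?_
    have h2 := (hc a).add (hc b)
    have h3 : ((π a - c a • ContinuousLinearMap.id ℂ E : E →L[ℂ] E) : E → E) +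
        ((π b - c b • ContinuousLinearMap.id ℂ E : E →L[ℂ] E) : E → E) =
        ((π (a + b) - (c a + c b) • ContinuousLinearMap.id ℂ E : E →L[ℂ] E) : E → E) := by
      funext z
      simp only [Pi.add_apply, map_add, add_apply, sub_apply, smul_apply, id_apply, add_smul]
      abel
    rwa [h3] at h2
  have hsmul : ∀ (t : ℂ) a, c (t • a) = t * c a := fun t a => by
    refine ia_uniq hE (π (t • a)) _ _ (hc _) ?_
    have h2 := (hc a).clm_comp (t • ContinuousLinearMap.id ℂ E)
    have h3 : (t • ContinuousLinearMap.id ℂ E : E →L[ℂ] E) ∘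
        ((π a - c a • ContinuousLinearMap.id ℂ E : E →L[ℂ] E) : E → E) =
        ((π (t • a) - (t * c a) • ContinuousLinearMap.id ℂ E : E →L[ℂ] E) : E → E) := by
      funext z
      simp only [Function.comp_apply, map_smul, sub_apply, smul_apply, id_apply, smul_sub,
        mul_smul]
    rwa [h3] at h2
  have hmulc : ∀ a b, c (a * b) = c a * c b := fun a b => by
    refine ia_uniq hE (π (a * b)) _ _ (hc _) ?_
    have h2 := ((hc a).comp_clm (π b)).add ((hc b).clm_comp (c a • ContinuousLinearMap.id ℂ E))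
    have h3 : ((π a - c a • ContinuousLinearMap.id ℂ E : E →L[ℂ] E) : E → E) ∘ (π b) +
        (c a • ContinuousLinearMap.id ℂ E : E →L[ℂ] E) ∘
        ((π b - c b • ContinuousLinearMap.id ℂ E : E →L[ℂ] E) : E → E) =
        ((π (a * b) - (c a * c b) • ContinuousLinearMap.id ℂ E : E →L[ℂ] E) : E → E) := by
      funext z
      simp only [Pi.add_apply, Function.comp_apply, sub_apply, smul_apply, id_apply, smul_sub,
        mul_smul, hmul]
      abel
    rwa [h3] at h2
  have hn : ∀ a, ‖c a‖ ≤ ‖π‖ * ‖a‖ := fun a =>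
    (ia_le hE _ _ (hc a)).trans (π.le_opNorm a)
  let L : A →ₗ[ℂ] ℂ :=
    { toFun := c
      map_add' := hadd
      map_smul' := fun t a => hsmul t a }
  refine ⟨L.mkContinuous ‖π‖ hn, hmulc, hc, fun a ha => ?_⟩
  refine ia_uniq hE (π a) _ _ (hc a) ?_
  rw [zero_smul, sub_zero]
  exact ha

/-- rank one operators are compact -/
private theorem ib_rank_one (f : E →L[ℂ] ℂ) (y : E) : IsCompactOperator (f.smulRight y) := by
  have h1 : IsCompactOperator (f : E → ℂ) := isCompactOperator_of_locallyCompactSpace_dom f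
  have h2 := h1.clm_comp (ContinuousLinearMap.toSpanSingleton ℂ y)
  have h3 : (ContinuousLinearMap.toSpanSingleton ℂ y) ∘ (f : E → ℂ) =
      (f.smulRight y : E → E) := by
    funext z
    rfl
  rwa [h3] at h2

/-- closed graph theorem -/
private theorem ib_lift {X Z : Type u} [NormedAddCommGroup X] [NormedSpace ℂ X]
    [NormedAddCommGroup Z] [NormedSpace ℂ Z] [CompleteSpace X] (P : A →L[ℂ] Z)
    (hP : Function.Injective P) (Q : X →L[ℂ] Z) (h : ∀ x, ∃ a, P a = Q x) :
    ∃ S : X →L[ℂ] A, ∀ x, P (S x) = Q x := by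
  choose s hs using h
  let S : X →ₗ[ℂ] A :=
    { toFun := s
      map_add' := fun x y => hP (by rw [map_add, hs, hs, hs, map_add])
      map_smul' := fun t x => hP (by
        rw [RingHom.id_apply, map_smul, hs, hs, map_smul]) }
  have hgr : IsClosed (S.graph : Set (X × A)) := by
    have h1 : (S.graph : Set (X × A)) = {p | P p.2 = Q p.1} := by
      ext p
      rw [SetLike.mem_coe, LinearMap.mem_graph_iff]
      constructor
      · intro h
        show P p.2 = Q p.1
        rw [h]
        exact hs _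
      · intro h
        refine hP ?_
        show P p.2 = P (s p.1)
        rw [hs]
        exact h
    rw [h1]
    exact isClosed_eq (P.continuous.comp continuous_snd) (Q.continuous.comp continuous_fst)
  exact ⟨ContinuousLinearMap.ofIsClosedGraph hgr, hs⟩

/-- Module `ib`: the operator form. `s` and `uf` are bounded by the closed graph theorem. -/
theorem oper_data (hE : ¬ FiniteDimensional ℂ E) (π : A →L[ℂ] E →L[ℂ] E)
    (hmul : ∀ a b x, π (a * b) x = π a (π b x)) (hinj : Function.Injective π)
    (hcpt : ∀ a, ∃ t : ℂ, IsCompactOperator (π a - t • ContinuousLinearMap.id ℂ E))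
    (hone : ∀ (f : E →L[ℂ] ℂ) (y : E), ∃ a, ∀ x, π a x = f x • y) : Nonempty (CData A E) := by
  obtain ⟨c, hc1, hc2, hc3⟩ := exists_char hE π hmul hcpt
  obtain ⟨w, hw, -⟩ := exists_unit_ker hE ∅
  have hw0 : w ≠ 0 := fun h => by
    rw [h, norm_zero] at hw
    exact zero_ne_one hw
  obtain ⟨g, hg⟩ := SeparatingDual.exists_eq_one (R := ℂ) hw0
  obtain ⟨s, hs⟩ := ib_lift π hinj (ContinuousLinearMap.smulRightL ℂ E E g) fun y => by
    obtain ⟨a, ha⟩ := hone g y
    exact ⟨a, ContinuousLinearMap.ext ha⟩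
  obtain ⟨u, hu⟩ := ib_lift π hinj ((ContinuousLinearMap.smulRightL ℂ E E).flip w) fun f => by
    obtain ⟨a, ha⟩ := hone f w
    exact ⟨a, ContinuousLinearMap.ext ha⟩
  have hs' : ∀ y z, π (s y) z = g z • y := fun y z => by
    rw [hs]
    rfl
  have hu' : ∀ f z, π (u f) z = f z • w := fun f z => by
    rw [hu]
    rfl
  exact ⟨{
    aE := π
    aE_mul := hmul
    c := c
    c_mul := hc1
    cpt := hc2
    s := s
    g₀ := g
    aE_s := hs'
    mul_s := fun a y => hinj (ContinuousLinearMap.ext fun z => by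
      rw [hmul, hs', hs', map_smul])
    c_s := fun y => hc3 _ (by
      rw [hs]
      exact ib_rank_one g y)
    w₀ := w
    g₀_w₀ := hg
    v₀ := w
    h₀ := g
    h₀_v₀ := hg
    uf := u
    aE_uf := hu'
    c_uf := fun f => hc3 _ (by
      rw [hu]
      exact ib_rank_one f w)
    C := ‖u‖
    norm_uf := u.le_opNorm }⟩

/-- Module `ic`. -/
theorem mem_lid {e : A} (he : e * e = e) {x : A} : x ∈ lid e ↔ x * e = x := by
  constructor
  · rintro ⟨y, rfl⟩
    show y * e * e = y * e
    rw [mul_assoc, he]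
  · intro h
    exact ⟨x, h⟩

/-- Module `ic`. -/
theorem isClosed_lid {e : A} (he : e * e = e) : IsClosed (lid e : Set A) := by
  have h : (lid e : Set A) = {x | x * e = x} := by
    ext x
    exact mem_lid he
  rw [h]
  exact isClosed_eq (continuous_id.mul continuous_const) continuous_id

/-- Module `ic`: the action of `A` on `A e`. -/
theorem exists_act (e : A) :
    ∃ π : A →L[ℂ] lid e →L[ℂ] lid e, ∀ a x, ((π a x : lid e) : A) = a * x := by
  have hmem : ∀ (a : A) (x : lid e), a * (x : A) ∈ lid e := fun a x => by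
    obtain ⟨y, hy⟩ := x.2
    refine ⟨a * y, ?_⟩
    rw [← hy]
    show a * y * e = a * (y * e)
    rw [mul_assoc]
  refine ⟨LinearMap.mkContinuous₂
    (LinearMap.mk₂ ℂ (fun (a : A) (x : lid e) => (⟨a * (x : A), hmem a x⟩ : lid e))
      (fun a b x => Subtype.ext (add_mul a b (x : A)))
      (fun t a x => Subtype.ext (smul_mul_assoc t a (x : A)))
      (fun a x y => Subtype.ext (mul_add a (x : A) (y : A)))
      (fun t a x => Subtype.ext (mul_smul_comm t a (x : A)))) 1
    (fun a x => by
      rw [one_mul]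
      exact norm_mul_le a (x : A)), fun a x => rfl⟩

/-- Module `id`: `w₀ = v₀ = e`, `s` is the inclusion, `uf` from the open mapping theorem
(`ContinuousLinearMap.exists_preimage_norm_le` on the closed subspace
`{u | ∀ x ∈ A e, u * x = h₀ (u * x) • e}`). -/
theorem alg_data (e : A) (he0 : e ≠ 0) (he : e * e = e) (hmin : ∀ a, ∃ t : ℂ, e * a * e = t • e)
    (hinf : ¬ FiniteDimensional ℂ (lid e))
    (hfun : ∀ φ : lid e →L[ℂ] ℂ, ∃ u : A, ∀ x : lid e, u * (x : A) = φ x • e)
    (hcpt : ∀ a : A, ∃ (t : ℂ) (K : lid e →L[ℂ] lid e), IsCompactOperator K ∧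
      ∀ x : lid e, ((K x : lid e) : A) = a * (x : A) - t • (x : A)) :
    Nonempty (CData A (lid e)) := by
  obtain ⟨π, hπ⟩ := exists_act e
  have hcl : IsClosed (lid e : Set A) := isClosed_lid he
  have : CompleteSpace (lid e) := hcl.completeSpace_coe
  have heM : e ∈ lid e := (mem_lid he).2 he
  have hx : ∀ x : lid e, (x : A) * e = x := fun x => (mem_lid he).1 x.2
  have hmul : ∀ a b x, π (a * b) x = π a (π b x) := fun a b x => Subtype.ext (by
    rw [hπ, hπ, hπ, mul_assoc])
  have hcpt' : ∀ a, ∃ t : ℂ, IsCompactOperator (π a - t • ContinuousLinearMap.id ℂ (lid e)) :=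
    fun a => by
      obtain ⟨t, K, hK, h⟩ := hcpt a
      refine ⟨t, ?_⟩
      have h1 : π a - t • ContinuousLinearMap.id ℂ (lid e) = K :=
        ContinuousLinearMap.ext fun x => Subtype.ext (by
          rw [h x]
          show ((π a x : lid e) : A) - t • (x : A) = _
          rw [hπ])
      rw [h1]
      exact hK
  obtain ⟨c, hc1, hc2, hc3⟩ := exists_char hinf π hmul hcpt'
  -- the functional `g`
  have hg0 : ∀ x : lid e, ∃ t : ℂ, e * (x : A) = t • e := fun x => by
    obtain ⟨t, ht⟩ := hmin x
    refine ⟨t, ?_⟩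
    rw [← ht, mul_assoc, hx]
  choose g hg using hg0
  have hinj : ∀ t t' : ℂ, t • e = t' • e → t = t' := fun t t' h => by
    have h1 : (t - t') • e = 0 := by rw [sub_smul, h, sub_self]
    rcases smul_eq_zero.1 h1 with h2 | h2
    · exact sub_eq_zero.1 h2
    · exact absurd h2 he0
  have hgn : ∀ x : lid e, ‖g x‖ ≤ 1 * ‖x‖ := fun x => by
    have h1 : ‖g x‖ * ‖e‖ ≤ ‖e‖ * ‖x‖ := by
      rw [← norm_smul, ← hg]
      exact norm_mul_le e (x : A)
    have h2 : 0 < ‖e‖ := norm_pos_iff.2 he0
    rw [mul_comm] at h1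
    rw [one_mul]
    exact le_of_mul_le_mul_left h1 h2
  let L : lid e →ₗ[ℂ] ℂ :=
    { toFun := g
      map_add' := fun x y => hinj _ _ (by
        rw [← hg, add_smul, ← hg, ← hg]
        exact mul_add e (x : A) (y : A))
      map_smul' := fun t x => hinj _ _ (by
        rw [← hg, RingHom.id_apply, smul_eq_mul, mul_smul, ← hg]
        exact mul_smul_comm t e (x : A)) }
  let G : lid e →L[ℂ] ℂ := L.mkContinuous 1 hgn
  have hG : ∀ x : lid e, e * (x : A) = G x • e := hg
  let e' : lid e := ⟨e, heM⟩
  have hGe : G e' = 1 := hinj _ _ (by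
    rw [← hG, one_smul]
    exact he)
  have hs' : ∀ y z : lid e, π (y : A) z = G z • y := fun y z => Subtype.ext (by
    rw [hπ]
    show (y : A) * (z : A) = G z • (y : A)
    calc (y : A) * (z : A) = (y : A) * e * (z : A) := by rw [hx]
      _ = (y : A) * (e * (z : A)) := mul_assoc _ _ _
      _ = (y : A) * (G z • e) := by rw [hG]
      _ = G z • ((y : A) * e) := mul_smul_comm _ _ _
      _ = G z • (y : A) := by rw [hx])
  -- the elements acting as functionals
  let U : Submodule ℂ A :=
    { carrier := {u | ∀ x : lid e, π u x = G (π u x) • e'}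
      add_mem' := fun {u v} hu hv x => by
        rw [map_add, add_apply, map_add, add_smul, ← hu, ← hv]
      zero_mem' := fun x => by
        rw [map_zero, zero_apply, map_zero, zero_smul]
      smul_mem' := fun t u hu x => by
        rw [map_smul, smul_apply, map_smul, smul_eq_mul, mul_smul, ← hu] }
  have hU : IsClosed (U : Set A) := by
    have h1 : (U : Set A) = ⋂ x : lid e, {u | π u x = G (π u x) • e'} := by
      ext u
      rw [Set.mem_iInter]
      rfl
    rw [h1]
    refine isClosed_iInter fun x => isClosed_eq ?_ ?_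
    · exact (π.flip x).continuous
    · exact ((G.continuous.comp (π.flip x).continuous)).smul continuous_const
  have : CompleteSpace U := hU.completeSpace_coe
  let T : U →L[ℂ] (lid e →L[ℂ] ℂ) :=
    ((compL ℂ (lid e) (lid e) ℂ G).comp π).comp U.subtypeL
  have hT : ∀ (u : U) x, T u x = G (π (u : A) x) := fun u x => rfl
  have hTs : Function.Surjective T := fun φ => by
    obtain ⟨u, hu⟩ := hfun φ
    have h1 : ∀ x : lid e, π u x = φ x • e' := fun x => Subtype.ext (by
      rw [hπ, hu]
      rfl)
    have h2 : ∀ x : lid e, G (π u x) = φ x := fun x => by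
      rw [h1, map_smul, hGe, smul_eq_mul, mul_one]
    refine ⟨⟨u, fun x => ?_⟩, ?_⟩
    · rw [h2, h1]
    · refine ContinuousLinearMap.ext fun x => ?_
      rw [hT]
      exact h2 x
  obtain ⟨C, -, hC⟩ := ContinuousLinearMap.exists_preimage_norm_le
    (σ := RingHom.id ℂ) (σ' := RingHom.id ℂ) (E := U) (F := lid e →L[ℂ] ℂ) T hTs
  choose u hu1 hu2 using hC
  have hu : ∀ f z, π (u f : A) z = f z • e' := fun f z => by
    have h1 := (u f).2 z
    have h2 : G (π (u f : A) z) = f z := by
      rw [← hT, hu1]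
    rw [h1, h2]
  exact ⟨{
    aE := π
    aE_mul := hmul
    c := c
    c_mul := hc1
    cpt := hc2
    s := (lid e).subtypeL
    g₀ := G
    aE_s := hs'
    mul_s := fun a y => by
      show a * (y : A) = ((π a y : lid e) : A)
      rw [hπ]
    c_s := fun y => hc3 _ (by
      have h1 : π (y : A) = G.smulRight y := ContinuousLinearMap.ext (hs' y)
      show IsCompactOperator (π (y : A))
      rw [h1]
      exact ib_rank_one G y)
    w₀ := e'
    g₀_w₀ := hGe
    v₀ := e'
    h₀ := G
    h₀_v₀ := hGe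
    uf := fun f => (u f : A)
    aE_uf := hu
    c_uf := fun f => hc3 _ (by
      have h1 : π (u f : A) = f.smulRight e' := ContinuousLinearMap.ext (hu f)
      rw [h1]
      exact ib_rank_one f e')
    C := C
    norm_uf := hu2 }⟩

end Pool.Agent.CptDim
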