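import Pool.Agent.CptDim.Fib

/-!
# The Rosenthal argument (S) (text 1)
-/

set_option autoImplicit false
set_option linter.unusedSectionVars false

noncomputable section

namespace Pool.Agent.CptDim

universe u v

open ContinuousLinearMap Filter Topology
open Pool.Agent.MP_a77edb_an
open scoped ENNReal

variable {A E : Type u} [NonUnitalNormedRing A] [NormedSpace ℂ A]
  [NormedAddCommGroup E] [NormedSpace ℂ E] [CompleteSpace A] [IsScalarTower ℂ A A]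
  [SMulCommClass ℂ A A] [CompleteSpace E]

variable (x : Gam A → (E →L[ℂ] ℂ)) (y : Gam A → E) (M : ℝ)

open Classical in
/-- Module `ra`: the map `c ↦ (c_γ y_γ at (γ, x_γ), 0 elsewhere)` (see `CPsi.lean`, `Bx`; the
estimate `‖y γ‖ ≤ M` is used). -/
theorem exists_Bx (hM : 0 ≤ M) (hy : ∀ γ, ‖y γ‖ ≤ M) :
    ∃ B : LC (Gam A) →L[ℂ] Linf (Px A E) E, (∀ c, ‖B c‖ ≤ M * ‖c‖) ∧
      (∀ γ, B (indLC {γ}) = sgp ⟨γ, x γ⟩ (y γ)) := by
  have hb : ∀ (c : LC (Gam A)) (p : Px A E),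
      ‖(if p.snd = x p.fst then c p.fst • y p.fst else 0 : E)‖ ≤ M * ‖c‖ := fun c p => by
    split_ifs
    · rw [norm_smul, mul_comm]
      exact mul_le_mul (hy _) (lc_apply_le c _) (norm_nonneg _) hM
    · rw [norm_zero]
      positivity
  let L : LC (Gam A) →ₗ[ℂ] Linf (Px A E) E :=
    { toFun := fun c => ⟨fun p => if p.snd = x p.fst then c p.fst • y p.fst else 0,
        linf_mem (hb c)⟩
      map_add' := fun c c' => linf_ext fun p => by
        show (if p.snd = x p.fst then (c + c') p.fst • y p.fst else 0 : E) =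
          (if p.snd = x p.fst then c p.fst • y p.fst else 0) +
          (if p.snd = x p.fst then c' p.fst • y p.fst else 0)
        split_ifs
        · exact add_smul _ _ _
        · rw [add_zero]
      map_smul' := fun t c => linf_ext fun p => by
        show (if p.snd = x p.fst then (t • c) p.fst • y p.fst else 0 : E) =
          t • (if p.snd = x p.fst then c p.fst • y p.fst else 0)
        split_ifs
        · exact mul_smul _ _ _
        · rw [smul_zero] }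
  have hL : ∀ c, ‖L c‖ ≤ M * ‖c‖ := fun c =>
    lp.norm_le_of_forall_le (by positivity) (hb c)
  refine ⟨L.mkContinuous M hL, hL, fun γ => ?_⟩
  refine linf_ext fun p => ?_
  show (if p.snd = x p.fst then (indLC {γ}) p.fst • y p.fst else 0 : E) = _
  by_cases h : p = ⟨γ, x γ⟩
  · subst h
    rw [sgp_apply_self, if_pos rfl, indLC_apply, if_pos (Set.mem_singleton _), one_smul]
  · rw [sgp_apply_ne h]
    by_cases h1 : p.snd = x p.fst
    · have h2 : p.fst ≠ γ := fun h3 => h (by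
        obtain ⟨a, b⟩ := p
        simp only at h1 h3
        subst h3
        rw [h1])
      rw [if_pos h1, indLC_apply, if_neg (fun h' => h2 (Set.mem_singleton_iff.1 h')), zero_smul]
    · rw [if_neg h1]

private theorem rb_norm_slice (p : Px A E) (T : PT A (Z0 (Px A E))) :
    ‖PT.slice (ev p) T‖ ≤ ‖T‖ :=
  (PT.norm_slice_apply_le _ _).trans (mul_le_of_le_one_left (norm_nonneg _) (norm_ev_le p))

/-- Module `rb`, (S): see `CPsi.lean`, `NData.exists_small`. -/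
theorem small (ψ : A →L[ℂ] Linf (Px A E) E →L[ℂ] PT A (Z0 (Px A E))) {ι : Type u} (T : Finset ι)
    (a : ι → A) (y : ι → Gam A → E) {M : ℝ} (hM : 0 ≤ M) (hy : ∀ t γ, ‖y t γ‖ ≤ M) {ε : ℝ}
    (hε : 0 < ε) (γ₀ : Gam A) :
    ∃ γ, γ₀ ≤ γ ∧ ∀ t ∈ T, ‖Ps ψ ⟨γ, x γ⟩ (a t) (y t γ)‖ < ε := by
  classical
  by_contra hcon
  push Not at hcon
  obtain ⟨t₀, ht₀, -⟩ := hcon γ₀ le_rfl
  choose B hB1 hB2 using fun t => exists_Bx x (y t) M hM (hy t)
  -- the choice of `t`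
  have hj : ∀ γ, ∃ j, γ₀ ≤ γ → j ∈ T ∧ ε ≤ ‖Ps ψ ⟨γ, x γ⟩ (a j) (y j γ)‖ := by
    intro γ
    by_cases h : γ₀ ≤ γ
    · obtain ⟨j, h1, h2⟩ := hcon γ h
      exact ⟨j, fun _ => ⟨h1, h2⟩⟩
    · exact ⟨t₀, fun h' => absurd h' h⟩
  choose j hj using hj
  have hh : ∀ γ, ∃ h : A →L[ℂ] ℂ, ‖h‖ ≤ 1 ∧ h (Ps ψ ⟨γ, x γ⟩ (a (j γ)) (y (j γ) γ)) =
      ((‖Ps ψ ⟨γ, x γ⟩ (a (j γ)) (y (j γ) γ)‖ : ℝ) : ℂ) := fun γ => by
    obtain ⟨h, h1, h2⟩ := exists_dual_vector'' ℂ (Ps ψ ⟨γ, x γ⟩ (a (j γ)) (y (j γ) γ))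
    exact ⟨h, h1, h2⟩
  choose h hh1 hh2 using hh
  have hψ0 : 0 ≤ ‖ψ‖ := ContinuousLinearMap.opNorm_nonneg ψ
  let L : Gam A → (LC (Gam A) →L[ℂ] ℂ) := fun γ =>
    (h γ).comp ((PT.slice (ev ⟨γ, x γ⟩)).comp ((ψ (a (j γ))).comp (B (j γ))))
  have hL : ∀ γ c, L γ c = h γ (PT.slice (ev ⟨γ, x γ⟩) (ψ (a (j γ)) (B (j γ) c))) :=
    fun γ c => rfl
  have hLle : ∀ γ c, ‖L γ c‖ ≤ ‖PT.slice (ev ⟨γ, x γ⟩) (ψ (a (j γ)) (B (j γ) c))‖ := fun γ c => by
    rw [hL]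
    exact ((h γ).le_opNorm _).trans (mul_le_of_le_one_left (norm_nonneg _) (hh1 γ))
  -- a bound for the norms of `a t`
  obtain ⟨K, hK0, hK⟩ : ∃ K : ℝ, 0 ≤ K ∧ ∀ t ∈ T, ‖a t‖ ≤ K :=
    ⟨∑ t ∈ T, ‖a t‖, Finset.sum_nonneg fun _ _ => norm_nonneg _, fun t ht =>
      Finset.single_le_sum (f := fun t => ‖a t‖) (fun _ _ => norm_nonneg _) ht⟩
  have hLn : ∀ γ, γ₀ ≤ γ → ‖L γ‖ ≤ ‖ψ‖ * K * M := by
    intro γ hγ
    refine ContinuousLinearMap.opNorm_le_bound _ (by positivity) fun c => ?_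
    refine (hLle γ c).trans ?_
    refine (rb_norm_slice _ _).trans ?_
    refine (ψ.le_opNorm₂ _ _).trans ?_
    have h1 : ‖B (j γ) c‖ ≤ M * ‖c‖ := hB1 _ c
    have h2 := hK (j γ) (hj γ hγ).1
    calc ‖ψ‖ * ‖a (j γ)‖ * ‖B (j γ) c‖ ≤ ‖ψ‖ * K * (M * ‖c‖) := by gcongr
      _ = _ := by ring
  -- we use only the indices above `γ₀`
  let L' : Gam A → (LC (Gam A) →L[ℂ] ℂ) := fun γ => if γ₀ ≤ γ then L γ else 0
  have hL'n : ∀ γ, ‖L' γ‖ ≤ ‖ψ‖ * K * M := by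
    intro γ
    by_cases hγ : γ₀ ≤ γ
    · have : L' γ = L γ := if_pos hγ
      rw [this]
      exact hLn γ hγ
    · have : L' γ = 0 := if_neg hγ
      rw [this, norm_zero]
      positivity
  obtain ⟨S, hS, hSμ⟩ := rosenthal (Γ := Gam A) (fun x y => x ≤ y) (fun x => le_refl x)
    (fun x y z => le_trans) Idx.node (fun x y x' y' h => by simpa using h)
    (fun x y => Idx.le_node_left x y) (fun x y => Idx.le_node_right x y)
    (fun γ S => variation (L' γ) S) _ (fun γ S => variation_nonneg _ _)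
    (fun γ S => (variation_le (L' γ) S).trans (hL'n γ))
    (fun γ S S' hd => variation_add_le (L' γ) S S' hd) (ε := ε / 2) (by positivity)
  -- lower bound on S
  have hlow : ∀ γ ∈ S, γ₀ ≤ γ →
      ε / 2 ≤ ‖PT.slice (ev ⟨γ, x γ⟩) (ψ (a (j γ)) (B (j γ) (indLC S)))‖ := by
    intro γ hγ hγ₀
    refine le_trans ?_ (hLle γ _)
    rw [indLC_eq hγ, map_add]
    have hL' : L' γ = L γ := if_pos hγ₀
    have h1 : ‖L γ (indLC (S \ {γ}))‖ ≤ variation (L γ) (S \ {γ}) :=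
      le_variation _ (norm_indLC_le _) fun γ' hγ' => by rw [indLC_apply, if_neg hγ']
    have h2 : variation (L γ) (S \ {γ}) < ε / 2 := by
      have := hSμ γ hγ
      rwa [hL'] at this
    have h3 : L γ (indLC {γ}) = ((‖Ps ψ ⟨γ, x γ⟩ (a (j γ)) (y (j γ) γ)‖ : ℝ) : ℂ) := by
      rw [hL, hB2, ← Ps_apply]
      exact hh2 γ
    have h4 : ‖L γ (indLC {γ})‖ = ‖Ps ψ ⟨γ, x γ⟩ (a (j γ)) (y (j γ) γ)‖ := by
      rw [h3, Complex.norm_real, norm_norm]
    have h5 := (hj γ hγ₀).2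
    have h6 : ‖L γ (indLC {γ})‖ - ‖L γ (indLC (S \ {γ}))‖ ≤
        ‖L γ (indLC {γ}) + L γ (indLC (S \ {γ}))‖ := by
      have := norm_sub_norm_le (L γ (indLC {γ})) (-(L γ (indLC (S \ {γ}))))
      rwa [norm_neg, sub_neg_eq_add] at this
    linarith
  have hev : ∀ᶠ p : Px A E in atTop, ∀ i ∈ T,
      ‖PT.slice (ev p) (ψ (a i) (B i (indLC S)))‖ < ε / 2 := by
    rw [Filter.eventually_all_finset]
    intro i _
    exact NormedAddGroup.tendsto_nhds_zero.1 (tendsto_slice _) _ (by positivity)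
  obtain ⟨p₁, hp₁⟩ := eventually_atTop.1 hev
  obtain ⟨γ, hγM, hγ⟩ := hS (Idx.node γ₀ p₁.fst)
  have g0 : γ₀ ≤ γ := (Idx.le_node_left γ₀ p₁.fst).trans hγ
  have g1 : p₁.fst ≤ γ := (Idx.le_node_right γ₀ p₁.fst).trans hγ
  have h1 := hp₁ ⟨γ, x γ⟩ g1 (j γ) (hj γ g0).1
  have h2 := hlow γ hγM g0
  linarith

end Pool.Agent.CptDim
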