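import Pool.Agent.CptDim.Trk
import Pool.Agent.CptDim.Cpt
import Pool.Agent.CptDim.Cmb

/-!
# Successive choices; leaves; the vectors `uu` and the coefficients `hh`
-/

set_option autoImplicit false

noncomputable section

namespace Pool.Agent.CptDim

universe u v

open Filter Topology Finset

/-- Module `sa`: successive choices, the condition on the `n`-th choice depends only on the
preceding choices. -/
theorem seq_build {α : Type*} [Nonempty α] (R : ℕ → (ℕ → α) → α → Prop)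
    (hR : ∀ n (f f' : ℕ → α) (a : α), (∀ i < n, f i = f' i) → R n f a → R n f' a)
    (h : ∀ n f, (∀ i < n, R i f (f i)) → ∃ a, R n f a) :
    ∃ f : ℕ → α, ∀ n, R n f (f n) := by
  classical
  have key : ∀ (n : ℕ) (f : ℕ → α), ∃ a, (∀ i < n, R i f (f i)) → R n f a := fun n f => by
    by_cases hf : ∀ i < n, R i f (f i)
    · obtain ⟨a, ha⟩ := h n f hf
      exact ⟨a, fun _ => ha⟩
    · exact ⟨Classical.arbitrary α, fun h' => absurd h' hf⟩
  choose c hc using key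
  let g : ℕ → (ℕ → α) := fun n => Nat.rec (fun _ => Classical.arbitrary α)
    (fun k gk => Function.update gk k (c k gk)) n
  have hg : ∀ k, g (k + 1) = Function.update (g k) k (c k (g k)) := fun k => rfl
  have hst : ∀ k m i, i < k → g (k + m) i = g k i := by
    intro k m i hi
    induction m with
    | zero => rfl
    | succ m ih =>
      rw [← add_assoc, hg, Function.update_of_ne (by omega), ih]
  have hst' : ∀ k m i, i < k → k ≤ m → g m i = g k i := by
    intro k m i hi hm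
    obtain ⟨l, rfl⟩ := Nat.exists_eq_add_of_le hm
    exact hst k l i hi
  refine ⟨fun n => g (n + 1) n, fun n => ?_⟩
  have hagree : ∀ n i, i < n → g n i = g (i + 1) i := fun n i hi =>
    hst' (i + 1) n i (Nat.lt_succ_self i) hi
  have main : ∀ n, ∀ i < n, R i (g n) (g n i) := by
    intro n
    induction n with
    | zero => intro i hi; exact absurd hi (Nat.not_lt_zero i)
    | succ n ih =>
      intro i hi
      rcases Nat.lt_succ_iff_lt_or_eq.1 hi with h1 | h1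
      · have h2 := ih i h1
        have h3 : g (n + 1) i = g n i := hst' n (n + 1) i h1 (Nat.le_succ n)
        rw [h3]
        exact hR i (g n) (g (n + 1)) _ (fun j hj => (hst' n (n + 1) j (by omega)
          (Nat.le_succ n)).symm) h2
      · subst h1
        have h2 := hc i (g i) ih
        have h3 : g (i + 1) i = c i (g i) := by rw [hg, Function.update_self]
        rw [h3]
        exact hR i (g i) (g (i + 1)) _ (fun j hj => (hst' i (i + 1) j hj
          (Nat.le_succ i)).symm) h2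
  have h1 := main (n + 1) n (Nat.lt_succ_self n)
  exact hR n (g (n + 1)) _ _ (fun i hi => hagree (n + 1) i (by omega)) h1

variable {E : Type u} [NormedAddCommGroup E] [NormedSpace ℂ E]

/-- `W_up` in both directions at finitely many points. -/
private theorem sb_up (x : E) (k : ℕ) {δ : ℝ} (hδ : 0 < δ) :
    ∀ᶠ z in far E, W k (x + z) ≤ W (k + 1) x + δ ∧ W k (x - z) ≤ W (k + 1) x + δ := by
  have h1 := W_up k x hδ
  have h2 := eventually_far_neg h1
  filter_upwards [h1, h2] with z hz hz'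
  refine ⟨hz, ?_⟩
  rw [← sub_eq_add_neg] at hz'
  exact hz'

/-- Module `sb`: the choice of a leaf (`W_up`, `W_low`, `cpt_far`, `eventually_far_ball`). -/
theorem leaf (hE : ¬ FiniteDimensional ℂ E) (n : ℕ) (q : ℕ → (E →L[ℂ] E))
    (hq : ∀ j ≤ n, IsCompactOperator (q j)) (S : Finset E) (N k : ℕ) (X : E) {δ : ℝ}
    (hδ : 0 < δ) :
    ∃ z : E, ‖z‖ ≤ 1 ∧ (∀ j ≤ n, ‖q j z‖ ≤ δ) ∧
      (∀ x ∈ S, ∀ k' ≤ N, W k' (x + z) ≤ W (k' + 1) x + δ ∧ W k' (x - z) ≤ W (k' + 1) x + δ) ∧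
      W (k + 1) X - δ ≤ W k (X + z) := by
  have h1 : ∀ᶠ z in far E, ∀ j ∈ range (n + 1), ‖q j z‖ ≤ δ := by
    rw [Filter.eventually_all_finset]
    intro j hj
    exact cpt_far (q j) (hq j (by have := Finset.mem_range.1 hj; omega)) hδ
  have h2 : ∀ᶠ z in far E, ∀ x ∈ S, ∀ k' ∈ range (N + 1),
      W k' (x + z) ≤ W (k' + 1) x + δ ∧ W k' (x - z) ≤ W (k' + 1) x + δ := by
    rw [Filter.eventually_all_finset]
    intro x _
    rw [Filter.eventually_all_finset]
    intro k' _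
    exact sb_up x k' hδ
  have h3 := W_low hE k X hδ
  obtain ⟨z, hz1, hz2, hz3, hz4⟩ :=
    (h3.and_eventually (h1.and (h2.and eventually_far_ball))).exists
  exact ⟨z, hz4, fun j hj => hz2 j (Finset.mem_range.2 (by omega)),
    fun x hx k' hk' => hz3 x hx k' (Finset.mem_range.2 (by omega)), hz1⟩

/-- Module `sb`: a far unit vector with a norming functional. -/
theorem leaf_unit (hE : ¬ FiniteDimensional ℂ E) (n : ℕ) (q : ℕ → (E →L[ℂ] E))
    (hq : ∀ j ≤ n, IsCompactOperator (q j)) {δ : ℝ} (hδ : 0 < δ) :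
    ∃ (z : E) (g : E →L[ℂ] ℂ), ‖z‖ ≤ 1 ∧ ‖g‖ ≤ 1 ∧ g z = 1 ∧ ∀ j ≤ n, ‖q j z‖ ≤ δ := by
  have h1 : ∀ᶠ z in far E, ∀ j ∈ range (n + 1), ‖q j z‖ ≤ δ := by
    rw [Filter.eventually_all_finset]
    intro j hj
    exact cpt_far (q j) (hq j (by have := Finset.mem_range.1 hj; omega)) hδ
  obtain ⟨z, hz1, hz2⟩ := ((frequently_unit hE).and_eventually h1).exists
  obtain ⟨g, hg, hgz⟩ := exists_dual_vector'' ℂ z
  refine ⟨z, g, hz1.le, hg, ?_, fun j hj => hz2 j (Finset.mem_range.2 (by omega))⟩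
  rw [hgz, hz1]
  norm_num

/-- The vectors `u_j = ∑ i < N, e_ij z_i`. -/
def uu (N : ℕ) (z : ℕ → E) (j : ℕ) : E := ∑ i ∈ range N, ee i j • z i

/-- The coefficients `h_i (t) = ∑ 1 ≤ j < N, t_j e_ij`. -/
def hh (N : ℕ) (t : ℕ → ℤ) (i : ℕ) : ℤ := ∑ j ∈ Ico 1 N, t j * ee i j

/-- Module `sc`. -/
theorem sum_uu (N : ℕ) (z : ℕ → E) (t : ℕ → ℤ) :
    ∑ j ∈ Ico 1 N, t j • uu N z j = ∑ i ∈ range N, hh N t i • z i := by
  unfold uu hh
  simp only [Finset.smul_sum, Finset.sum_smul, smul_smul]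
  exact Finset.sum_comm

/-- Module `sc` (from (C2)). -/
theorem abs_hh_le (r : ℕ) (t : ℕ → ℤ) (ht : Sgn t) (i : ℕ) (hi : i < 2 ^ r) :
    |hh (2 ^ r) t i| ≤ r := by
  rw [← sum_abs_ee r i hi]
  unfold hh
  refine (Finset.abs_sum_le_sum_abs _ _).trans (le_of_eq ?_)
  refine Finset.sum_congr rfl fun j _ => ?_
  rw [abs_mul]
  rcases ht j with h | h <;> rw [h] <;> simp

/-- Module `sc` (Cauchy-Schwarz and (C1)). -/
theorem sum_abs_hh_le (r : ℕ) (t : ℕ → ℤ) (ht : Sgn t) :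
    ∑ i ∈ range (2 ^ r), |(hh (2 ^ r) t i : ℝ)| ≤ 2 ^ r * Real.sqrt r := by
  have h1 : ∑ i ∈ range (2 ^ r), |(hh (2 ^ r) t i : ℝ)| ^ 2 = 2 ^ r * r := by
    have := sum_sq_ee r t ht
    have h2 : ((∑ i ∈ range (2 ^ r), (hh (2 ^ r) t i) ^ 2 : ℤ) : ℝ) = ((2 ^ r * r : ℤ) : ℝ) := by
      exact_mod_cast this
    push_cast at h2
    simp only [sq_abs]
    exact h2
  have h3 : (∑ i ∈ range (2 ^ r), |(hh (2 ^ r) t i : ℝ)|) ^ 2 ≤ (2 ^ r * Real.sqrt r) ^ 2 := by
    have h4 := sq_sum_le_card_mul_sum_sq (s := range (2 ^ r))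
      (f := fun i => |(hh (2 ^ r) t i : ℝ)|)
    rw [h1, Finset.card_range] at h4
    refine h4.trans (le_of_eq ?_)
    rw [mul_pow, Real.sq_sqrt (Nat.cast_nonneg r)]
    push_cast
    ring
  exact le_of_sq_le_sq h3 (by positivity)

/-- Module `sd`. -/
theorem sum_hh_le (z : ℕ → E) (r : ℕ) (t : ℕ → ℤ) (ht : Sgn t) {δ K : ℝ} (hδ : 0 ≤ δ)
    (htr : Tracks 1 (2 ^ r) δ z)
    (hK : ∀ c : ℕ → ℕ, (∀ s, c s ≤ 2 ^ r) → (∀ s ∈ Icc 1 r, s ^ 2 * c s ≤ 2 ^ r * r) →
      ∑ s ∈ Icc 1 r, Lam E (c s) ≤ K * r * Lam E (2 ^ r)) :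
    ‖∑ i ∈ range (2 ^ r), hh (2 ^ r) t i • z i‖ ≤ K * r * Lam E (2 ^ r) + r * (2 ^ r * δ) := by
  have h1 := level z (2 ^ r) r δ (hh (2 ^ r) t) (fun i hi => abs_hh_le r t ht i hi)
    (fun c hc => by
      have := tracks_bound hδ htr c hc
      rwa [one_mul] at this)
  have h2 := hK (fun s => #{i ∈ range (2 ^ r) | (s : ℤ) ≤ |hh (2 ^ r) t i|})
    (fun s => (Finset.card_filter_le _ _).trans_eq (Finset.card_range _))
    (fun s _ => cheb (2 ^ r) (hh (2 ^ r) t) s (2 ^ r * r) (by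
      have := sum_sq_ee r t ht
      push_cast
      exact this.le))
  push_cast at h1
  linarith

end Pool.Agent.CptDim
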