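import Pool.Agent.CptDim.Defs

/-!
# Signs (text 1.1)
-/

set_option autoImplicit false

noncomputable section

namespace Pool.Agent.CptDim

open Finset

universe u

private theorem ga_max {V : Type u} [NormedAddCommGroup V] [NormedSpace ℂ V] (X Y : V) :
    ‖X‖ ≤ ‖X + Y‖ ∨ ‖X‖ ≤ ‖X - Y‖ := by
  by_contra hcon
  push Not at hcon
  have h1 : (X + Y) + (X - Y) = X + X := by abel
  have h2 := norm_add_le (X + Y) (X - Y)
  rw [h1] at h2
  have h3 : ‖X + X‖ = 2 * ‖X‖ := by
    rw [← two_smul ℂ X, norm_smul]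
    simp
  linarith [hcon.1, hcon.2]

/-- Module `ga`: induction on `J`; `‖a‖ ≤ max ‖a + b‖ ‖a - b‖`. -/
theorem sign_two {V : Type u} [NormedAddCommGroup V] [NormedSpace ℂ V] (J : Finset ℕ) (C : V)
    (M : ℕ → ℕ → V) :
    ∃ t : ℕ → ℤ, Sgn t ∧
      ‖C + ∑ i ∈ J, M i i‖ ≤ ‖C + ∑ i ∈ J, ∑ j ∈ J, (t i * t j) • M i j‖ := by
  classical
  induction J using Finset.induction_on generalizing C with
  | empty => exact ⟨fun _ => 1, fun _ => Or.inl rfl, by simp⟩
  | insert a J ha ih =>
    obtain ⟨t, ht, h⟩ := ih (C + M a a)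
    rw [Finset.sum_insert ha, ← add_assoc]
    set X : V := C + M a a + ∑ i ∈ J, ∑ j ∈ J, (t i * t j) • M i j with hX
    set Y : V := (∑ j ∈ J, t j • M a j) + ∑ i ∈ J, t i • M i a with hY
    -- the general formula
    have key : ∀ s : ℤ, s = 1 ∨ s = -1 →
        C + ∑ i ∈ insert a J, ∑ j ∈ insert a J,
          ((Function.update t a s) i * (Function.update t a s) j) • M i j = X + s • Y := by
      intro s hs
      have hss : s * s = 1 := by rcases hs with rfl | rfl <;> norm_num
      have hne : ∀ i ∈ J, i ≠ a := fun i hi h => ha (h ▸ hi)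
      have e1 : ∀ i ∈ J, ∑ j ∈ insert a J,
          ((Function.update t a s) i * (Function.update t a s) j) • M i j =
          s • (t i • M i a) + ∑ j ∈ J, (t i * t j) • M i j := by
        intro i hi
        rw [Finset.sum_insert ha, Function.update_self, Function.update_of_ne (hne i hi)]
        congr 1
        · rw [smul_smul, mul_comm]
        · refine Finset.sum_congr rfl fun j hj => ?_
          rw [Function.update_of_ne (hne j hj)]
      rw [Finset.sum_insert ha, Finset.sum_congr rfl e1, Finset.sum_insert ha,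
        Function.update_self, hss, one_smul, Finset.sum_add_distrib, hX, hY, smul_add]
      have e2 : ∑ j ∈ J, (s * (Function.update t a s) j) • M a j = s • ∑ j ∈ J, t j • M a j := by
        rw [Finset.smul_sum]
        refine Finset.sum_congr rfl fun j hj => ?_
        rw [Function.update_of_ne (hne j hj), smul_smul]
      rw [e2, ← Finset.smul_sum]
      abel
    have hup : ∀ s : ℤ, s = 1 ∨ s = -1 → Sgn (Function.update t a s) := by
      intro s hs j
      by_cases hj : j = a
      · subst hj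
        rw [Function.update_self]
        exact hs
      · rw [Function.update_of_ne hj]
        exact ht j
    rcases ga_max X Y with h1 | h1
    · refine ⟨Function.update t a 1, hup 1 (Or.inl rfl), h.trans ?_⟩
      rw [key 1 (Or.inl rfl), one_smul]
      exact h1
    · refine ⟨Function.update t a (-1), hup (-1) (Or.inr rfl), h.trans ?_⟩
      rw [key (-1) (Or.inr rfl), neg_one_smul, ← sub_eq_add_neg]
      exact h1

/-- Module `gb`: `sign_two` twice. -/
theorem sign_three {V : Type u} [NormedAddCommGroup V] [NormedSpace ℂ V] (J : Finset ℕ)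
    (M : ℕ → ℕ → ℕ → V) :
    ∃ t t' : ℕ → ℤ, Sgn t ∧ Sgn t' ∧ ‖∑ i ∈ J, M i i i‖ ≤
      ‖∑ i ∈ J, ∑ j ∈ J, ∑ k ∈ J, (t i * t' i * t j * t' k) • M i j k‖ := by
  obtain ⟨t, ht, h1⟩ := sign_two J 0 (fun i j => M i j i)
  obtain ⟨t', ht', h2⟩ := sign_two J 0 (fun i k => ∑ j ∈ J, (t i * t j) • M i j k)
  refine ⟨t, t', ht, ht', ?_⟩
  simp only [zero_add] at h1 h2
  refine h1.trans (h2.trans (le_of_eq ?_))
  congr 1
  refine Finset.sum_congr rfl fun i _ => ?_
  rw [Finset.sum_comm' (t' := J) (s' := fun _ => J) (by simp)]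
  refine Finset.sum_congr rfl fun k _ => ?_
  rw [Finset.smul_sum]
  refine Finset.sum_congr rfl fun j _ => ?_
  rw [smul_smul]
  congr 1
  ring

private theorem gc_real (J : Finset ℕ) (w : ℕ → ℝ) (B : ℝ)
    (h : ∀ t : ℕ → ℤ, Sgn t → |∑ j ∈ J, (t j : ℝ) * w j| ≤ B) : ∑ j ∈ J, |w j| ≤ B := by
  have h1 := h (fun j => if 0 ≤ w j then 1 else -1) (fun j => by
    by_cases hj : 0 ≤ w j
    · simp [hj]
    · simp [hj])
  refine le_trans (le_of_eq ?_) ((le_abs_self _).trans h1)
  refine Finset.sum_congr rfl fun j _ => ?_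
  by_cases hj : 0 ≤ w j
  · simp [hj, abs_of_nonneg hj]
  · push Not at hj
    simp [not_le.2 hj, abs_of_neg hj]

/-- Module `gc`: real and imaginary parts. -/
theorem sum_norm_le_signs (J : Finset ℕ) (w : ℕ → ℂ) (B : ℝ)
    (h : ∀ t : ℕ → ℤ, Sgn t → ‖∑ j ∈ J, t j • w j‖ ≤ B) : ∑ j ∈ J, ‖w j‖ ≤ 2 * B := by
  have h1 : ∑ j ∈ J, |(w j).re| ≤ B := gc_real J _ B fun t ht => by
    refine le_trans (le_of_eq ?_) ((Complex.abs_re_le_norm _).trans (h t ht))
    rw [Complex.re_sum]
    congr 1
    refine Finset.sum_congr rfl fun j _ => ?_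
    rw [zsmul_eq_mul]
    simp
  have h2 : ∑ j ∈ J, |(w j).im| ≤ B := gc_real J _ B fun t ht => by
    refine le_trans (le_of_eq ?_) ((Complex.abs_im_le_norm _).trans (h t ht))
    rw [Complex.im_sum]
    congr 1
    refine Finset.sum_congr rfl fun j _ => ?_
    rw [zsmul_eq_mul]
    simp
  calc ∑ j ∈ J, ‖w j‖ ≤ ∑ j ∈ J, (|(w j).re| + |(w j).im|) :=
        Finset.sum_le_sum fun j _ => Complex.norm_le_abs_re_add_abs_im _
    _ ≤ 2 * B := by
        rw [Finset.sum_add_distrib]
        linarith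

end Pool.Agent.CptDim
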