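import Pool.Agent.CptDim.Lid

/-!
# Definitions used in the statements
-/

set_option autoImplicit false

namespace Pool.Agent.CptDim

universe u

section Alg

variable {A : Type u} [NonUnitalNormedRing A] [NormedSpace ℂ A]

/-- `e` is a minimal idempotent: `e ≠ 0`, `e² = e` and `e A e = ℂ e`. -/
def MinIdem (e : A) : Prop := e ≠ 0 ∧ e * e = e ∧ ∀ a : A, ∃ t : ℂ, e * a * e = t • e

/-- Every bounded functional on the left ideal `A e` is given by an element `u` of `A`: for every
bounded functional `φ` on `A` there is `u` with `u y = φ(y) e` for all `y ∈ A e`. -/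
def GivesFunctionals (e : A) : Prop :=
  ∀ φ : A →L[ℂ] ℂ, ∃ u : A, ∀ x : A, u * (x * e) = φ (x * e) • e

/-- `y ↦ a y - t y` is a compact operator on the left ideal `A e`: it maps the unit ball of `A e`
into a compact set. -/
def CompactOn (e a : A) (t : ℂ) : Prop :=
  ∃ K : Set A, IsCompact K ∧ ∀ x : A, ‖x * e‖ ≤ 1 → a * (x * e) - t • (x * e) ∈ K

end Alg

section Oper

variable {E : Type u} [NormedAddCommGroup E] [NormedSpace ℂ E]

/-- `T` is a scalar plus a compact operator: for some `t` the map `x ↦ T x - t x` maps the unit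
ball into a compact set. -/
def ScalarPlusCompact (T : E → E) : Prop :=
  ∃ (t : ℂ) (K : Set E), IsCompact K ∧ ∀ x : E, ‖x‖ ≤ 1 → T x - t • x ∈ K

end Oper

end Pool.Agent.CptDim
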