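import Pool.Agent.CptDim.Val

/-!
# Signed partial sums and control from above (text 2, (UT), and 3, (LD))
-/

set_option autoImplicit false

noncomputable section

namespace Pool.Agent.CptDim

universe u v

open Filter Topology Finset

variable {E : Type u} [NormedAddCommGroup E] [NormedSpace ℂ E]

/-- Module `ta`. -/
theorem mem_Sg (Z : ℕ → E) (c : ℕ → ℤ) (hc : Tri c) (i : ℕ) :
    ∑ j ∈ range i, c j • Z j ∈ Sg Z i := by
  classical
  induction i with
  | zero => simp [Sg]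
  | succ i ih =>
    rw [sum_range_succ, Sg]
    rcases hc i with h | h | h
    · rw [h, zero_smul, add_zero]
      exact mem_union_left _ ih
    · rw [h, one_smul]
      exact mem_union_right _ (mem_union_left _ (mem_image_of_mem _ ih))
    · rw [h, neg_smul, one_smul, ← sub_eq_add_neg]
      exact mem_union_right _ (mem_union_right _ (mem_image_of_mem (fun x => x - Z i) ih))

/-- Module `ta`. -/
theorem Sg_congr (Z Z' : ℕ → E) (i : ℕ) (h : ∀ j < i, Z j = Z' j) : Sg Z i = Sg Z' i := by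
  induction i with
  | zero => rfl
  | succ i ih =>
    rw [Sg, Sg, ih fun j hj => h j (Nat.lt_succ_of_lt hj), h i (Nat.lt_succ_self i)]

private theorem tb_aux {m N : ℕ} {δ : ℝ} (hδ : 0 ≤ δ) {Z : ℕ → E} (h : Tracks m N δ Z)
    (c : ℕ → ℤ) (hc : Tri c) (i : ℕ) (hi : i ≤ N) :
    ∀ k : ℕ, k + m * #{j ∈ range i | c j ≠ 0} ≤ N * m →
      W k (∑ j ∈ range i, c j • Z j) ≤ Lam E (k + m * #{j ∈ range i | c j ≠ 0}) + i * δ := by
  induction i with
  | zero =>
    intro k _
    simp [Lam]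
  | succ i ih =>
    intro k hk
    have hiN : i < N := hi
    have hx := mem_Sg Z c hc i
    have hcard : c i ≠ 0 → #{j ∈ range (i + 1) | c j ≠ 0} = #{j ∈ range i | c j ≠ 0} + 1 := by
      intro h0
      rw [range_add_one, filter_insert, if_pos h0, card_insert_of_notMem]
      simp
    have hcard0 : c i = 0 → #{j ∈ range (i + 1) | c j ≠ 0} = #{j ∈ range i | c j ≠ 0} := by
      intro h0
      rw [range_add_one, filter_insert, if_neg (not_not.mpr h0)]
    rw [sum_range_succ]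
    push_cast
    by_cases h0 : c i = 0
    · rw [hcard0 h0] at hk ⊢
      rw [h0, zero_smul, add_zero]
      have := ih hiN.le k hk
      linarith
    · rw [hcard h0] at hk ⊢
      have hk' : (k + m) + m * #{j ∈ range i | c j ≠ 0} ≤ N * m := by
        calc _ = k + m * (#{j ∈ range i | c j ≠ 0} + 1) := by ring
          _ ≤ _ := hk
      have hkN : k ≤ N * m := le_trans (Nat.le_add_right _ _) hk
      have h1 := ih hiN.le (k + m) hk'
      have e1 : (k + m) + m * #{j ∈ range i | c j ≠ 0} =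
          k + m * (#{j ∈ range i | c j ≠ 0} + 1) := by ring
      rw [e1] at h1
      obtain ⟨h2, h3⟩ := h i hiN _ hx k hkN
      rcases hc i with h4 | h4 | h4
      · exact absurd h4 h0
      · rw [h4, one_smul]
        linarith
      · rw [h4, neg_smul, one_smul, ← sub_eq_add_neg]
        linarith

/-- Module `tb`, (UT): telescope from the last vector to the first. -/
theorem tracks_bound {m N : ℕ} {δ : ℝ} (hδ : 0 ≤ δ) {Z : ℕ → E} (h : Tracks m N δ Z) (c : ℕ → ℤ)
    (hc : Tri c) :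
    ‖∑ i ∈ range N, c i • Z i‖ ≤ Lam E (m * #{i ∈ range N | c i ≠ 0}) + N * δ := by
  have key := tb_aux hδ h c hc N le_rfl 0 (by
    rw [zero_add, Nat.mul_comm N m]
    exact Nat.mul_le_mul_left m ((card_filter_le _ _).trans (card_range N).le))
  rw [zero_add] at key
  exact key

private theorem tc_sum (a : ℤ) (r : ℕ) (ha : |a| ≤ r) :
    ∑ s ∈ Icc 1 r, (if (s : ℤ) ≤ |a| then a.sign else 0) = a := by
  have h1 : (Icc 1 r).filter (fun s : ℕ => (s : ℤ) ≤ |a|) = Icc 1 a.natAbs := by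
    ext s
    simp only [mem_filter, mem_Icc, Int.abs_eq_natAbs] at ha ⊢
    omega
  rw [← sum_filter, h1, sum_const, Nat.card_Icc, nsmul_eq_mul, Nat.add_sub_cancel]
  rw [mul_comm]
  exact Int.sign_mul_natAbs a

/-- Module `tc`, (LD): `h i = ∑ s ∈ Icc 1 r, sign (h i) * 1_{s ≤ |h i|}`. -/
theorem level (Z : ℕ → E) (N r : ℕ) (δ : ℝ) (h : ℕ → ℤ) (hr : ∀ i < N, |h i| ≤ r)
    (hz : ∀ c : ℕ → ℤ, Tri c →
      ‖∑ i ∈ range N, c i • Z i‖ ≤ Lam E #{i ∈ range N | c i ≠ 0} + N * δ) :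
    ‖∑ i ∈ range N, h i • Z i‖ ≤
      ∑ s ∈ Icc 1 r, Lam E #{i ∈ range N | (s : ℤ) ≤ |h i|} + r * (N * δ) := by
  classical
  set c : ℕ → ℕ → ℤ := fun s i => if (s : ℤ) ≤ |h i| then (h i).sign else 0 with hcdef
  have hTri : ∀ s, Tri (c s) := by
    intro s i
    simp only [hcdef]
    split_ifs
    · rcases lt_trichotomy (h i) 0 with h1 | h1 | h1
      · right; right; exact Int.sign_eq_neg_one_of_neg h1
      · left; rw [h1]; rfl
      · right; left; exact Int.sign_eq_one_of_pos h1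
    · left; rfl
  have hsum : ∑ i ∈ range N, h i • Z i = ∑ s ∈ Icc 1 r, ∑ i ∈ range N, c s i • Z i := by
    rw [sum_comm]
    refine sum_congr rfl fun i hi => ?_
    rw [← sum_smul, ← tc_sum (h i) r (hr i (mem_range.mp hi))]
  rw [hsum]
  calc ‖∑ s ∈ Icc 1 r, ∑ i ∈ range N, c s i • Z i‖
      ≤ ∑ s ∈ Icc 1 r, ‖∑ i ∈ range N, c s i • Z i‖ := norm_sum_le _ _
    _ ≤ ∑ s ∈ Icc 1 r, (Lam E #{i ∈ range N | (s : ℤ) ≤ |h i|} + N * δ) := by
        refine sum_le_sum fun s hs => ?_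
        have h1 := hz (c s) (hTri s)
        have h2 : {i ∈ range N | c s i ≠ 0} = {i ∈ range N | (s : ℤ) ≤ |h i|} := by
          refine filter_congr fun i _ => ?_
          have hs1 : (1 : ℤ) ≤ s := by exact_mod_cast (mem_Icc.mp hs).1
          simp only [hcdef]
          constructor
          · intro h3
            by_contra h4
            rw [if_neg h4] at h3
            exact h3 rfl
          · intro h3
            rw [if_pos h3]
            intro h5
            have h6 : h i = 0 := Int.sign_eq_zero_iff_zero.mp h5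
            rw [h6, abs_zero] at h3
            omega
        rw [h2] at h1
        exact h1
    _ = _ := by
        rw [sum_add_distrib, sum_const, Nat.card_Icc, nsmul_eq_mul, Nat.add_sub_cancel]

/-- Module `td`: Chebyshev. -/
theorem cheb (N : ℕ) (h : ℕ → ℤ) (s : ℕ) (M : ℕ) (hM : ∑ i ∈ range N, (h i) ^ 2 ≤ M) :
    s ^ 2 * #{i ∈ range N | (s : ℤ) ≤ |h i|} ≤ M := by
  have h1 : (s : ℤ) ^ 2 * (#{i ∈ range N | (s : ℤ) ≤ |h i|} : ℤ) ≤ ∑ i ∈ range N, (h i) ^ 2 := by
    calc (s : ℤ) ^ 2 * (#{i ∈ range N | (s : ℤ) ≤ |h i|} : ℤ)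
        = ∑ i ∈ range N with (s : ℤ) ≤ |h i|, (s : ℤ) ^ 2 := by
          rw [sum_const, nsmul_eq_mul, mul_comm]
      _ ≤ ∑ i ∈ range N with (s : ℤ) ≤ |h i|, (h i) ^ 2 := by
          refine sum_le_sum fun i hi => ?_
          have h2 := (mem_filter.mp hi).2
          rw [← sq_abs (h i)]
          exact pow_le_pow_left₀ (by positivity) h2 2
      _ ≤ ∑ i ∈ range N, (h i) ^ 2 :=
          sum_le_sum_of_subset_of_nonneg (filter_subset _ _) fun i _ _ => sq_nonneg _
  have h3 : (s : ℤ) ^ 2 * (#{i ∈ range N | (s : ℤ) ≤ |h i|} : ℤ) ≤ (M : ℤ) := h1.trans hM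
  exact_mod_cast h3

/-- Module `td`: the growth estimate of Case 2 (a statement about sequences of numbers).
`B = 2 / κ`, `n₀`, and `r₀ ≥ 4 * n₀ / κ ^ 2`: the levels `s ≤ κ * r / 2` contribute at most
`κ * r / 2 * L N`, for the others `n₀ * c s ≤ N`. -/
theorem growth (L : ℕ → ℝ) (h0 : L 0 = 0) (hmono : Monotone L)
    (hL : ∀ B : ℝ, ∃ n₀ : ℕ, ∀ m, 1 ≤ m → B * L m ≤ L (n₀ * m)) {κ : ℝ} (hκ : 0 < κ) :
    ∃ r₀ : ℕ, ∀ r, r₀ ≤ r → ∀ (N : ℕ) (c : ℕ → ℕ), (∀ s, c s ≤ N) →
      (∀ s ∈ Icc 1 r, s ^ 2 * c s ≤ N * r) → ∑ s ∈ Icc 1 r, L (c s) ≤ κ * r * L N := by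
  obtain ⟨n₀, hn₀⟩ := hL (2 / κ)
  refine ⟨⌈4 * n₀ / κ ^ 2⌉₊ + 1, fun r hr N c hcN hc => ?_⟩
  have hLN : 0 ≤ L N := h0 ▸ hmono (Nat.zero_le N)
  have hrR : 4 * n₀ / κ ^ 2 ≤ r := by
    refine (Nat.le_ceil _).trans ?_
    exact_mod_cast (Nat.le_succ _).trans hr
  have hr0 : (0 : ℝ) < r := by
    have : 1 ≤ r := le_trans (Nat.le_add_left 1 _) hr
    exact_mod_cast this
  have hr4 : (4 : ℝ) * n₀ ≤ r * κ ^ 2 := by
    rwa [div_le_iff₀ (by positivity)] at hrR
  have hpt : ∀ s ∈ Icc 1 r, L (c s) ≤ κ / 2 * L N + if (s : ℝ) ≤ κ * r / 2 then L N else 0 := by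
    intro s hs
    by_cases h1 : (s : ℝ) ≤ κ * r / 2
    · rw [if_pos h1]
      have h2 := hmono (hcN s)
      have h3 : 0 ≤ κ / 2 * L N := by positivity
      linarith
    · rw [if_neg h1, add_zero]
      rcases Nat.eq_zero_or_pos (c s) with h2 | h2
      · rw [h2, h0]
        positivity
      · have h3 : n₀ * c s ≤ N := by
          have h4 := hc s hs
          have h5 : ((s : ℝ)) ^ 2 * c s ≤ N * r := by exact_mod_cast h4
          have h6 : (κ * r / 2) ^ 2 ≤ (s : ℝ) ^ 2 :=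
            pow_le_pow_left₀ (by positivity) (not_le.mp h1).le 2
          have h7 : (κ * r / 2) ^ 2 * c s ≤ N * r :=
            (mul_le_mul_of_nonneg_right h6 (Nat.cast_nonneg _)).trans h5
          have h8 : (n₀ : ℝ) * c s * r ≤ N * r := by
            refine le_trans ?_ h7
            have h9 : (0 : ℝ) ≤ (c s : ℝ) * r / 4 := by positivity
            have h10 := mul_le_mul_of_nonneg_right hr4 h9
            calc (n₀ : ℝ) * c s * r = 4 * n₀ * (c s * r / 4) := by ring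
              _ ≤ r * κ ^ 2 * (c s * r / 4) := h10
              _ = _ := by ring
          have h11 : (n₀ : ℝ) * c s ≤ N := le_of_mul_le_mul_right h8 hr0
          exact_mod_cast h11
        have h4 := (hn₀ (c s) h2).trans (hmono h3)
        have h5 : L (c s) = κ / 2 * (2 / κ * L (c s)) := by
          field_simp
        rw [h5]
        exact mul_le_mul_of_nonneg_left h4 (by positivity)
  have hcount : (#{s ∈ Icc 1 r | ((s : ℕ) : ℝ) ≤ κ * r / 2} : ℝ) ≤ κ * r / 2 := by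
    have h1 : {s ∈ Icc 1 r | ((s : ℕ) : ℝ) ≤ κ * r / 2} ⊆ Icc 1 ⌊κ * r / 2⌋₊ := by
      intro s hs
      obtain ⟨h2, h3⟩ := mem_filter.mp hs
      exact mem_Icc.mpr ⟨(mem_Icc.mp h2).1, Nat.le_floor h3⟩
    have h2 := card_le_card h1
    rw [Nat.card_Icc, Nat.add_sub_cancel] at h2
    have h3 : ((⌊κ * r / 2⌋₊ : ℕ) : ℝ) ≤ κ * r / 2 := Nat.floor_le (by positivity)
    exact (Nat.cast_le.mpr h2).trans h3
  calc ∑ s ∈ Icc 1 r, L (c s)
      ≤ ∑ s ∈ Icc 1 r, (κ / 2 * L N + if (s : ℝ) ≤ κ * r / 2 then L N else 0) :=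
        sum_le_sum hpt
    _ = r * (κ / 2 * L N) + #{s ∈ Icc 1 r | ((s : ℕ) : ℝ) ≤ κ * r / 2} * L N := by
        rw [sum_add_distrib, sum_const, Nat.card_Icc, nsmul_eq_mul, Nat.add_sub_cancel,
          ← sum_filter, sum_const, nsmul_eq_mul]
    _ ≤ r * (κ / 2 * L N) + κ * r / 2 * L N := by
        have := mul_le_mul_of_nonneg_right hcount hLN
        linarith
    _ = κ * r * L N := by ring

end Pool.Agent.CptDim
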