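import Pool.Agent.CptDim.Far

/-!
# The game values (text 2)
-/

set_option autoImplicit false

noncomputable section

namespace Pool.Agent.CptDim

universe u v

open Filter Topology

variable {E : Type u} [NormedAddCommGroup E] [NormedSpace ℂ E]

private theorem va_bot (h : far E = ⊥) {n : ℕ} {x : E} :
    sInf {r : ℝ | ∀ᶠ z in far E, W n (x + z) ≤ r} = 0 := by
  have h1 : {r : ℝ | ∀ᶠ z in far E, W n (x + z) ≤ r} = Set.univ := by
    refine Set.eq_univ_of_forall fun r => ?_
    change ∀ᶠ z in far E, W n (x + z) ≤ r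
    rw [h]
    exact eventually_bot
  rw [h1]
  exact Real.sInf_of_not_bddBelow not_bddBelow_univ

private theorem va_lb [h : (far E).NeBot] {n : ℕ} {x : E} (h0 : ∀ y : E, 0 ≤ W n y) :
    ∀ r ∈ {r : ℝ | ∀ᶠ z in far E, W n (x + z) ≤ r}, 0 ≤ r := by
  intro r hr
  have hr' : ∀ᶠ z in far E, W n (x + z) ≤ r := hr
  obtain ⟨z, hz⟩ := hr'.exists
  exact (h0 _).trans hz

private theorem va_succ_le [h : (far E).NeBot] {n : ℕ} {x : E} (h0 : ∀ y : E, 0 ≤ W n y) {r : ℝ}
    (hr : ∀ᶠ z in far E, W n (x + z) ≤ r) : W (n + 1) x ≤ r := by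
  rw [W]
  exact csInf_le ⟨0, va_lb h0⟩ hr

/-- Module `va`: basic properties of the values, proved together by induction on `n`. -/
theorem W_nonneg (n : ℕ) (x : E) : 0 ≤ W n x := by
  induction n generalizing x with
  | zero => exact norm_nonneg x
  | succ n ih =>
    rw [W]
    rcases eq_or_neBot (far E) with h | h
    · rw [va_bot h]
    · exact Real.sInf_nonneg (va_lb fun y => ih y)

/-- Module `va`. -/
theorem W_le (n : ℕ) (x : E) : W n x ≤ ‖x‖ + n := by
  induction n generalizing x with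
  | zero =>
    change ‖x‖ ≤ ‖x‖ + ((0 : ℕ) : ℝ)
    rw [Nat.cast_zero, add_zero]
  | succ n ih =>
    rcases eq_or_neBot (far E) with h | h
    · rw [W, va_bot h]
      positivity
    · refine va_succ_le (fun y => W_nonneg n y) ?_
      filter_upwards [eventually_far_ball (E := E)] with z hz
      have h1 := ih (x + z)
      have h2 := norm_add_le x z
      push_cast
      linarith

/-- Module `va`: upper estimate, eventually. -/
theorem W_up (n : ℕ) (x : E) {δ : ℝ} (hδ : 0 < δ) :
    ∀ᶠ z in far E, W n (x + z) ≤ W (n + 1) x + δ := by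
  rcases eq_or_neBot (far E) with h | h
  · rw [h]
    exact eventually_bot
  · have hne : {r : ℝ | ∀ᶠ z in far E, W n (x + z) ≤ r}.Nonempty := by
      refine ⟨‖x‖ + 1 + n, ?_⟩
      change ∀ᶠ z in far E, W n (x + z) ≤ ‖x‖ + 1 + n
      filter_upwards [eventually_far_ball (E := E)] with z hz
      have h1 := W_le n (x + z)
      have h2 := norm_add_le x z
      linarith
    obtain ⟨r, hr, hlt⟩ := Real.lt_sInf_add_pos hne hδ
    have hr' : ∀ᶠ z in far E, W n (x + z) ≤ r := hr
    filter_upwards [hr'] with z hz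
    rw [W]
    exact hz.trans hlt.le

/-- Module `va`: lower estimate, frequently. -/
theorem W_low (hE : ¬ FiniteDimensional ℂ E) (n : ℕ) (x : E) {δ : ℝ} (hδ : 0 < δ) :
    ∃ᶠ z in far E, W (n + 1) x - δ ≤ W n (x + z) := by
  have := far_neBot hE
  intro h
  have h1 : ∀ᶠ z in far E, W n (x + z) ≤ W (n + 1) x - δ := by
    filter_upwards [h] with z hz
    exact (not_le.mp hz).le
  have h2 := va_succ_le (fun y => W_nonneg n y) h1
  linarith

/-- Module `vb`. -/
theorem W_lip (hE : ¬ FiniteDimensional ℂ E) (n : ℕ) (x y : E) : W n x ≤ W n y + ‖x - y‖ := by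
  have := far_neBot hE
  induction n generalizing x y with
  | zero =>
    change ‖x‖ ≤ ‖y‖ + ‖x - y‖
    have := norm_add_le y (x - y)
    rwa [add_sub_cancel] at this
  | succ n ih =>
    refine le_of_forall_pos_le_add fun δ hδ => ?_
    refine va_succ_le (fun y => W_nonneg n y) ?_
    filter_upwards [W_up n y hδ] with z hz
    have h1 := ih (x + z) (y + z)
    rw [add_sub_add_right_eq_sub] at h1
    linarith

/-- Module `vb`. -/
theorem W_neg (n : ℕ) (x : E) : W n (-x) = W n x := by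
  induction n generalizing x with
  | zero => exact norm_neg x
  | succ n ih =>
    have key : ∀ (y : E) (r : ℝ), (∀ᶠ z in far E, W n (y + z) ≤ r) →
        ∀ᶠ z in far E, W n (-y + z) ≤ r := by
      intro y r h
      filter_upwards [eventually_far_neg h] with z hz
      have e : -y + z = -(y + -z) := by abel
      rw [e, ih]
      exact hz
    have h2 : {r : ℝ | ∀ᶠ z in far E, W n (-x + z) ≤ r} =
        {r : ℝ | ∀ᶠ z in far E, W n (x + z) ≤ r} := by
      ext r
      constructor
      · intro h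
        have h3 := key (-x) r h
        rw [neg_neg] at h3
        exact h3
      · intro h
        exact key x r h
    rw [W, W, h2]

/-- Module `vb`. -/
theorem W_convex (hE : ¬ FiniteDimensional ℂ E) (n : ℕ) :
    ConvexOn ℝ Set.univ (fun x : E => W n x) := by
  have := far_neBot hE
  induction n with
  | zero =>
    change ConvexOn ℝ Set.univ (fun x : E => ‖x‖)
    exact convexOn_univ_norm
  | succ n ih =>
    refine ⟨convex_univ, fun x _ y _ a b ha hb hab => ?_⟩
    refine le_of_forall_pos_le_add fun δ hδ => ?_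
    refine va_succ_le (fun y => W_nonneg n y) ?_
    filter_upwards [W_up n x hδ, W_up n y hδ] with z hz1 hz2
    have h1 := ih.2 (Set.mem_univ (x + z)) (Set.mem_univ (y + z)) ha hb hab
    have e : a • (x + z) + b • (y + z) = a • x + b • y + z := by
      rw [smul_add, smul_add]
      calc a • x + a • z + (b • y + b • z) = a • x + b • y + (a + b) • z := by
            rw [add_smul]; abel
        _ = _ := by rw [hab, one_smul]
    rw [e] at h1
    simp only [smul_eq_mul] at h1 ⊢
    have h2 : a * W n (x + z) ≤ a * (W (n + 1) x + δ) := mul_le_mul_of_nonneg_left hz1 ha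
    have h3 : b * W n (y + z) ≤ b * (W (n + 1) y + δ) := mul_le_mul_of_nonneg_left hz2 hb
    have h4 : a * (W (n + 1) x + δ) + b * (W (n + 1) y + δ) =
        a * W (n + 1) x + b * W (n + 1) y + (a + b) * δ := by ring
    rw [hab, one_mul] at h4
    linarith

/-- Module `vc`: `W n x ≤ (W n (x + z) + W n (x - z)) / 2` and far vectors are symmetric. -/
theorem W_mono (hE : ¬ FiniteDimensional ℂ E) (n : ℕ) (x : E) : W n x ≤ W (n + 1) x := by
  have := far_neBot hE
  refine le_of_forall_pos_le_add fun δ hδ => ?_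
  obtain ⟨z, hz1, hz2⟩ := ((W_up n x hδ).and (eventually_far_neg (W_up n x hδ))).exists
  have h1 := (W_convex hE n).2 (Set.mem_univ (x + z)) (Set.mem_univ (x + -z))
    (show (0 : ℝ) ≤ 1 / 2 by norm_num) (show (0 : ℝ) ≤ 1 / 2 by norm_num) (by norm_num)
  have e : (1 / 2 : ℝ) • (x + z) + (1 / 2 : ℝ) • (x + -z) = x := by
    rw [← smul_add]
    have e2 : x + z + (x + -z) = (2 : ℝ) • x := by
      rw [two_smul]; abel
    rw [e2, smul_smul]
    norm_num
  rw [e] at h1
  simp only [smul_eq_mul] at h1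
  linarith

/-- Module `vc`. -/
theorem Lam_zero : Lam E 0 = 0 := by
  change ‖(0 : E)‖ = 0
  exact norm_zero

/-- Module `vc`. -/
theorem Lam_mono (hE : ¬ FiniteDimensional ℂ E) : Monotone (Lam E) := by
  exact monotone_nat_of_le_succ fun n => W_mono hE n 0

/-- Module `vc`. -/
theorem one_le_Lam (hE : ¬ FiniteDimensional ℂ E) {n : ℕ} (hn : 1 ≤ n) : 1 ≤ Lam E n := by
  have := far_neBot hE
  refine le_trans ?_ (Lam_mono hE hn)
  refine le_of_forall_pos_le_add fun δ hδ => ?_
  obtain ⟨z, hz1, hz2⟩ := ((frequently_unit hE).and_eventually (W_up 0 (0 : E) hδ)).exists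
  rw [zero_add] at hz2
  change ‖z‖ ≤ W 1 (0 : E) + δ at hz2
  rw [hz1] at hz2
  exact hz2

/-- Module `vd`, (LSC): the sublevel set `{v | W k v ≤ W k x - δ}` is convex and closed
(Hahn-Banach: `RCLike.geometric_hahn_banach_point_closed`). -/
theorem W_lsc (hE : ¬ FiniteDimensional ℂ E) (k : ℕ) (x : E) {δ : ℝ} (hδ : 0 < δ) :
    ∃ (f : E →L[ℂ] ℂ) (η : ℝ), 0 < η ∧ ∀ v : E, ‖f v‖ < η → W k x - δ ≤ W k (x - v) := by
  have hcont : Continuous fun v : E => W k v := by
    have hL : LipschitzWith 1 fun v : E => W k v := by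
      refine LipschitzWith.of_le_add_mul 1 fun a b => ?_
      rw [NNReal.coe_one, one_mul, dist_eq_norm]
      exact W_lip hE k a b
    exact hL.continuous
  have hconv : Convex ℝ {v : E | W k v ≤ W k x - δ} := by
    have h1 := (W_convex hE k).convex_le (W k x - δ)
    have h2 : {v : E | W k v ≤ W k x - δ} =
        {v ∈ (Set.univ : Set E) | W k v ≤ W k x - δ} := by
      ext v; simp
    rw [h2]
    exact h1
  have hclosed : IsClosed {v : E | W k v ≤ W k x - δ} := isClosed_le hcont continuous_const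
  have hx : x ∉ {v : E | W k v ≤ W k x - δ} := by
    intro h
    have h' : W k x ≤ W k x - δ := h
    linarith
  obtain ⟨f, u, h1, h2⟩ := RCLike.geometric_hahn_banach_point_closed (𝕜 := ℂ) hconv hclosed hx
  refine ⟨f, u - RCLike.re (f x), sub_pos.mpr h1, fun v hv => ?_⟩
  by_contra h3
  have h4 := h2 (x - v) (le_of_lt (not_le.mp h3))
  have h5 : RCLike.re (f (x - v)) = RCLike.re (f x) - RCLike.re (f v) := by
    rw [map_sub, map_sub]
  rw [h5] at h4
  have h6 : |RCLike.re (f v)| ≤ ‖f v‖ := RCLike.abs_re_le_norm (f v)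
  have h7 := abs_le.mp h6
  linarith [h7.1]

/-- Module `ve`, (BL): induction on `m` (choose the first vector `z` of the block from below for
`x₀` and from above for all points of `S`, then apply the induction hypothesis at `x₀ + z` and the
points `(s + z, k)`, `(s - z, k)`). -/
theorem block (hE : ¬ FiniteDimensional ℂ E) (m : ℕ) (x₀ : E) (S : Finset (E × ℕ))
    (Φ : Finset (E →L[ℂ] ℂ)) {δ : ℝ} (hδ : 0 < δ) :
    ∃ Z : E, (∀ f ∈ Φ, f Z = 0) ∧ W m x₀ - δ ≤ ‖x₀ + Z‖ ∧
      ∀ s ∈ S, W s.2 (s.1 + Z) ≤ W (s.2 + m) s.1 + δ ∧ W s.2 (s.1 - Z) ≤ W (s.2 + m) s.1 + δ := by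
  classical
  induction m generalizing x₀ S Φ δ with
  | zero =>
    refine ⟨0, fun f _ => map_zero f, ?_, fun s _ => ?_⟩
    · rw [add_zero]
      change ‖x₀‖ - δ ≤ ‖x₀‖
      linarith
    · rw [add_zero, sub_zero, add_zero]
      constructor <;> linarith
  | succ m ih =>
    have hδ2 : 0 < δ / 2 := half_pos hδ
    have h1 : ∃ᶠ z in far E, W (m + 1) x₀ - δ / 2 ≤ W m (x₀ + z) := W_low hE m x₀ hδ2
    have h2 : ∀ᶠ z in far E, ∀ s ∈ S, W (s.2 + m) (s.1 + z) ≤ W (s.2 + m + 1) s.1 + δ / 2 := by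
      rw [Filter.eventually_all_finset]
      intro s _
      exact W_up (s.2 + m) s.1 hδ2
    have h3 : ∀ᶠ z in far E, ∀ s ∈ S, W (s.2 + m) (s.1 + -z) ≤ W (s.2 + m + 1) s.1 + δ / 2 :=
      eventually_far_neg h2
    obtain ⟨z, ⟨hz1, hz2⟩, hz3, hz4⟩ :=
      (h1.and_eventually (((eventually_far_ker Φ).and (h2.and h3)))).exists.imp fun z hz =>
        (⟨⟨hz.1, hz.2.1⟩, hz.2.2.1, hz.2.2.2⟩ :
          (W (m + 1) x₀ - δ / 2 ≤ W m (x₀ + z) ∧ ∀ f ∈ Φ, f z = 0) ∧
          (∀ s ∈ S, W (s.2 + m) (s.1 + z) ≤ W (s.2 + m + 1) s.1 + δ / 2) ∧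
          (∀ s ∈ S, W (s.2 + m) (s.1 + -z) ≤ W (s.2 + m + 1) s.1 + δ / 2))
    obtain ⟨Z, hZ1, hZ2, hZ3⟩ := ih (x₀ + z)
      (S.image (fun s => (s.1 + z, s.2)) ∪ S.image (fun s => (s.1 - z, s.2))) Φ hδ2
    refine ⟨z + Z, fun f hf => ?_, ?_, fun s hs => ⟨?_, ?_⟩⟩
    · rw [map_add, hz2 f hf, hZ1 f hf, add_zero]
    · rw [← add_assoc]
      linarith
    · have h4 := (hZ3 (s.1 + z, s.2) (Finset.mem_union_left _
        (Finset.mem_image_of_mem (fun s : E × ℕ => (s.1 + z, s.2)) hs))).1
      have h5 := hz3 s hs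
      simp only at h4
      rw [← add_assoc, ← add_assoc]
      linarith
    · have h4 := (hZ3 (s.1 - z, s.2) (Finset.mem_union_right _
        (Finset.mem_image_of_mem (fun s : E × ℕ => (s.1 - z, s.2)) hs))).2
      have h5 := hz4 s hs
      simp only at h4
      rw [← sub_eq_add_neg] at h5
      have e1 : s.1 - (z + Z) = s.1 - z - Z := by abel
      rw [e1, ← add_assoc]
      linarith

end Pool.Agent.CptDim
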